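import Pool.Agent.Helper486.CellData

namespace Pool.Agent.Helper486.Cell

theorem checkA_eq : checkA = true := by decide +kernel

end Pool.Agent.Helper486.Cell
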