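import Pool.Agent.Helper486.CellPoly

namespace Pool.Agent.Helper486.Cell

open Finset Real Ham

lemma cell_J (S : Finset (Fin 120)) (i : Fin 600) : i ∈ cell.J S ↔ S ⊆ NN i := cell.mem_J

lemma h1 (S : Finset (Fin 120)) (hS : S.card = 1) : (cell.J S).card = 20 := by
  obtain ⟨f, rfl⟩ := Finset.card_eq_one.1 hS
  have h := Nat.eq_of_beq_eq_true (allB_spec checkJ_eq f f.2)
  rw [cnt_spec] at h
  have hJ : cell.J {f} = (Finset.univ : Finset (Fin 600)).filter (fun i : Fin 600 => isIn f i = true) := by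
    ext i
    rw [cell_J, Finset.singleton_subset_iff, mem_NN, Finset.mem_filter]
    exact ⟨fun h => ⟨Finset.mem_univ _, h⟩, fun h => h.2⟩
  rw [hJ]
  exact h

lemma factV {f : ℕ} (hf : f < 120) {a : ℕ} (ha : a < 20) :
    isIn f (vtx f a) = true ∧ vtx f a ≤ 599 ∧ (a = 19 ∨ vtx f a < vtx f (a + 1)) := by
  have h := allB_spec (allB_spec checkV_eq f hf) a ha
  simp only [Bool.and_eq_true, Bool.or_eq_true] at h
  obtain ⟨⟨h1, h2⟩, h3⟩ := h
  refine ⟨h1, Nat.le_of_ble_eq_true h2, ?_⟩
  rcases h3 with h3 | h3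
  · exact Or.inl (Nat.eq_of_beq_eq_true h3)
  · exact Or.inr (Nat.le_of_ble_eq_true h3)

def vtxF (f : Fin 120) (a : Fin 20) : Fin 600 :=
  ⟨vtx f a, Nat.lt_succ_of_le (factV f.2 a.2).2.1⟩

lemma vtxF_inj (f : Fin 120) : Function.Injective (vtxF f) := by
  have hlt : ∀ a b, a < b → b < 20 → vtx f a < vtx f b := by
    intro a b hab hb
    refine lt_of_steps (n := 20) (fun a ha => ?_) a b hab hb
    rcases (factV f.2 (a := a) (by omega)).2.2 with h | h
    · omega
    · exact h
  intro a b hab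
  have h : vtx f a = vtx f b := congrArg Fin.val hab
  by_contra hne
  rcases lt_or_gt_of_ne (fun h => hne (Fin.ext h) : a.val ≠ b.val) with h1 | h1
  · have := hlt _ _ h1 b.2; omega
  · have := hlt _ _ h1 a.2; omega

lemma J_eq (f : Fin 120) : cell.J {f} = Finset.univ.image (vtxF f) := by
  symm
  apply Finset.eq_of_subset_of_card_le
  · intro i hi
    obtain ⟨a, _, rfl⟩ := Finset.mem_image.1 hi
    rw [cell_J, Finset.singleton_subset_iff, mem_NN]
    exact (factV f.2 a.2).1
  · rw [h1 {f} (Finset.card_singleton f), Finset.card_image_of_injective _ (vtxF_inj f)]; simp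

lemma h2 (S : Finset (Fin 120)) (hS : S.card = 2) (hJ : (cell.J S).Nonempty) :
    (cell.J S).card = 5 := by
  obtain ⟨f, g, hfg, rfl⟩ := Finset.card_eq_two.1 hS
  have hcnt : (cell.J {f, g}).card = cnt 20 (fun a => isIn g (vtx f a)) := by
    rw [cnt_spec, ← Finset.card_image_of_injective _ (vtxF_inj f)]
    refine congrArg Finset.card ?_
    ext i
    rw [cell_J, Finset.insert_subset_iff, Finset.singleton_subset_iff, Finset.mem_image]
    constructor
    · rintro ⟨hf, hg⟩
      have : i ∈ cell.J {f} := by rw [cell_J, Finset.singleton_subset_iff]; exact hf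
      rw [J_eq] at this
      obtain ⟨a, _, rfl⟩ := Finset.mem_image.1 this
      refine ⟨a, ?_, rfl⟩
      simp only [Finset.mem_filter, Finset.mem_univ, true_and]
      exact mem_NN.1 hg
    · rintro ⟨a, ha, rfl⟩
      simp only [Finset.mem_filter, Finset.mem_univ, true_and] at ha
      exact ⟨mem_NN.2 (factV f.2 a.2).1, mem_NN.2 ha⟩
  have h := allB_spec (allB_spec checkP_eq f f.2) g g.2
  simp only [Bool.or_eq_true] at h
  rcases h with h | h | h
  · exact absurd (Fin.ext (Nat.eq_of_beq_eq_true h)).symm hfg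
  · have h0 := Nat.eq_of_beq_eq_true h
    rw [← hcnt, Finset.card_eq_zero] at h0
    rw [h0] at hJ
    exact absurd hJ Finset.not_nonempty_empty
  · rw [hcnt]; exact Nat.eq_of_beq_eq_true h

lemma vv_ne_of_NN_ne {i j : Fin 600} (h : vv i = vv j) : i = j := by
  apply NN_inj
  ext f
  have h1 : innerSL ℝ (nn f) (vv i) = cell.c ↔ f ∈ NN i := cell.eq_iff f i
  have h2 : innerSL ℝ (nn f) (vv j) = cell.c ↔ f ∈ NN j := cell.eq_iff f j
  rw [← h1, ← h2, h]

lemma on_line {x y z : EuclideanSpace ℝ (Fin 4)} (hx : ‖x‖ = 1) (hy : ‖y‖ = 1) (hz : ‖z‖ = 1)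
    (t : ℝ) (h : z - x = t • (y - x)) : z = x ∨ z = y := by
  have hz2 : z = x + t • (y - x) := by rw [← h]; abel
  have e1 : ‖y - x‖ ^ 2 = 2 - 2 * inner ℝ x y := by
    rw [norm_sub_sq_real, hx, hy, real_inner_comm]; ring
  have e2 : ‖z‖ ^ 2 = ‖x‖ ^ 2 + 2 * (t * inner ℝ x (y - x)) + t ^ 2 * ‖y - x‖ ^ 2 := by
    rw [hz2, norm_add_sq_real, inner_smul_right, norm_smul, mul_pow, Real.norm_eq_abs, sq_abs]
  have e3 : inner ℝ x (y - x) = inner ℝ x y - 1 := by
    rw [inner_sub_right, real_inner_self_eq_norm_sq, hx]; ring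
  rw [hz, hx, e3, e1] at e2
  have e4 : (1 - inner ℝ x y) * (t * (t - 1)) = 0 := by nlinarith
  rcases mul_eq_zero.1 e4 with h0 | h0
  · have : y - x = 0 := by
      rw [← norm_eq_zero, ← sq_eq_zero_iff, e1]; linarith
    left
    rw [hz2, this, smul_zero, add_zero]
  · rcases mul_eq_zero.1 h0 with h0 | h0
    · left; rw [hz2, h0, zero_smul, add_zero]
    · right
      have : t = 1 := by linarith
      rw [hz2, this, one_smul]; abel

lemma h3 (S : Finset (Fin 120)) (hS : S.card = 3) (hJ : (cell.J S).Nonempty) :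
    (cell.J S).card = 2 := by
  obtain ⟨i, hi⟩ := hJ
  have hSi : S ⊆ cell.N i := cell.mem_J.1 hi
  have hc : (cell.N i \ S).card = 1 := by
    rw [Finset.card_sdiff_of_subset hSi, cell.card_N, hS]
  obtain ⟨f, hf⟩ := Finset.card_eq_one.1 hc
  have hfm : f ∈ cell.N i \ S := by rw [hf]; exact Finset.mem_singleton_self f
  rw [Finset.mem_sdiff] at hfm
  set w := cell.w i f hfm.1 with hw
  have hwJ : w ∈ cell.J S := by
    rw [cell.mem_J]
    intro g hg
    exact cell.w_sub i f hfm.1 (Finset.mem_erase.2 ⟨fun h => hfm.2 (h ▸ hg), hSi hg⟩)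
  have hiw : i ≠ w := by
    intro h
    exact cell.w_not i f hfm.1 (by rw [← hw, ← h]; exact hfm.1)
  have hJeq : cell.J S = {i, w} := by
    ext j
    rw [Finset.mem_insert, Finset.mem_singleton]
    constructor
    · intro hj
      have hco := cell.coord i (cell.v j)
      rw [Finset.sum_eq_single ⟨f, hfm.1⟩] at hco
      · have h := on_line (x := vv i) (y := vv w) (z := vv j) (norm_vv i) (norm_vv w)
          (norm_vv j) _ hco
        rcases h with h | h
        · exact Or.inl (vv_ne_of_NN_ne h)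
        · exact Or.inr (vv_ne_of_NN_ne h)
      · intro g _ hg
        have hgS : g.1 ∈ S := by
          by_contra hgS
          have : g.1 ∈ cell.N i \ S := Finset.mem_sdiff.2 ⟨g.2, hgS⟩
          rw [hf, Finset.mem_singleton] at this
          exact hg (Subtype.ext this)
        rw [map_sub, (cell.eq_iff _ _).2 (cell.mem_J.1 hj hgS), (cell.eq_iff _ _).2 g.2, sub_self,
          zero_div, zero_smul]
      · intro h; exact absurd (Finset.mem_univ _) h
    · rintro (rfl | rfl)
      · exact hi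
      · exact hwJ
  rw [hJeq, Finset.card_pair hiw]

lemma h12 (S : Finset (Fin 120)) (hS : S.card = 1) : (cell.R S).card = 12 := by
  obtain ⟨f, rfl⟩ := Finset.card_eq_one.1 hS
  have key : (cell.R {f}).card * 5 = (cell.J {f}).card * 3 := by
    refine Finset.card_mul_eq_card_mul (fun g i => g ∈ NN i) ?_ ?_
    · intro g hg
      obtain ⟨hg1, hg2⟩ := cell.mem_R.1 hg
      rw [← h2 (insert g {f}) (by rw [Finset.card_insert_of_notMem hg1, Finset.card_singleton]) hg2]
      refine congrArg Finset.card ?_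
      ext i
      rw [Finset.mem_bipartiteAbove, cell_J, cell_J, Finset.insert_subset_iff,
        Finset.singleton_subset_iff]
      tauto
    · intro i hi
      have hfi : f ∈ NN i := by rw [cell_J, Finset.singleton_subset_iff] at hi; exact hi
      have : Finset.bipartiteBelow (fun g i => g ∈ NN i) (cell.R {f}) i = (NN i).erase f := by
        ext g
        rw [Finset.mem_bipartiteBelow, Finset.mem_erase, cell.mem_R, Finset.mem_singleton]
        constructor
        · rintro ⟨⟨h1, _⟩, h3⟩; exact ⟨h1, h3⟩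
        · rintro ⟨h1, h3⟩
          refine ⟨⟨h1, i, ?_⟩, h3⟩
          rw [cell_J, Finset.insert_subset_iff, Finset.singleton_subset_iff]
          exact ⟨h3, hfi⟩
      rw [this, Finset.card_erase_of_mem hfi, card_NN]
  rw [h1 {f} hS] at key
  omega

theorem cell_nums : cell.Nums where
  h1 := h1
  h2 := h2
  h3 := h3
  h12 := h12
  hι := by simp

end Pool.Agent.Helper486.Cell
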