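import Pool.Agent.Helper486.CellSound

namespace Pool.Agent.Helper486.Cell

open Finset Real Ham

/-- the vertices of the 120-cell on the unit sphere -/
noncomputable def vv (i : Fin 600) : EuclideanSpace ℝ (Fin 4) :=
  WithLp.toLp 2 (fun k => rv (dg (vcode i) k) / √8)

/-- the facet normals -/
noncomputable def nn (f : Fin 120) : EuclideanSpace ℝ (Fin 4) :=
  WithLp.toLp 2 (fun k => rv (dg (fcode f) k))

def NN (i : Fin 600) : Finset (Fin 120) := Finset.univ.filter (fun f => isIn f i = true)

lemma mem_NN {i : Fin 600} {f : Fin 120} : f ∈ NN i ↔ isIn f i = true := by simp [NN]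

lemma inner_nv (f : Fin 120) (i : Fin 600) :
    innerSL ℝ (nn f) (vv i) = rdot (fcode f) (vcode i) / √8 := by
  rw [innerSL_apply_apply, PiLp.inner_apply, rdot, Finset.sum_div, Fin.sum_univ_four]
  simp only [Finset.sum_range_succ, Finset.sum_range_zero, zero_add, nn, vv]
  simp
  ring

lemma norm_vv (i : Fin 600) : ‖vv i‖ = 1 := by
  have h : dotc (vcode i) (vcode i) = 87896 :=
    Nat.eq_of_beq_eq_true (allB_spec checkR_eq i i.2)
  have h2 : ‖vv i‖ ^ 2 = rdot (vcode i) (vcode i) / 8 := by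
    rw [EuclideanSpace.norm_sq_eq, rdot, Finset.sum_div, Fin.sum_univ_four]
    simp only [Finset.sum_range_succ, Finset.sum_range_zero, zero_add, vv]
    simp [div_pow]
    ring
  rw [rdot_self h, div_self (by norm_num)] at h2
  have h3 : 0 ≤ ‖vv i‖ := norm_nonneg _
  nlinarith [sq_nonneg (‖vv i‖ - 1)]

lemma sqrt8_pos : (0 : ℝ) < √8 := by positivity

lemma inc_true {f : Fin 120} {i : Fin 600} (h : isIn f i = true) :
    innerSL ℝ (nn f) (vv i) = (2 + 2 * goldenRatio) / √8 := by
  have hA := allB_spec (allB_spec checkA_eq i i.2) f f.2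
  simp only [h, if_true] at hA
  rw [inner_nv, rdot_eq_iff (Nat.eq_of_beq_eq_true hA)]

lemma inc_false {f : Fin 120} {i : Fin 600} (h : isIn f i = false) :
    innerSL ℝ (nn f) (vv i) < (2 + 2 * goldenRatio) / √8 := by
  have hA := allB_spec (allB_spec checkA_eq i i.2) f f.2
  simp only [h, Bool.false_eq_true, if_false] at hA
  rw [inner_nv]
  exact div_lt_div_of_pos_right (rdot_lt (Nat.le_of_ble_eq_true hA)) sqrt8_pos

lemma card_NN (i : Fin 600) : (NN i).card = 4 := by
  have h := Nat.eq_of_beq_eq_true (allB_spec checkN_eq i i.2)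
  rw [cnt_spec] at h
  exact h

lemma factF {i : ℕ} (hi : i < 600) {a : ℕ} (ha : a < 4) :
    isIn (fct i a) i = true ∧ fct i a ≤ 119 ∧ (a = 3 ∨ fct i a < fct i (a + 1)) ∧
      nbr i a ≤ 599 ∧ ∀ b < 4, (b = a → isIn (fct i b) (nbr i a) = false) ∧
        (b ≠ a → isIn (fct i b) (nbr i a) = true) := by
  have h := allB_spec (allB_spec checkF_eq i hi) a ha
  simp only [Bool.and_eq_true, Bool.or_eq_true] at h
  obtain ⟨⟨⟨⟨h1, h2⟩, h3⟩, h4⟩, h5⟩ := h
  refine ⟨h1, Nat.le_of_ble_eq_true h2, ?_, Nat.le_of_ble_eq_true h4, fun b hb => ?_⟩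
  · rcases h3 with h3 | h3
    · exact Or.inl (Nat.eq_of_beq_eq_true h3)
    · exact Or.inr (Nat.le_of_ble_eq_true h3)
  · have h6 := allB_spec h5 b hb
    constructor
    · intro hba
      subst hba
      simpa [Nat.beq_refl] using h6
    · intro hba
      have : Nat.beq b a = false := by
        cases hh : Nat.beq b a
        · rfl
        · exact absurd (Nat.eq_of_beq_eq_true hh) hba
      simpa [this] using h6

lemma fct_lt {i : ℕ} (hi : i < 600) {a b : ℕ} (hab : a < b) (hb : b < 4) :
    fct i a < fct i b := by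
  refine lt_of_steps (n := 4) (fun a ha => ?_) a b hab hb
  rcases (factF hi (a := a) (by omega)).2.2.1 with h | h
  · omega
  · exact h

def fctF (i : Fin 600) (a : Fin 4) : Fin 120 :=
  ⟨fct i a, Nat.lt_succ_of_le (factF i.2 a.2).2.1⟩

lemma fctF_inj (i : Fin 600) : Function.Injective (fctF i) := by
  intro a b hab
  have h : fct i a = fct i b := congrArg Fin.val hab
  by_contra hne
  rcases lt_or_gt_of_ne (fun h => hne (Fin.ext h) : a.val ≠ b.val) with h1 | h1
  · have := fct_lt i.2 h1 b.2; omega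
  · have := fct_lt i.2 h1 a.2; omega

lemma NN_eq (i : Fin 600) : NN i = Finset.univ.image (fctF i) := by
  symm
  apply Finset.eq_of_subset_of_card_le
  · intro f hf
    obtain ⟨a, _, rfl⟩ := Finset.mem_image.1 hf
    exact mem_NN.2 (factF i.2 a.2).1
  · rw [card_NN, Finset.card_image_of_injective _ (fctF_inj i)]; simp

lemma nb_NN (i : Fin 600) (f : Fin 120) (hf : f ∈ NN i) :
    ∃ j, (NN i).erase f ⊆ NN j ∧ f ∉ NN j := by
  rw [NN_eq] at hf
  obtain ⟨a, _, rfl⟩ := Finset.mem_image.1 hf
  have hF := factF i.2 a.2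
  refine ⟨⟨nbr i a, Nat.lt_succ_of_le hF.2.2.2.1⟩, ?_, ?_⟩
  · intro g hg
    rw [Finset.mem_erase, NN_eq] at hg
    obtain ⟨hne, hg⟩ := hg
    obtain ⟨b, _, rfl⟩ := Finset.mem_image.1 hg
    rw [mem_NN]
    refine (hF.2.2.2.2 b b.2).2 (fun h => hne ?_)
    rw [Fin.ext h]
  · rw [mem_NN]
    have := (hF.2.2.2.2 a a.2).1 rfl
    intro h
    have h' : isIn (fct i a) (nbr i a) = true := h
    rw [this] at h'
    exact Bool.noConfusion h'

/-- the 120-cell -/
noncomputable def cell : SData (Fin 600) (Fin 120) where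
  v := vv
  l f := innerSL ℝ (nn f)
  c := (2 + 2 * goldenRatio) / √8
  N := NN
  le f i := by
    cases h : isIn f i
    · exact (inc_false h).le
    · exact (inc_true h).le
  eq_iff f i := by
    rw [mem_NN]
    constructor
    · intro h
      cases h' : isIn f i
      · exact absurd h (ne_of_lt (inc_false h'))
      · rfl
    · exact inc_true
  card_N := card_NN
  nb := nb_NN
  finrank_E := by simp
  ne := ⟨0⟩

lemma testBit_nmask (i : ℕ) (f : ℕ) (hf : f < 120) :
    (nmask i).testBit f = isIn f i := by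
  unfold nmask isIn
  rw [Nat.testBit_mod_two_pow, Nat.testBit_shiftRight]
  simp only [hf, decide_true, Bool.true_and]
  rw [Nat.testBit_eq_decide_div_mod_eq, ← Nat.shiftRight_eq_div_pow]
  rcases Nat.mod_two_eq_zero_or_one (MK >>> (120 * i + f)) with h | h <;> rw [h] <;> rfl

lemma NN_inj : Function.Injective NN := by
  intro i j hij
  have h : nmask i = nmask j := by
    apply Nat.eq_of_testBit_eq
    intro f
    by_cases hf : f < 120
    · rw [testBit_nmask _ _ hf, testBit_nmask _ _ hf]
      have h1 : (⟨f, hf⟩ : Fin 120) ∈ NN i ↔ (⟨f, hf⟩ : Fin 120) ∈ NN j := by rw [hij]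
      rw [mem_NN, mem_NN] at h1
      simp only at h1
      cases h2 : isIn f i <;> cases h3 : isIn f j <;> simp_all
    · unfold nmask
      rw [Nat.testBit_mod_two_pow, Nat.testBit_mod_two_pow]
      simp [hf]
  by_contra hne
  have hlt : ∀ a b, a < b → b < 600 → nmask a < nmask b := by
    intro a b hab hb
    refine lt_of_steps (n := 600) (fun a ha => ?_) a b hab hb
    exact Nat.le_of_ble_eq_true (allB_spec checkM_eq a (by omega))
  rcases lt_or_gt_of_ne (fun h => hne (Fin.ext h) : i.val ≠ j.val) with h1 | h1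
  · have := hlt _ _ h1 j.2; omega
  · have := hlt _ _ h1 i.2; omega

end Pool.Agent.Helper486.Cell
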