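import Pool.Agent.Helper486.Count
import Pool.Agent.Helper486.CellChkS
import Pool.Agent.Helper486.CellChkA
import Pool.Agent.Helper486.CellChkN
import Pool.Agent.Helper486.CellChkJ
import Pool.Agent.Helper486.CellChkP

namespace Pool.Agent.Helper486.Cell

open Finset Real

lemma allB_spec {n : ℕ} {p : ℕ → Bool} (h : allB n p = true) : ∀ i < n, p i = true := by
  induction n with
  | zero => intro i hi; omega
  | succ n ih =>
    intro i hi
    rw [allB, Bool.and_eq_true] at h
    rcases Nat.lt_succ_iff_lt_or_eq.1 hi with h1 | h1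
    · exact ih h.2 i h1
    · rw [h1]; exact h.1

lemma cnt_spec (n : ℕ) (p : ℕ → Bool) :
    cnt n p = ((Finset.univ : Finset (Fin n)).filter (fun i => p i.val = true)).card := by
  have h : ∀ n, cnt n p = ((Finset.range n).filter (fun i => p i = true)).card := by
    intro n
    induction n with
    | zero => simp [cnt]
    | succ n ih =>
      rw [cnt, Finset.range_add_one, Finset.filter_insert]
      cases hp : p n
      · simp [ih]
      · simp [ih]
  rw [h n]
  symm
  refine Finset.card_bij (fun i _ => i.val) ?_ ?_ ?_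
  · intro i hi
    simp only [Finset.mem_filter, Finset.mem_univ, true_and] at hi
    simp [hi]
  · intro i _ j _ h; exact Fin.ext h
  · intro j hj
    simp only [Finset.mem_filter, Finset.mem_range] at hj
    exact ⟨⟨j, hj.1⟩, by simp [hj.2], rfl⟩

lemma lt_of_steps {n : ℕ} {g : ℕ → ℕ} (h : ∀ a, a + 1 < n → g a < g (a + 1)) :
    ∀ a b, a < b → b < n → g a < g b := by
  intro a b hab
  induction b, hab using Nat.le_induction with
  | base => intro hb; exact h a hb
  | succ b hab ih => intro hb; exact (ih (by omega)).trans (h b hb)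

/-- the real number with code `x` -/
noncomputable def rv (x : ℕ) : ℝ := ga x + gb x * goldenRatio

lemma dg_lt (c k : ℕ) : dg c k < 16 := by unfold dg; exact Nat.mod_lt _ (by norm_num)

lemma pc_spec {x y : ℕ} (hx : x < 16) (hy : y < 16) :
    (pc x y : ℤ) = 987 * (ga x * ga y + gb x * gb y) +
    1597 * (ga x * gb y + gb x * ga y + gb x * gb y) + 20000 ∧
    |ga x * ga y + gb x * gb y| ≤ 8 ∧ |ga x * gb y + gb x * ga y + gb x * gb y| ≤ 8 := by
  have h := allB_spec (allB_spec checkT_eq x hx) y hy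
  exact of_decide_eq_true h

/-- the two integer coordinates of a scalar product -/
def dP (a b : ℕ) : ℤ := ∑ k ∈ Finset.range 4,
  (ga (dg a k) * ga (dg b k) + gb (dg a k) * gb (dg b k))
def dQ (a b : ℕ) : ℤ := ∑ k ∈ Finset.range 4,
  (ga (dg a k) * gb (dg b k) + gb (dg a k) * ga (dg b k) + gb (dg a k) * gb (dg b k))

lemma dotc_spec (a b : ℕ) : (dotc a b : ℤ) = 987 * dP a b + 1597 * dQ a b + 80000 ∧
    |dP a b| ≤ 32 ∧ |dQ a b| ≤ 32 := by
  have h0 := pc_spec (dg_lt a 0) (dg_lt b 0)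
  have h1 := pc_spec (dg_lt a 1) (dg_lt b 1)
  have h2 := pc_spec (dg_lt a 2) (dg_lt b 2)
  have h3 := pc_spec (dg_lt a 3) (dg_lt b 3)
  simp only [dotc, dP, dQ, Finset.sum_range_succ, Finset.sum_range_zero, zero_add]
  push_cast
  rw [h0.1, h1.1, h2.1, h3.1]
  obtain ⟨_, a0, b0⟩ := h0
  obtain ⟨_, a1, b1⟩ := h1
  obtain ⟨_, a2, b2⟩ := h2
  obtain ⟨_, a3, b3⟩ := h3
  rw [abs_le] at a0 b0 a1 b1 a2 b2 a3 b3
  refine ⟨by ring, ?_, ?_⟩
  · rw [abs_le]; constructor <;> linarith [a0.1, a0.2, a1.1, a1.2, a2.1, a2.2, a3.1, a3.2]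
  · rw [abs_le]; constructor <;> linarith [b0.1, b0.2, b1.1, b1.2, b2.1, b2.2, b3.1, b3.2]

/-- real scalar product of two code vectors -/
noncomputable def rdot (a b : ℕ) : ℝ := ∑ k ∈ Finset.range 4, rv (dg a k) * rv (dg b k)

lemma rdot_eq (a b : ℕ) : rdot a b = dP a b + dQ a b * goldenRatio := by
  have hs : goldenRatio * goldenRatio = goldenRatio + 1 := by
    rw [← sq]; exact goldenRatio_sq
  have h : ∀ x y : ℕ, rv x * rv y = ((ga x * ga y + gb x * gb y : ℤ) : ℝ) +
      ((ga x * gb y + gb x * ga y + gb x * gb y : ℤ) : ℝ) * goldenRatio := by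
    intro x y
    unfold rv
    push_cast
    linear_combination (gb x * gb y : ℝ) * hs
  unfold rdot dP dQ
  simp only [Finset.sum_range_succ, Finset.sum_range_zero, zero_add]
  rw [h, h, h, h]
  push_cast
  ring

lemma phi_bounds : (1597 / 987 : ℝ) - 1 / 1000000 < goldenRatio ∧
    goldenRatio < (1597 / 987 : ℝ) + 1 / 1000000 := by
  have hs : goldenRatio ^ 2 = goldenRatio + 1 := goldenRatio_sq
  have hp : 1 < goldenRatio := one_lt_goldenRatio
  constructor <;> nlinarith

lemma rdot_eq_iff {a b : ℕ} (h : dotc a b = 85168) : rdot a b = 2 + 2 * goldenRatio := by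
  obtain ⟨h1, h2, h3⟩ := dotc_spec a b
  have h' : (dotc a b : ℤ) = 85168 := by exact_mod_cast h
  rw [h'] at h1
  clear h h'
  rw [abs_le] at h2 h3
  rw [rdot_eq]
  generalize dP a b = P at *
  generalize dQ a b = Q at *
  have hQ : Q = 2 := by omega
  have hP : P = 2 := by omega
  rw [hP, hQ]; norm_num

lemma rdot_lt {a b : ℕ} (h : dotc a b ≤ 85167) : rdot a b < 2 + 2 * goldenRatio := by
  obtain ⟨h1, h2, h3⟩ := dotc_spec a b
  have h4 : 987 * dP a b + 1597 * dQ a b ≤ 5167 := by
    have : (dotc a b : ℤ) ≤ 85167 := by exact_mod_cast h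
    omega
  rw [abs_le] at h2 h3
  rw [rdot_eq]
  have h5 : (987 : ℝ) * dP a b + 1597 * dQ a b ≤ 5167 := by exact_mod_cast h4
  have h6 : (dQ a b : ℝ) ≤ 32 := by exact_mod_cast h3.2
  have h7 : (-32 : ℝ) ≤ dQ a b := by exact_mod_cast h3.1
  obtain ⟨p1, p2⟩ := phi_bounds
  have h8 : (2 - dQ a b : ℝ) * (goldenRatio - 1597 / 987) ≥ - (34 * (1 / 1000000)) := by
    have e1 : |(2 - dQ a b : ℝ) * (goldenRatio - 1597 / 987)| ≤ 34 * (1 / 1000000) := by
      rw [abs_mul]
      apply mul_le_mul _ _ (abs_nonneg _) (by norm_num)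
      · rw [abs_le]; constructor <;> linarith
      · rw [abs_le]; constructor <;> linarith
    exact (abs_le.1 e1).1
  nlinarith

lemma rdot_self {a : ℕ} (h : dotc a a = 87896) : rdot a a = 8 := by
  obtain ⟨h1, h2, h3⟩ := dotc_spec a a
  have h' : (dotc a a : ℤ) = 87896 := by exact_mod_cast h
  rw [h'] at h1
  clear h h'
  rw [abs_le] at h2 h3
  rw [rdot_eq]
  generalize dP a a = P at *
  generalize dQ a a = Q at *
  have hQ : Q = 0 := by omega
  have hP : P = 8 := by omega
  rw [hP, hQ]; norm_num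

lemma rv_lt (x : ℕ) (hx : x < 16) : rv x < √8 := by
  have hs : goldenRatio ^ 2 = goldenRatio + 1 := goldenRatio_sq
  have hp : 1 < goldenRatio := one_lt_goldenRatio
  have h1 : goldenRatio < 1.62 := by nlinarith
  have h2 : 1.6 < goldenRatio := by nlinarith
  have h3 : (2.7 : ℝ) < √8 := by
    rw [Real.lt_sqrt (by norm_num)]; norm_num
  refine lt_of_le_of_lt ?_ h3
  unfold rv
  interval_cases x <;> norm_num [ga, gb] <;> linarith

end Pool.Agent.Helper486.Cell
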