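import Pool.Agent.Helper486.Topo

namespace Pool.Agent.Helper486.Topo

open Metric Set Topology

/-- the two-sphere -/
abbrev S2 := sphere (0 : EuclideanSpace ℝ (Fin 3)) 1

instance : Fact (Module.finrank ℝ (EuclideanSpace ℝ (Fin 3)) = 2 + 1) := ⟨by simp⟩

/-- stereographic chart onto the complex plane -/
noncomputable def chartC (p : S2) : OpenPartialHomeomorph S2 ℂ :=
  (stereographic' 2 p).transHomeomorph Complex.orthonormalBasisOneI.repr.symm.toHomeomorph

lemma chartC_source (p : S2) : (chartC p).source = {p}ᶜ := by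
  simp [chartC]

lemma chartC_target (p : S2) : (chartC p).target = Set.univ := by
  simp [chartC]

lemma iod_S2 {X : Type*} [TopologicalSpace X] (h : X ≃ₜ S2) {φ : ℂ → X} {r : ℝ} (hr : 0 < r)
    (hc : ContinuousOn φ (closedBall 0 r)) (hi : InjOn φ (closedBall 0 r)) :
    ∃ U : Set X, IsOpen U ∧ φ 0 ∈ U ∧ U ⊆ φ '' closedBall 0 r := by
  have hrr : ((r : ℝ) : ℂ) ∈ closedBall (0 : ℂ) r := by
    rw [mem_closedBall_zero_iff, Complex.norm_real, Real.norm_of_nonneg hr.le]
  have hsub : closedBall (0 : ℂ) (r / 2) ⊆ closedBall 0 r := closedBall_subset_closedBall (by linarith)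
  set p : S2 := h (φ r) with hp
  set e := chartC p with he
  have hsrc : ∀ z ∈ closedBall (0 : ℂ) (r / 2), h (φ z) ∈ e.source := by
    intro z hz
    rw [he, chartC_source, Set.mem_compl_iff, Set.mem_singleton_iff, hp]
    intro heq
    have h1 := hi (hsub hz) hrr (h.injective heq)
    rw [h1, mem_closedBall_zero_iff, Complex.norm_real, Real.norm_of_nonneg hr.le] at hz
    linarith
  have hFc : ContinuousOn (fun z => e (h (φ z))) (closedBall 0 (r / 2)) := by
    refine e.continuousOn.comp (h.continuous.comp_continuousOn (hc.mono hsub)) ?_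
    exact fun z hz => hsrc z hz
  have hFi : InjOn (fun z => e (h (φ z))) (closedBall 0 (r / 2)) := by
    intro a ha b hb hab
    exact hi (hsub ha) (hsub hb) (h.injective (e.injOn (hsrc a ha) (hsrc b hb) hab))
  obtain ⟨m, hm, hball⟩ := iod (half_pos hr) hFc hFi
  have h0mem : (0 : ℂ) ∈ closedBall (0 : ℂ) (r / 2) := by simp; linarith
  refine ⟨h ⁻¹' (e.source ∩ e ⁻¹' (ball (e (h (φ 0))) m)), ?_, ?_, ?_⟩
  · exact (e.isOpen_inter_preimage isOpen_ball).preimage h.continuous
  · exact ⟨hsrc 0 h0mem, mem_ball_self hm⟩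
  · rintro x ⟨hx1, hx2⟩
    obtain ⟨z, hz, hzx⟩ := hball hx2
    refine ⟨z, hsub hz, ?_⟩
    exact h.injective (e.injOn (hsrc z hz) hx1 hzx)

lemma exists_ne_S2 (q : S2) : ∃ p : S2, p ≠ q := by
  refine ⟨-q, fun h => ?_⟩
  have h1 : -(q : EuclideanSpace ℝ (Fin 3)) = q := congrArg Subtype.val h
  have h2 : (q : EuclideanSpace ℝ (Fin 3)) = 0 := by
    have : (2 : ℝ) • (q : EuclideanSpace ℝ (Fin 3)) = 0 := by
      rw [two_smul]; nth_rewrite 1 [← h1]; simp
    exact (smul_eq_zero.1 this).resolve_left two_ne_zero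
  have h3 : ‖(q : EuclideanSpace ℝ (Fin 3))‖ = 1 := by simp
  rw [h2, norm_zero] at h3
  exact zero_ne_one h3

lemma iod_S2' {X : Type*} [TopologicalSpace X] (h : X ≃ₜ S2) {x0 : X} {N : Set X}
    (hN : N ∈ 𝓝 x0) {ρ : X → ℂ} (hc : ContinuousOn ρ N) (hi : InjOn ρ N) :
    ∃ m > 0, ball (ρ x0) m ⊆ ρ '' N := by
  obtain ⟨p, hp⟩ := exists_ne_S2 (h x0)
  set e := chartC p with he
  have hx0 : h x0 ∈ e.source := by
    rw [he, chartC_source, Set.mem_compl_iff, Set.mem_singleton_iff]; exact hp.symm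
  have htar : e.target = Set.univ := chartC_target p
  let ψ : ℂ → X := fun z => h.symm (e.symm (e (h x0) + z))
  have hec : Continuous e.symm := by
    rw [← continuousOn_univ, ← htar]; exact e.continuousOn_symm
  have hψc : Continuous ψ := h.symm.continuous.comp (hec.comp (by fun_prop))
  have hψi : Function.Injective ψ := by
    intro a b hab
    have h1 := h.symm.injective hab
    have h2 : e (h x0) + a = e (h x0) + b :=
      e.symm.injOn (by simp [htar]) (by simp [htar]) h1
    exact add_left_cancel h2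
  have hψ0 : ψ 0 = x0 := by
    simp only [ψ, add_zero]
    rw [e.left_inv hx0, h.symm_apply_apply]
  have hpre : ψ ⁻¹' N ∈ 𝓝 (0 : ℂ) := hψc.continuousAt.preimage_mem_nhds (by rw [hψ0]; exact hN)
  obtain ⟨r, hr, hrN⟩ := Metric.nhds_basis_closedBall.mem_iff.1 hpre
  obtain ⟨m, hm, hball⟩ := iod (F := ρ ∘ ψ) hr (hc.comp hψc.continuousOn hrN)
    (hi.comp hψi.injOn hrN)
  refine ⟨m, hm, ?_⟩
  have : (ρ ∘ ψ) 0 = ρ x0 := by simp [hψ0]
  rw [this] at hball
  refine hball.trans ?_
  rw [Set.image_comp]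
  exact Set.image_mono (Set.image_subset_iff.2 hrN)

lemma preconnected_S2_diff (F : Set S2) (hF : F.Finite) (hne : F.Nonempty) :
    IsPreconnected Fᶜ := by
  obtain ⟨p, hp⟩ := hne
  set e := chartC p with he
  have htar : e.target = Set.univ := chartC_target p
  have hec : Continuous e.symm := by
    rw [← continuousOn_univ, ← htar]; exact e.continuousOn_symm
  have hrank : 1 < Module.rank ℝ ℂ := by rw [Complex.rank_real_complex]; norm_num
  have h1 : IsPreconnected ((e '' (F ∩ e.source))ᶜ) :=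
    (((hF.subset Set.inter_subset_left).image e).countable.isPathConnected_compl_of_one_lt_rank
      hrank).isConnected.isPreconnected
  have h2 : Fᶜ = e.symm '' ((e '' (F ∩ e.source))ᶜ) := by
    ext x
    constructor
    · intro hx
      have hxs : x ∈ e.source := by
        rw [he, chartC_source, Set.mem_compl_iff, Set.mem_singleton_iff]
        rintro rfl; exact hx hp
      refine ⟨e x, ?_, e.left_inv hxs⟩
      rintro ⟨y, ⟨hyF, hys⟩, hyx⟩
      exact hx (e.injOn hys hxs hyx ▸ hyF)
    · rintro ⟨z, hz, rfl⟩ hx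
      have hzt : z ∈ e.target := by simp [htar]
      exact hz ⟨e.symm z, ⟨hx, e.map_target hzt⟩, e.right_inv hzt⟩
  rw [h2]
  exact h1.image _ hec.continuousOn

lemma norm_sq_S2 (x : S2) : x.1 0 ^ 2 + x.1 1 ^ 2 + x.1 2 ^ 2 = 1 := by
  have h : ‖x.1‖ = 1 := by simp
  have := EuclideanSpace.norm_sq_eq x.1
  rw [h, Fin.sum_univ_three] at this
  simp only [Real.norm_eq_abs, sq_abs] at this
  linarith

/-- points over the disk -/
noncomputable def hemi (s : ℝ) (hs : s ^ 2 = 1) (z : closedBall (0 : ℂ) 1) : S2 :=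
  ⟨WithLp.toLp 2 ![z.1.re, z.1.im, s * √(1 - ‖z.1‖ ^ 2)], by
    have hz : ‖z.1‖ ≤ 1 := mem_closedBall_zero_iff.1 z.2
    rw [mem_sphere_zero_iff_norm, ← sq_eq_sq₀ (norm_nonneg _) zero_le_one,
      EuclideanSpace.norm_sq_eq, Fin.sum_univ_three]
    simp only [Real.norm_eq_abs, sq_abs]
    have h1 : (0 : ℝ) ≤ 1 - ‖z.1‖ ^ 2 := by nlinarith [norm_nonneg z.1]
    have h2 : ‖z.1‖ ^ 2 = z.1.re ^ 2 + z.1.im ^ 2 := by
      rw [Complex.sq_norm, Complex.normSq_apply]; ring
    simp only [Matrix.cons_val_zero, Matrix.cons_val_one, Matrix.cons_val]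
    rw [mul_pow, hs, Real.sq_sqrt h1, h2]; ring⟩

lemma continuous_hemi (s : ℝ) (hs : s ^ 2 = 1) : Continuous (hemi s hs) := by
  refine Continuous.subtype_mk ?_ _
  refine (PiLp.continuous_toLp 2 _).comp ?_
  refine continuous_pi fun i => ?_
  fin_cases i
  · exact Complex.continuous_re.comp continuous_subtype_val
  · exact Complex.continuous_im.comp continuous_subtype_val
  · show Continuous fun z : closedBall (0 : ℂ) 1 => s * √(1 - ‖z.1‖ ^ 2)
    fun_prop

/-- projection of the sphere to the disk -/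
noncomputable def proj (x : S2) : closedBall (0 : ℂ) 1 :=
  ⟨⟨x.1 0, x.1 1⟩, by
    rw [mem_closedBall_zero_iff, ← sq_le_one_iff₀ (norm_nonneg _), Complex.sq_norm,
      Complex.normSq_apply]
    have := norm_sq_S2 x
    nlinarith [sq_nonneg (x.1 2)]⟩

lemma continuous_proj : Continuous proj := by
  refine Continuous.subtype_mk ?_ _
  have h0 : Continuous fun x : S2 => x.1 0 := by fun_prop
  have h1 : Continuous fun x : S2 => x.1 1 := by fun_prop
  have : (fun x : S2 => (⟨x.1 0, x.1 1⟩ : ℂ)) = fun x : S2 => ((x.1 0 : ℝ) : ℂ) + ((x.1 1 : ℝ) : ℂ) * Complex.I := by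
    funext x
    apply Complex.ext <;> simp
  rw [this]
  fun_prop

lemma hemi_proj {s : ℝ} (hs : s ^ 2 = 1) (x : S2) (h : 0 ≤ s * x.1 2) : hemi s hs (proj x) = x := by
  apply Subtype.ext
  have h2 : ‖(proj x).1‖ ^ 2 = x.1 0 ^ 2 + x.1 1 ^ 2 := by
    rw [Complex.sq_norm, Complex.normSq_apply]; simp [proj]; ring
  have h3 : (1 : ℝ) - ‖(proj x).1‖ ^ 2 = (s * x.1 2) ^ 2 := by
    rw [h2, mul_pow, hs]; linarith [norm_sq_S2 x]
  ext i
  fin_cases i
  · rfl
  · rfl
  · show s * √(1 - ‖(proj x).1‖ ^ 2) = x.1 2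
    rw [h3, Real.sqrt_sq h, ← mul_assoc, ← sq, hs, one_mul]

/-- every nonvanishing continuous function on the two-sphere has a continuous logarithm -/
theorem hasLog_S2 {f : S2 → ℂ} (hf : Continuous f) (h0 : ∀ x, f x ≠ 0) : HasLog f := by
  have hcomp : CompactSpace (closedBall (0 : ℂ) 1) :=
    isCompact_iff_compactSpace.1 (isCompact_closedBall 0 1)
  have key : ∀ (s : ℝ) (hs : s ^ 2 = 1), HasLog (fun z => f (hemi s hs z)) := by
    intro s hs
    have hmul : ∀ (t : unitInterval) (z : closedBall (0 : ℂ) 1),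
        ((t : ℝ) : ℂ) * z.1 ∈ closedBall (0 : ℂ) 1 := by
      intro t z
      have hz : ‖z.1‖ ≤ 1 := mem_closedBall_zero_iff.1 z.2
      rw [mem_closedBall_zero_iff, norm_mul, Complex.norm_real, Real.norm_of_nonneg t.2.1]
      exact mul_le_one₀ t.2.2 (norm_nonneg _) hz
    let H : unitInterval × closedBall (0 : ℂ) 1 → ℂ :=
      fun p => f (hemi s hs ⟨((p.1 : ℝ) : ℂ) * p.2.1, hmul p.1 p.2⟩)
    have hHc : Continuous H := by
      refine hf.comp ((continuous_hemi s hs).comp ?_)
      exact Continuous.subtype_mk (by fun_prop) _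
    have hl0 : HasLog (fun z => H (0, z)) := by
      have : (fun z => H (0, z)) = fun _ => f (hemi s hs ⟨0, by simp⟩) := by
        funext z
        simp only [H]
        congr 2
        simp
      rw [this]
      exact hasLog_const (h0 _)
    have h1 := hasLog_homotopy hHc (fun p => h0 _) hl0
    have : (fun z => H (1, z)) = fun z => f (hemi s hs z) := by
      funext z
      simp only [H]
      congr 2
      apply Subtype.ext
      simp
    rw [this] at h1
    exact h1
  obtain ⟨g1, hg1, hfg1⟩ := key 1 (by norm_num)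
  obtain ⟨g2, hg2, hfg2⟩ := key (-1) (by norm_num)
  have hrank : 1 < Module.rank ℝ ℂ := by rw [Complex.rank_real_complex]; norm_num
  have hconn : PreconnectedSpace (sphere (0 : ℂ) 1) :=
    isPreconnected_iff_preconnectedSpace.1 (isPreconnected_sphere hrank 0 1)
  let inc : sphere (0 : ℂ) 1 → closedBall (0 : ℂ) 1 := fun z => ⟨z.1, sphere_subset_closedBall z.2⟩
  have hinc : Continuous inc := Continuous.subtype_mk continuous_subtype_val _
  have heq : ∀ z : sphere (0 : ℂ) 1, hemi 1 (by norm_num) (inc z) = hemi (-1) (by norm_num) (inc z) := by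
    intro z
    apply Subtype.ext
    have hz : ‖z.1‖ = 1 := by simp
    simp only [hemi, inc, hz]
    norm_num
  have hexp : ∀ z : sphere (0 : ℂ) 1, Complex.exp (g1 (inc z) - g2 (inc z)) = 1 := by
    intro z
    have e1 : f (hemi 1 (by norm_num) (inc z)) = Complex.exp (g1 (inc z)) := hfg1 (inc z)
    have e2 : f (hemi (-1) (by norm_num) (inc z)) = Complex.exp (g2 (inc z)) := hfg2 (inc z)
    rw [Complex.exp_sub, ← e1, ← e2, heq z, div_self (h0 _)]
  have hgc : Continuous (fun z : sphere (0 : ℂ) 1 => g1 (inc z) - g2 (inc z)) :=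
    (hg1.comp hinc).sub (hg2.comp hinc)
  have hconst := const_of_exp_const hgc hexp
  let z1 : sphere (0 : ℂ) 1 := ⟨1, by simp⟩
  set c := g1 (inc z1) - g2 (inc z1) with hc
  have hcexp : Complex.exp c = 1 := hexp z1
  refine ⟨fun x => if 0 ≤ x.1 2 then g1 (proj x) else g2 (proj x) + c, ?_, ?_⟩
  · refine Continuous.if_le (hg1.comp continuous_proj)
      ((hg2.comp continuous_proj).add continuous_const) continuous_const (by fun_prop) ?_
    intro x hx
    have hn : ‖(proj x).1‖ = 1 := by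
      rw [← sq_eq_sq₀ (norm_nonneg _) zero_le_one, Complex.sq_norm, Complex.normSq_apply]
      have := norm_sq_S2 x
      rw [← hx] at this
      simp only [proj]
      linarith
    have hz : (⟨(proj x).1, by simpa using hn⟩ : sphere (0 : ℂ) 1) = ⟨(proj x).1, by simpa using hn⟩ := rfl
    have h1 := hconst ⟨(proj x).1, by simpa using hn⟩ z1
    have h2 : inc ⟨(proj x).1, by simpa using hn⟩ = proj x := rfl
    rw [h2, ← hc] at h1
    show g1 (proj x) = g2 (proj x) + c
    rw [← h1]; ring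
  · intro x
    by_cases hx : 0 ≤ x.1 2
    · have e1 : f (hemi 1 (by norm_num) (proj x)) = Complex.exp (g1 (proj x)) := hfg1 (proj x)
      show f x = Complex.exp (if 0 ≤ x.1 2 then g1 (proj x) else g2 (proj x) + c)
      rw [if_pos hx, ← e1, hemi_proj (by norm_num) x (by linarith)]
    · have e2 : f (hemi (-1) (by norm_num) (proj x)) = Complex.exp (g2 (proj x)) := hfg2 (proj x)
      show f x = Complex.exp (if 0 ≤ x.1 2 then g1 (proj x) else g2 (proj x) + c)
      rw [if_neg hx, Complex.exp_add, hcexp, mul_one, ← e2, hemi_proj (by norm_num) x (by linarith)]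

end Pool.Agent.Helper486.Topo
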