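import Pool.Agent.Helper486.Geom
import Pool.Agent.Helper486.Topo2

namespace Pool.Agent.Helper486.Ham

open Metric Set Finset Topology Topo

lemma iod_sub {E : Type*} [TopologicalSpace E] {X : Set E} (h : X ≃ₜ S2) {φ : ℂ → E} {r : ℝ}
    (hr : 0 < r) (hc : ContinuousOn φ (closedBall 0 r)) (hi : InjOn φ (closedBall 0 r))
    (hX : MapsTo φ (closedBall 0 r) X) :
    ∃ O : Set E, IsOpen O ∧ φ 0 ∈ O ∧ O ∩ X ⊆ φ '' closedBall 0 r := by
  classical
  have h0 : (0 : ℂ) ∈ closedBall (0 : ℂ) r := mem_closedBall_self hr.le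
  let φ' : ℂ → X := fun z => if hz : φ z ∈ X then ⟨φ z, hz⟩ else ⟨φ 0, hX h0⟩
  have hv : ∀ z ∈ closedBall (0 : ℂ) r, (φ' z : E) = φ z := by
    intro z hz
    simp only [φ', dif_pos (hX hz)]
  have hc' : ContinuousOn φ' (closedBall 0 r) := by
    rw [Topology.IsInducing.subtypeVal.continuousOn_iff]
    exact hc.congr hv
  have hi' : InjOn φ' (closedBall 0 r) := by
    intro a ha b hb hab
    apply hi ha hb
    rw [← hv a ha, ← hv b hb, hab]
  obtain ⟨U, hU, h0U, hUs⟩ := iod_S2 h hr hc' hi'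
  obtain ⟨O, hO, rfl⟩ := isOpen_induced_iff.1 hU
  refine ⟨O, hO, ?_, ?_⟩
  · have : (φ' 0 : E) ∈ O := h0U
    rwa [hv 0 h0] at this
  · rintro x ⟨hxO, hxX⟩
    obtain ⟨z, hz, hzx⟩ := hUs (show (⟨x, hxX⟩ : X) ∈ Subtype.val ⁻¹' O from hxO)
    exact ⟨z, hz, by rw [← hv z hz, hzx]⟩

lemma iod_sub' {E : Type*} [TopologicalSpace E] {X : Set E} (h : X ≃ₜ S2) {x0 : E} (hx0 : x0 ∈ X)
    {O : Set E} (hO : IsOpen O) (hx0O : x0 ∈ O) {ρ : E → ℂ} (hc : Continuous ρ)
    (hi : InjOn ρ (O ∩ X)) : ∃ m > 0, ball (ρ x0) m ⊆ ρ '' (O ∩ X) := by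
  obtain ⟨m, hm, hb⟩ := iod_S2' h (x0 := ⟨x0, hx0⟩) (N := Subtype.val ⁻¹' O)
    (ρ := fun x => ρ x.1) ((hO.preimage continuous_subtype_val).mem_nhds hx0O)
    (hc.comp continuous_subtype_val).continuousOn
    (fun a ha b hb hab => Subtype.ext (hi ⟨ha, a.2⟩ ⟨hb, b.2⟩ hab))
  refine ⟨m, hm, fun y hy => ?_⟩
  obtain ⟨x, hx, rfl⟩ := hb hy
  exact ⟨x.1, ⟨hx, x.2⟩, rfl⟩

namespace SData

variable {ι κ : Type} [Fintype ι] [DecidableEq ι] [Fintype κ] [DecidableEq κ] (D : SData ι κ)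

lemma isClosed_Q' (S : Finset κ) : IsClosed (D.Q S) := by
  have : D.Q S = D.P ∩ ⋂ f ∈ S, {x | D.l f x = D.c} := by
    ext x; simp [Q]
  rw [this]
  refine ((Set.finite_range D.v).isClosed_convexHull ℝ).inter (isClosed_biInter fun f _ => ?_)
  exact isClosed_eq (D.l f).continuous continuous_const

lemma convex_Q (S : Finset κ) : Convex ℝ (D.Q S) := by
  intro x hx y hy a b ha hb hab
  refine ⟨convex_convexHull ℝ _ hx.1 hy.1 ha hb hab, fun f hf => ?_⟩
  rw [map_add, map_smul, map_smul, hx.2 f hf, hy.2 f hf, ← add_smul, hab, one_smul]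

/-- points near the vertex `i` -/
noncomputable def pt (i : ι) (a : D.N i → ℝ) : Sp 4 := D.v i + ∑ f, a f • D.e i f

lemma l_pt (i : ι) (a : D.N i → ℝ) (g : D.N i) :
    D.l g (D.pt i a) = D.c + a g * D.l g (D.e i g) := by
  rw [pt, map_add, (D.eq_iff _ _).2 g.2, map_sum, Finset.sum_eq_single g]
  · rw [map_smul, smul_eq_mul]
  · intro b _ hb
    rw [map_smul, D.l_e_ne i b g (Ne.symm hb), smul_zero]
  · intro h; exact absurd (Finset.mem_univ _) h

lemma pt_inj (i : ι) {a b : D.N i → ℝ} (h : D.pt i a = D.pt i b) : a = b := by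
  funext g
  have h1 := congrArg (D.l g) h
  rw [l_pt, l_pt] at h1
  have h2 := D.l_e_self i g
  have h3 : (a g - b g) * D.l g (D.e i g) = 0 := by linarith
  rcases mul_eq_zero.1 h3 with h4 | h4
  · linarith
  · exact absurd h4 (ne_of_lt h2)

lemma pt_mem_P (i : ι) (a : D.N i → ℝ) (h0 : ∀ f, 0 ≤ a f) (h1 : ∑ f, a f ≤ 1) :
    D.pt i a ∈ D.P := by
  have h2 : D.pt i a = (1 - ∑ f, a f) • D.v i + ∑ f : D.N i, a f • D.v (D.w i f f.2) := by
    rw [pt]
    simp only [e, smul_sub, Finset.sum_sub_distrib]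
    rw [sub_smul, one_smul, Finset.sum_smul]
    abel
  rw [h2]
  by_cases hs : ∑ f, a f = 0
  · have h3 : ∀ f, a f = 0 := fun f =>
      (Finset.sum_eq_zero_iff_of_nonneg (fun f _ => h0 f)).1 hs f (Finset.mem_univ f)
    simp only [h3, Finset.sum_const_zero, sub_zero, one_smul, zero_smul, add_zero]
    exact D.v_mem_P i
  · have hspos : 0 < ∑ f, a f := lt_of_le_of_ne (Finset.sum_nonneg fun f _ => h0 f) (Ne.symm hs)
    have h4 : (∑ f, a f)⁻¹ • ∑ f : D.N i, a f • D.v (D.w i f f.2) ∈ D.P := by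
      rw [Finset.smul_sum]
      simp only [smul_smul]
      refine (convex_convexHull ℝ _).sum_mem (fun f _ => mul_nonneg (inv_nonneg.2 hspos.le) (h0 f))
        ?_ (fun f _ => D.v_mem_P _)
      rw [← Finset.mul_sum, inv_mul_cancel₀ hs]
    have h5 := convex_convexHull ℝ (Set.range D.v) (D.v_mem_P i) h4 (sub_nonneg.2 h1) hspos.le
      (by ring)
    rwa [smul_smul, mul_inv_cancel₀ hs, one_smul] at h5

lemma pt_mem_Q (i : ι) (S : Finset κ) (hS : S ⊆ D.N i) (a : D.N i → ℝ) (h0 : ∀ f, 0 ≤ a f)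
    (h1 : ∑ f, a f ≤ 1) (h2 : ∀ f : D.N i, f.1 ∈ S → a f = 0) : D.pt i a ∈ D.Q S := by
  refine ⟨D.pt_mem_P i a h0 h1, fun f hf => ?_⟩
  have := D.l_pt i a ⟨f, hS hf⟩
  rw [h2 ⟨f, hS hf⟩ hf, zero_mul, add_zero] at this
  exact this

lemma continuous_pt (i : ι) {Y : Type*} [TopologicalSpace Y] {A : Y → D.N i → ℝ}
    (hA : ∀ g, Continuous fun y => A y g) : Continuous fun y => D.pt i (A y) := by
  unfold pt
  refine continuous_const.add (continuous_finsetSum _ fun f _ => ?_)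
  exact (hA f).smul continuous_const

/-- no flat disk through a point with another direction -/
lemma no_disk {X : Set (Sp 4)} (h : X ≃ₜ S2) (i : ι) (A : ℂ → D.N i → ℝ)
    (hA : ∀ g, Continuous fun z => A z g) {r : ℝ} (hr : 0 < r)
    (hX : ∀ z ∈ closedBall (0 : ℂ) r, D.pt i (A z) ∈ X)
    (hinj : InjOn A (closedBall (0 : ℂ) r)) (g : D.N i) (hg : ∀ z, A z g = A 0 g) {t0 : ℝ}
    (ht0 : 0 < t0)
    (hX2 : ∀ t, 0 ≤ t → t ≤ t0 → D.pt i (fun g' => A 0 g' + if g' = g then t else 0) ∈ X) :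
    False := by
  obtain ⟨O, hO, h0O, hsub⟩ := iod_sub h (φ := fun z => D.pt i (A z)) hr
    (D.continuous_pt i hA).continuousOn (fun a ha b hb hab => hinj ha hb (D.pt_inj i hab)) hX
  have hc : Continuous fun t : ℝ => D.pt i (fun g' => A 0 g' + if g' = g then t else 0) := by
    refine D.continuous_pt i (A := fun t g' => A 0 g' + if g' = g then t else 0) (fun g' => ?_)
    by_cases hgg : g' = g
    · simp only [hgg, if_true]; fun_prop
    · simp only [hgg, if_false]; fun_prop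
  have h00 : (fun g' => A 0 g' + if g' = g then (0 : ℝ) else 0) = A 0 := by
    funext g'; simp
  have hmem : (fun t : ℝ => D.pt i (fun g' => A 0 g' + if g' = g then t else 0)) ⁻¹' O ∈ 𝓝 (0 : ℝ) := by
    apply hc.continuousAt.preimage_mem_nhds
    rw [h00]
    exact hO.mem_nhds h0O
  obtain ⟨ε, hε, hball⟩ := Metric.mem_nhds_iff.1 hmem
  set t := min t0 (ε / 2) with ht
  have htpos : 0 < t := lt_min ht0 (by linarith)
  have htε : t < ε := lt_of_le_of_lt (min_le_right _ _) (by linarith)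
  have h1 : D.pt i (fun g' => A 0 g' + if g' = g then t else 0) ∈ O := by
    refine hball ?_
    rw [mem_ball_zero_iff, Real.norm_of_nonneg htpos.le]
    exact htε
  obtain ⟨z, hz, hzx⟩ := hsub ⟨h1, hX2 t htpos.le (min_le_left _ _)⟩
  have h2 := congrFun (D.pt_inj i hzx) g
  simp only [if_true] at h2
  rw [hg z] at h2
  linarith

/-- the combinatorial data of a face in `K` -/
def KM (K : Set (Set (Sp 4))) (S : Finset κ) : Prop := (D.J S).Nonempty ∧ D.Q S ∈ K

/-- `K` is a subcomplex of the boundary complex whose space is a two-sphere -/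
structure IsSph (K : Set (Set (Sp 4))) : Prop where
  sub : ∀ B ∈ K, IsFace D.P B ∧ B ≠ D.P
  closed : ∀ B ∈ K, ∀ C, IsFace B C → C ∈ K
  top : Nonempty ((⋃₀ K : Set (Sp 4)) ≃ₜ S2)
  vert : ∀ i, {D.v i} ∈ K

lemma isFace_of_sub {S : Finset κ} {B : Set (Sp 4)} (hB : IsFace (D.Q S) B) {S' : Finset κ}
    (hS : S ⊆ S') (hBS : B ⊆ D.Q S') : IsFace (D.Q S') B := by
  refine ⟨hB.1, fun h => ?_⟩
  obtain ⟨l, hl⟩ := hB.2 h
  refine ⟨l, ?_⟩
  ext x
  constructor
  · intro hx
    refine ⟨hBS hx, fun y hy => ?_⟩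
    rw [hl] at hx
    exact hx.2 y (D.Q_mono hS hy)
  · rintro ⟨hx1, hx2⟩
    obtain ⟨z, hz⟩ := h
    have hz' := hz
    rw [hl] at hz' ⊢
    refine ⟨D.Q_mono hS hx1, fun y hy => ?_⟩
    exact (hz'.2 y hy).trans (hx2 z (hBS hz))

lemma face_form : ∀ (n : ℕ) (S : Finset κ), (D.J S).Nonempty → 4 - S.card = n →
    ∀ B, IsFace (D.Q S) B → ∃ S', S ⊆ S' ∧ (D.J S').Nonempty ∧ B = D.Q S' := by
  intro n
  induction n with
  | zero =>
    intro S hJ hn B hB
    by_cases hne : B = D.Q S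
    · exact ⟨S, Finset.Subset.refl _, hJ, hne⟩
    · obtain ⟨g, hg, hgJ, hBg⟩ := D.face_sub hB hne
      have := D.card_le_of_J hgJ
      rw [Finset.card_insert_of_notMem hg] at this
      omega
  | succ n ih =>
    intro S hJ hn B hB
    by_cases hne : B = D.Q S
    · exact ⟨S, Finset.Subset.refl _, hJ, hne⟩
    · obtain ⟨g, hg, hgJ, hBg⟩ := D.face_sub hB hne
      obtain ⟨S', hS', hJ', hBS'⟩ := ih (insert g S) hgJ
        (by rw [Finset.card_insert_of_notMem hg]; omega) B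
        (D.isFace_of_sub hB (Finset.subset_insert _ _) hBg)
      exact ⟨S', (Finset.subset_insert _ _).trans hS', hJ', hBS'⟩

variable {D}
variable {K : Set (Set (Sp 4))}

lemma J_empty : (D.J ∅).Nonempty := by
  obtain ⟨i⟩ := D.ne
  exact ⟨i, D.mem_J.2 (Finset.empty_subset _)⟩

lemma IsSph.form (hK : D.IsSph K) {B : Set (Sp 4)} (hB : B ∈ K) : ∃ S, D.KM K S ∧ B = D.Q S := by
  have h := (hK.sub B hB).1
  rw [← D.Q_empty] at h
  obtain ⟨S, _, hJ, rfl⟩ := D.face_form _ ∅ J_empty rfl B h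
  exact ⟨S, ⟨hJ, hB⟩, rfl⟩

lemma IsSph.sup (hK : D.IsSph K) {S S' : Finset κ} (h : D.KM K S) (hS : S ⊆ S')
    (hJ : (D.J S').Nonempty) : D.KM K S' :=
  ⟨hJ, hK.closed _ h.2 _ (D.exposed_Q hS hJ)⟩

lemma IsSph.pos (hK : D.IsSph K) {S : Finset κ} (h : D.KM K S) : S.Nonempty := by
  rw [Finset.nonempty_iff_ne_empty]
  rintro rfl
  exact (hK.sub _ h.2).2 D.Q_empty

lemma IsSph.mem_iff (hK : D.IsSph K) {x : Sp 4} : x ∈ ⋃₀ K ↔ ∃ S, D.KM K S ∧ x ∈ D.Q S := by
  constructor
  · rintro ⟨B, hB, hx⟩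
    obtain ⟨S, hS, rfl⟩ := hK.form hB
    exact ⟨S, hS, hx⟩
  · rintro ⟨S, hS, hx⟩
    exact ⟨_, hS.2, hx⟩

lemma exists_enum {i : ι} {f : κ} (hf : f ∈ D.N i) : ∃ a b c : D.N i, a ≠ b ∧ a ≠ c ∧ b ≠ c ∧
    a.1 ≠ f ∧ b.1 ≠ f ∧ c.1 ≠ f := by
  have h : ((D.N i).erase f).card = 3 := by rw [Finset.card_erase_of_mem hf, D.card_N]
  obtain ⟨a, b, c, hab, hac, hbc, heq⟩ := Finset.card_eq_three.1 h
  have ha : a ∈ (D.N i).erase f := by rw [heq]; simp
  have hb : b ∈ (D.N i).erase f := by rw [heq]; simp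
  have hc : c ∈ (D.N i).erase f := by rw [heq]; simp
  rw [Finset.mem_erase] at ha hb hc
  refine ⟨⟨a, ha.2⟩, ⟨b, hb.2⟩, ⟨c, hc.2⟩, ?_, ?_, ?_, ha.1, hb.1, hc.1⟩
  · exact fun h => hab (congrArg Subtype.val h)
  · exact fun h => hac (congrArg Subtype.val h)
  · exact fun h => hbc (congrArg Subtype.val h)

/-- no three-dimensional faces -/
lemma IsSph.two_le (hK : D.IsSph K) {S : Finset κ} (h : D.KM K S) : 2 ≤ S.card := by
  by_contra hcon
  have h1 := (hK.pos h).card_pos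
  have h2 : S.card = 1 := by omega
  obtain ⟨f, rfl⟩ := Finset.card_eq_one.1 h2
  obtain ⟨⟨i, hi⟩, hQ⟩ := h
  have hfi : f ∈ D.N i := D.mem_J.1 hi (Finset.mem_singleton_self f)
  obtain ⟨a, b, c, hab, hac, hbc, haf, hbf, hcf⟩ := exists_enum hfi
  obtain ⟨h⟩ := hK.top
  have hsub : D.Q {f} ⊆ ⋃₀ K := fun x hx => ⟨_, hQ, hx⟩
  let A : ℂ → D.N i → ℝ := fun z g => (if g = a then 1 / 4 + z.re else 0) +
    (if g = b then 1 / 4 + z.im else 0) + (if g = c then 1 / 4 else 0)
  have hbd : ∀ z ∈ closedBall (0 : ℂ) (1 / 16), |z.re| ≤ 1 / 16 ∧ |z.im| ≤ 1 / 16 := by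
    intro z hz
    rw [mem_closedBall_zero_iff] at hz
    exact ⟨(Complex.abs_re_le_norm z).trans hz, (Complex.abs_im_le_norm z).trans hz⟩
  have key : ∀ z ∈ closedBall (0 : ℂ) (1 / 16), ∀ t, 0 ≤ t → t ≤ 1 / 16 →
      D.pt i (fun g' => A z g' + if g' = c then t else 0) ∈ ⋃₀ K := by
    intro z hz t ht0 ht1
    obtain ⟨h1, h2⟩ := hbd z hz
    rw [abs_le] at h1 h2
    refine hsub (D.pt_mem_Q i {f} (Finset.singleton_subset_iff.2 hfi) _ (fun g => ?_) ?_ ?_)
    · simp only [A]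
      split_ifs <;> linarith
    · simp only [A, Finset.sum_add_distrib, Finset.sum_ite_eq', Finset.mem_univ, if_true]
      linarith
    · intro g hg
      rw [Finset.mem_singleton] at hg
      have e1 : g ≠ a := fun h => haf (by rw [← h, hg])
      have e2 : g ≠ b := fun h => hbf (by rw [← h, hg])
      have e3 : g ≠ c := fun h => hcf (by rw [← h, hg])
      simp [A, e1, e2, e3]
  refine D.no_disk h i A (fun g => ?_) (r := 1 / 16) (by norm_num) (fun z hz => ?_) ?_ c
    (fun z => ?_) (t0 := 1 / 16) (by norm_num) (fun t ht0 ht1 => key 0 (by simp) t ht0 ht1)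
  · simp only [A]
    split_ifs <;> fun_prop
  · have := key z hz 0 le_rfl (by norm_num)
    simpa using this
  · intro z hz z' hz' hzz
    have e1 := congrFun hzz a
    have e2 := congrFun hzz b
    simp only [A, hab, hac, hbc, Ne.symm hab, if_true, if_false] at e1 e2
    apply Complex.ext <;> linarith
  · simp only [A, Ne.symm hac, Ne.symm hbc, if_true, if_false]

/-- at most two pentagons at an edge -/
lemma IsSph.not_three (hK : D.IsSph K) {S : Finset κ} (h : (D.J S).Nonempty)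
    (hc : S.card = 3) : ¬ ∀ f ∈ S, D.KM K (S.erase f) := by
  intro hall
  obtain ⟨i, hi⟩ := h
  have hSi := D.mem_J.1 hi
  obtain ⟨f', hf'⟩ : ∃ f', f' ∈ D.N i \ S := by
    have : (D.N i \ S).card = 1 := by rw [Finset.card_sdiff_of_subset hSi, D.card_N, hc]
    obtain ⟨f', hf'⟩ := Finset.card_eq_one.1 this
    exact ⟨f', by rw [hf']; exact Finset.mem_singleton_self _⟩
  rw [Finset.mem_sdiff] at hf'
  obtain ⟨a', b', c', hab', hac', hbc', heq⟩ := Finset.card_eq_three.1 hc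
  have haS : a' ∈ S := by rw [heq]; simp
  have hbS : b' ∈ S := by rw [heq]; simp
  have hcS : c' ∈ S := by rw [heq]; simp
  set a : D.N i := ⟨a', hSi haS⟩ with ha
  set b : D.N i := ⟨b', hSi hbS⟩ with hb
  set c : D.N i := ⟨c', hSi hcS⟩ with hcdef
  set g0 : D.N i := ⟨f', hf'.1⟩ with hg0
  have hab : a ≠ b := fun h => hab' (congrArg Subtype.val h)
  have hac : a ≠ c := fun h => hac' (congrArg Subtype.val h)
  have hbc : b ≠ c := fun h => hbc' (congrArg Subtype.val h)
  have h0a : g0 ≠ a := fun h => hf'.2 (by rw [show f' = a' from congrArg Subtype.val h]; exact haS)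
  have h0b : g0 ≠ b := fun h => hf'.2 (by rw [show f' = b' from congrArg Subtype.val h]; exact hbS)
  have h0c : g0 ≠ c := fun h => hf'.2 (by rw [show f' = c' from congrArg Subtype.val h]; exact hcS)
  obtain ⟨h⟩ := hK.top
  have hsub : ∀ f ∈ S, D.Q (S.erase f) ⊆ ⋃₀ K := fun f hf x hx => ⟨_, (hall f hf).2, hx⟩
  let A : ℂ → D.N i → ℝ := fun z g => (if g = g0 then 1 / 2 + z.re else 0) +
    (if g = a then max z.im 0 else 0) + (if g = b then max (-z.im) 0 else 0)
  have hbd : ∀ z ∈ closedBall (0 : ℂ) (1 / 4), |z.re| ≤ 1 / 4 ∧ |z.im| ≤ 1 / 4 := by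
    intro z hz
    rw [mem_closedBall_zero_iff] at hz
    exact ⟨(Complex.abs_re_le_norm z).trans hz, (Complex.abs_im_le_norm z).trans hz⟩
  refine D.no_disk h i A (fun g => ?_) (r := 1 / 4) (by norm_num) (fun z hz => ?_) ?_ c
    (fun z => ?_) (t0 := 1 / 4) (by norm_num) (fun t ht0 ht1 => ?_)
  · simp only [A]
    split_ifs <;> fun_prop
  · obtain ⟨h1, h2⟩ := hbd z hz
    rw [abs_le] at h1 h2
    rcases le_total 0 z.im with hz0 | hz0
    · have m1 : max z.im 0 = z.im := max_eq_left hz0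
      have m2 : max (-z.im) 0 = 0 := max_eq_right (by linarith)
      refine hsub a' haS (D.pt_mem_Q i _ ((Finset.erase_subset _ _).trans hSi) _ (fun g => ?_) ?_ ?_)
      · simp only [A, m1, m2]
        split_ifs <;> linarith
      · simp only [A, Finset.sum_add_distrib, Finset.sum_ite_eq', Finset.mem_univ, if_true, m1, m2]
        linarith
      · intro g hg
        rw [Finset.mem_erase] at hg
        have e1 : g ≠ a := fun h => hg.1 (by rw [h])
        have e2 : g ≠ g0 := fun h => hf'.2 (by rw [h] at hg; exact hg.2)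
        simp [A, e1, e2, m2]
    · have m1 : max z.im 0 = 0 := max_eq_right hz0
      have m2 : max (-z.im) 0 = -z.im := max_eq_left (by linarith)
      refine hsub b' hbS (D.pt_mem_Q i _ ((Finset.erase_subset _ _).trans hSi) _ (fun g => ?_) ?_ ?_)
      · simp only [A, m1, m2]
        split_ifs <;> linarith
      · simp only [A, Finset.sum_add_distrib, Finset.sum_ite_eq', Finset.mem_univ, if_true, m1, m2]
        linarith
      · intro g hg
        rw [Finset.mem_erase] at hg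
        have e1 : g ≠ b := fun h => hg.1 (by rw [h])
        have e2 : g ≠ g0 := fun h => hf'.2 (by rw [h] at hg; exact hg.2)
        simp [A, e1, e2, m1]
  · intro z hz z' hz' hzz
    have e0 := congrFun hzz g0
    have e1 := congrFun hzz a
    have e2 := congrFun hzz b
    simp only [A, hab, h0a, h0b, Ne.symm h0a, Ne.symm h0b, Ne.symm hab, if_true, if_false] at e0 e1 e2
    apply Complex.ext
    · linarith
    · rcases le_total 0 z.im with h1 | h1 <;> rcases le_total 0 z'.im with h2 | h2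
      · rw [max_eq_left h1, max_eq_left h2] at e1; linarith
      · rw [max_eq_left h1, max_eq_right h2] at e1
        rw [max_eq_right (by linarith : -z.im ≤ 0), max_eq_left (by linarith : 0 ≤ -z'.im)] at e2
        linarith
      · rw [max_eq_right h1, max_eq_left h2] at e1
        rw [max_eq_left (by linarith : 0 ≤ -z.im), max_eq_right (by linarith : -z'.im ≤ 0)] at e2
        linarith
      · rw [max_eq_left (by linarith : 0 ≤ -z.im), max_eq_left (by linarith : 0 ≤ -z'.im)] at e2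
        linarith
  · simp only [A, Ne.symm h0c, Ne.symm hac, Ne.symm hbc, if_false]
  · refine hsub c' hcS (D.pt_mem_Q i _ ((Finset.erase_subset _ _).trans hSi) _ (fun g => ?_) ?_ ?_)
    · simp only [A, Complex.zero_re, Complex.zero_im, neg_zero, max_self]
      split_ifs <;> linarith
    · simp only [A, Complex.zero_re, Complex.zero_im, neg_zero, max_self,
        Finset.sum_add_distrib, Finset.sum_ite_eq', Finset.mem_univ, if_true]
      linarith
    · intro g hg
      rw [Finset.mem_erase] at hg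
      have e1 : g ≠ c := fun h => hg.1 (by rw [h])
      have e2 : g ≠ g0 := fun h => hf'.2 (by rw [h] at hg; exact hg.2)
      simp [A, e1, e2]

/-- points of `K` outside the faces of `K` not containing `x` -/
lemma IsSph.exists_open (hK : D.IsSph K) (x : Sp 4) : ∃ O : Set (Sp 4), IsOpen O ∧ x ∈ O ∧
    ∀ y ∈ O ∩ ⋃₀ K, ∃ S, D.KM K S ∧ x ∈ D.Q S ∧ y ∈ D.Q S := by
  classical
  refine ⟨(⋃ S ∈ {S : Finset κ | x ∉ D.Q S}, D.Q S)ᶜ, ?_, ?_, ?_⟩
  · rw [isOpen_compl_iff]
    exact Set.Finite.isClosed_biUnion (Set.toFinite _) (fun S _ => D.isClosed_Q' S)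
  · simp only [Set.mem_compl_iff, Set.mem_iUnion, Set.mem_ofPred_eq, not_exists]
    exact fun _ hS => hS
  · rintro y ⟨hy1, hy2⟩
    obtain ⟨S, hS, hyS⟩ := hK.mem_iff.1 hy2
    refine ⟨S, hS, ?_, hyS⟩
    by_contra hx
    apply hy1
    simp only [Set.mem_iUnion, Set.mem_ofPred_eq]
    exact ⟨S, hx, hyS⟩

lemma Q_inj_at (i : ι) {S : Finset κ} (hS : S ⊆ D.N i) {x y : Sp 4} (hx : x ∈ D.Q S)
    (hy : y ∈ D.Q S) (h : ∀ f ∈ D.N i, f ∉ S → D.l f x = D.l f y) : x = y := by
  have h1 : ∀ f : D.N i, D.l f x = D.l f y := by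
    intro f
    by_cases hf : f.1 ∈ S
    · rw [hx.2 f hf, hy.2 f hf]
    · exact h f f.2 hf
  have h2 := D.coord i x
  have h3 := D.coord i y
  have h4 : x - D.v i = y - D.v i := by
    rw [h2, h3]
    refine Finset.sum_congr rfl fun f _ => ?_
    rw [map_sub, map_sub, h1 f]
  exact sub_left_injective h4

/-- at least two pentagons at an edge -/
lemma IsSph.exists_other (hK : D.IsSph K) {S : Finset κ} (h : D.KM K S)
    (hc : S.card = 3) {f : κ} (hf : f ∈ S) : ∃ g ∈ S, g ≠ f ∧ D.KM K (S.erase g) := by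
  by_contra hcon
  push Not at hcon
  obtain ⟨⟨i, hi⟩, hQ⟩ := h
  have hSi := D.mem_J.1 hi
  obtain ⟨f', hf'⟩ : ∃ f', D.N i \ S = {f'} := by
    have : (D.N i \ S).card = 1 := by rw [Finset.card_sdiff_of_subset hSi, D.card_N, hc]
    exact Finset.card_eq_one.1 this
  have hf'm : f' ∈ D.N i \ S := by rw [hf']; exact Finset.mem_singleton_self _
  rw [Finset.mem_sdiff] at hf'm
  obtain ⟨h⟩ := hK.top
  set g0 : D.N i := ⟨f', hf'm.1⟩ with hg0
  let a : D.N i → ℝ := fun g => if g = g0 then 1 / 2 else 0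
  set x0 := D.pt i a with hx0
  have ha0 : ∀ g, 0 ≤ a g := fun g => by simp only [a]; split_ifs <;> norm_num
  have ha1 : ∑ g, a g ≤ 1 := by
    simp only [a, Finset.sum_ite_eq', Finset.mem_univ, if_true]; norm_num
  have hx0S : x0 ∈ D.Q S := by
    refine D.pt_mem_Q i S hSi a ha0 ha1 (fun g hg => ?_)
    have : g ≠ g0 := fun h => hf'm.2 (by rw [h] at hg; exact hg)
    simp [a, this]
  -- facets through x0
  have hthr : ∀ g, D.l g x0 = D.c → g ∈ S := by
    intro g hg
    obtain ⟨w, hw0, hw1, hwx, hw⟩ := D.mem_Q_weights (S := insert g S) (x := x0)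
      ⟨hx0S.1, fun f hf => by
        rcases Finset.mem_insert.1 hf with rfl | hf
        · exact hg
        · exact hx0S.2 f hf⟩
    have hgi : g ∈ D.N i ∨ g ∉ D.N i := em _
    rcases hgi with hgi | hgi
    · by_contra hgS
      have : g ∈ D.N i \ S := Finset.mem_sdiff.2 ⟨hgi, hgS⟩
      rw [hf', Finset.mem_singleton] at this
      subst this
      have h1 := D.l_pt i a g0
      have h2 := D.l_e_self i g0
      simp only [a, if_true] at h1
      have h3 : D.l g x0 = D.c + 1 / 2 * D.l g (D.e i g0) := h1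
      have h4 : D.l g (D.e i g0) < 0 := h2
      linarith
    · exfalso
      have h1 : D.l g (D.v i) < D.c :=
        lt_of_le_of_ne (D.le g i) (fun h => hgi ((D.eq_iff g i).1 h))
      have h2 : D.l g (D.v (D.w i f' hf'm.1)) ≤ D.c := D.le _ _
      have h3 : x0 = D.v i + (1 / 2 : ℝ) • D.e i g0 := by
        rw [hx0, pt, Finset.sum_eq_single g0]
        · simp only [a, if_true]
        · intro b _ hb
          simp only [a, hb, if_false, zero_smul]
        · intro h; exact absurd (Finset.mem_univ _) h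
      have h4 : D.e i g0 = D.v (D.w i f' hf'm.1) - D.v i := rfl
      rw [h3, map_add, map_smul, h4, map_sub, smul_eq_mul] at hg
      linarith
  have hx0K : x0 ∈ ⋃₀ K := ⟨_, hQ, hx0S⟩
  obtain ⟨O, hO, hxO, hOs⟩ := hK.exists_open x0
  have hsub : ∀ y ∈ O ∩ ⋃₀ K, y ∈ D.Q (S.erase f) := by
    intro y hy
    obtain ⟨S', hS', hxS', hyS'⟩ := hOs y hy
    have h1 : S' ⊆ S := fun g hg => hthr g (hxS'.2 g hg)
    refine D.Q_mono ?_ hyS'
    by_contra hns
    have h2 := hK.two_le hS'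
    obtain ⟨k, hk1, hk2⟩ := Finset.not_subset.1 hns
    have hke : k ≠ f := Finset.ne_of_mem_erase hk1
    have hkS : k ∈ S := Finset.mem_of_mem_erase hk1
    have h3 : S' = S.erase k := by
      apply Finset.eq_of_subset_of_card_le
      · intro g hg
        exact Finset.mem_erase.2 ⟨fun h => hk2 (h ▸ hg), h1 hg⟩
      · rw [Finset.card_erase_of_mem hkS, hc]; exact h2
    rw [h3] at hS'
    exact hcon k hkS hke hS'
  let ρ : Sp 4 → ℂ := fun x => (D.l f' x : ℂ) + (D.l f x : ℂ) * Complex.I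
  have hρre : ∀ x, (ρ x).re = D.l f' x := fun x => by simp [ρ]
  have hρim : ∀ x, (ρ x).im = D.l f x := fun x => by simp [ρ]
  have hρc : Continuous ρ := by
    have h1 : Continuous fun x => D.l f' x := (D.l f').continuous
    have h2 : Continuous fun x => D.l f x := (D.l f).continuous
    exact (Complex.continuous_ofReal.comp h1).add
      ((Complex.continuous_ofReal.comp h2).mul continuous_const)
  have hinj : InjOn ρ (O ∩ ⋃₀ K) := by
    intro x hx y hy hxy
    refine Q_inj_at i ((Finset.erase_subset f S).trans hSi) (hsub x hx) (hsub y hy) (fun k hk hk2 => ?_)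
    have hk3 : k = f ∨ k = f' := by
      by_cases hkS : k ∈ S
      · left
        by_contra hne
        exact hk2 (Finset.mem_erase.2 ⟨hne, hkS⟩)
      · right
        have : k ∈ D.N i \ S := Finset.mem_sdiff.2 ⟨hk, hkS⟩
        rw [hf', Finset.mem_singleton] at this
        exact this
    rcases hk3 with rfl | rfl
    · rw [← hρim, ← hρim, hxy]
    · rw [← hρre, ← hρre, hxy]
  obtain ⟨m, hm, hball⟩ := iod_sub' h hx0K hO hxO hρc hinj
  have h1 : ρ x0 + (m / 2 : ℝ) * Complex.I ∈ ball (ρ x0) m := by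
    rw [mem_ball_iff_norm, add_sub_cancel_left, norm_mul, Complex.norm_I, mul_one,
      Complex.norm_real, Real.norm_of_nonneg (by linarith)]
    linarith
  obtain ⟨y, hy, hyx⟩ := hball h1
  have h2 := congrArg Complex.im hyx
  rw [hρim] at h2
  have h3 : (ρ x0 + (m / 2 : ℝ) * Complex.I).im = D.c + m / 2 := by
    rw [Complex.add_im, hρim, hx0S.2 f hf]; simp
  have h4 := D.le_P (hsub y hy).1 f
  linarith

end SData

end Pool.Agent.Helper486.Ham
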