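import Pool.Agent.Helper486.Count
import Pool.Agent.Helper486.Loc

namespace Pool.Agent.Helper486.Ham

open Metric Set Finset Topology Topo

namespace SData

variable {ι κ : Type} [Fintype ι] [DecidableEq ι] [Fintype κ] [DecidableEq κ] (D : SData ι κ)

open Classical in
/-- edges of `K` -/
noncomputable def Es (K : Set (Set (Sp 4))) : Finset (Finset κ) :=
  Finset.univ.filter (fun S => S.card = 3 ∧ D.KM K S)

open Classical in
/-- two-dimensional faces of `K` -/
noncomputable def Fs (K : Set (Set (Sp 4))) : Finset (Finset κ) :=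
  Finset.univ.filter (fun S => S.card = 2 ∧ D.KM K S)

variable {D}
variable {K : Set (Set (Sp 4))}

lemma mem_Es {S : Finset κ} : S ∈ D.Es K ↔ S.card = 3 ∧ D.KM K S := by simp [Es]

lemma mem_Fs {S : Finset κ} : S ∈ D.Fs K ↔ S.card = 2 ∧ D.KM K S := by simp [Fs]

lemma eq_of_N_sub (hinj : Function.Injective D.N) {i j : ι} (h : D.N i ⊆ D.N j) : i = j :=
  hinj (Finset.eq_of_subset_of_card_le h (by rw [D.card_N, D.card_N]))

lemma eq_N_of_card {S : Finset κ} {i : ι} (hi : i ∈ D.J S) (hc : 4 ≤ S.card) : S = D.N i :=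
  Finset.eq_of_subset_of_card_le (D.mem_J.1 hi) (by rw [D.card_N]; exact hc)

lemma Q_N {i : ι} {x : Sp 4} (hx : x ∈ D.Q (D.N i)) : x = D.v i := by
  refine Q_inj_at i (Finset.Subset.refl _) hx (D.v_mem_Q.2 (D.mem_J.2 (Finset.Subset.refl _))) ?_
  intro f h1 h2; exact absurd h1 h2

/-- exactly two pentagons at each edge -/
lemma IsSph.card_Fs (hK : D.IsSph K) {e : Finset κ} (he : e ∈ D.Es K) :
    ((D.Fs K).filter (fun S => S ⊆ e)).card = 2 := by
  classical
  obtain ⟨hc, hKM⟩ := mem_Es.1 he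
  have himg : (D.Fs K).filter (fun S => S ⊆ e) =
      (e.filter (fun f => D.KM K (e.erase f))).image e.erase := by
    ext S
    rw [Finset.mem_filter, Finset.mem_image, mem_Fs]
    constructor
    · rintro ⟨⟨hS2, hSK⟩, hSe⟩
      have h1 : (e \ S).card = 1 := by rw [Finset.card_sdiff_of_subset hSe, hc, hS2]
      obtain ⟨f, hf⟩ := Finset.card_eq_one.1 h1
      have hfm : f ∈ e \ S := by rw [hf]; exact Finset.mem_singleton_self _
      rw [Finset.mem_sdiff] at hfm
      have h2 : e.erase f = S := by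
        symm
        apply Finset.eq_of_subset_of_card_le
        · intro g hg
          exact Finset.mem_erase.2 ⟨fun h => hfm.2 (h ▸ hg), hSe hg⟩
        · rw [Finset.card_erase_of_mem hfm.1, hc, hS2]
      exact ⟨f, Finset.mem_filter.2 ⟨hfm.1, by rw [h2]; exact hSK⟩, h2⟩
    · rintro ⟨f, hf, rfl⟩
      rw [Finset.mem_filter] at hf
      exact ⟨⟨by rw [Finset.card_erase_of_mem hf.1, hc], hf.2⟩, Finset.erase_subset _ _⟩
  rw [himg, Finset.card_image_of_injOn]
  · have h1 : (e.filter (fun f => D.KM K (e.erase f))).card ≠ 3 := by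
      intro h
      apply hK.not_three hKM.1 hc
      have : e.filter (fun f => D.KM K (e.erase f)) = e :=
        Finset.eq_of_subset_of_card_le (Finset.filter_subset _ _) (by rw [h, hc])
      intro f hf
      rw [← this, Finset.mem_filter] at hf
      exact hf.2
    have h2 : (e.filter (fun f => D.KM K (e.erase f))).card ≤ 3 := by
      rw [← hc]; exact Finset.card_le_card (Finset.filter_subset _ _)
    have h3 : 1 < (e.filter (fun f => D.KM K (e.erase f))).card := by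
      obtain ⟨f, hf⟩ : e.Nonempty := by rw [← Finset.card_pos, hc]; norm_num
      obtain ⟨g, hg, _, hgK⟩ := hK.exists_other hKM hc hf
      obtain ⟨g', hg', hne, hgK'⟩ := hK.exists_other hKM hc hg
      rw [Finset.one_lt_card]
      exact ⟨g, Finset.mem_filter.2 ⟨hg, hgK⟩, g', Finset.mem_filter.2 ⟨hg', hgK'⟩, hne.symm⟩
    omega
  · intro f hf g hg hfg
    have hf' := (Finset.mem_filter.1 (Finset.mem_coe.1 hf)).1
    by_contra hne
    have : g ∈ e.erase f := Finset.mem_erase.2 ⟨Ne.symm hne, (Finset.mem_filter.1 (Finset.mem_coe.1 hg)).1⟩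
    have h2 : g ∈ e.erase g := by rw [← show e.erase f = e.erase g from hfg]; exact this
    exact absurd h2 (Finset.notMem_erase g e)

lemma card_R {S : Finset κ} (hN : D.Nums) (hS : S.card = 2) (hJ : (D.J S).Nonempty) :
    (D.R S).card = 5 := by
  have key : (D.R S).card * 2 = (D.J S).card * 2 := by
    refine Finset.card_mul_eq_card_mul (fun g i => g ∈ D.N i) ?_ ?_
    · intro g hg
      obtain ⟨hg1, hg2⟩ := D.mem_R.1 hg
      rw [← hN.h3 (insert g S) (by rw [Finset.card_insert_of_notMem hg1, hS]) hg2]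
      refine congrArg Finset.card ?_
      ext i
      rw [Finset.mem_bipartiteAbove, D.mem_J, D.mem_J, Finset.insert_subset_iff]
      tauto
    · intro i hi
      have : Finset.bipartiteBelow (fun g i => g ∈ D.N i) (D.R S) i = D.N i \ S := by
        ext g
        rw [Finset.mem_bipartiteBelow, Finset.mem_sdiff, D.mem_R]
        constructor
        · rintro ⟨⟨h1, _⟩, h3⟩; exact ⟨h3, h1⟩
        · rintro ⟨h1, h3⟩
          refine ⟨⟨h3, i, ?_⟩, h1⟩
          rw [D.mem_J, Finset.insert_subset_iff]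
          exact ⟨h1, D.mem_J.1 hi⟩
      rw [this, Finset.card_sdiff_of_subset (D.mem_J.1 hi), D.card_N, hS]
  rw [hN.h2 S hS hJ] at key
  omega

/-- the edges of a pentagon -/
lemma IsSph.filter_Es (hK : D.IsSph K) {S : Finset κ} (hS : S ∈ D.Fs K) :
    (D.Es K).filter (fun e => S ⊆ e) = (D.R S).image (fun g => insert g S) := by
  obtain ⟨hc, hKM⟩ := mem_Fs.1 hS
  ext e
  rw [Finset.mem_filter, Finset.mem_image, mem_Es]
  constructor
  · rintro ⟨⟨he3, heK⟩, hSe⟩
    have h1 : (e \ S).card = 1 := by rw [Finset.card_sdiff_of_subset hSe, he3, hc]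
    obtain ⟨f, hf⟩ := Finset.card_eq_one.1 h1
    have hfm : f ∈ e \ S := by rw [hf]; exact Finset.mem_singleton_self _
    rw [Finset.mem_sdiff] at hfm
    have h2 : insert f S = e := by
      apply Finset.eq_of_subset_of_card_le (Finset.insert_subset hfm.1 hSe)
      rw [Finset.card_insert_of_notMem hfm.2, hc, he3]
    exact ⟨f, D.mem_R.2 ⟨hfm.2, by rw [h2]; exact heK.1⟩, h2⟩
  · rintro ⟨g, hg, rfl⟩
    obtain ⟨hg1, hg2⟩ := D.mem_R.1 hg
    exact ⟨⟨by rw [Finset.card_insert_of_notMem hg1, hc], hK.sup hKM (Finset.subset_insert _ _) hg2⟩,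
      Finset.subset_insert _ _⟩

lemma IsSph.card_Es_filter (hK : D.IsSph K) (hN : D.Nums) {S : Finset κ} (hS : S ∈ D.Fs K) :
    ((D.Es K).filter (fun e => S ⊆ e)).card = 5 := by
  obtain ⟨hc, hKM⟩ := mem_Fs.1 hS
  rw [hK.filter_Es hS, Finset.card_image_of_injOn, card_R hN hc hKM.1]
  intro f hf g hg hfg
  have hf' := (D.mem_R.1 (Finset.mem_coe.1 hf)).1
  have h2 : f ∈ insert g S := by
    rw [← show insert f S = insert g S from hfg]; exact Finset.mem_insert_self _ _
  rcases Finset.mem_insert.1 h2 with h3 | h3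
  · exact h3
  · exact absurd h3 hf'

lemma IsSph.count (hK : D.IsSph K) (hN : D.Nums) : (D.Es K).card * 2 = (D.Fs K).card * 5 := by
  refine Finset.card_mul_eq_card_mul (fun e S => S ⊆ e) ?_ ?_
  · intro e he
    exact hK.card_Fs he
  · intro S hS
    exact hK.card_Es_filter hN hS

instance : PreconnectedSpace S2 := by
  have h : 1 < Module.rank ℝ (EuclideanSpace ℝ (Fin 3)) := by
    apply Module.lt_rank_of_lt_finrank
    simp
  exact isPreconnected_iff_preconnectedSpace.1 (isPreconnected_sphere h 0 1)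

/-- each vertex is in a pentagon -/
lemma IsSph.vert_pent (hK : D.IsSph K) (i : ι) :
    ∃ S ∈ D.Fs K, i ∈ D.J S := by
  by_contra hcon
  push Not at hcon
  have hfour : ∀ S, D.KM K S → i ∈ D.J S → S = D.N i := by
    intro S hS hi
    apply eq_N_of_card hi
    by_contra h4
    have h2 := hK.two_le hS
    have h23 : S.card = 2 ∨ S.card = 3 := by omega
    rcases h23 with hc | hc
    · exact hcon S (mem_Fs.2 ⟨hc, hS⟩) hi
    · obtain ⟨f, hf⟩ : S.Nonempty := by rw [← Finset.card_pos, hc]; norm_num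
      obtain ⟨g, hg, _, hgK⟩ := hK.exists_other hS hc hf
      exact hcon _ (mem_Fs.2 ⟨by rw [Finset.card_erase_of_mem hg, hc], hgK⟩)
        (D.J_anti (Finset.erase_subset _ _) hi)
  obtain ⟨O, hO, hxO, hOs⟩ := hK.exists_open (D.v i)
  have hsub : ∀ y ∈ O ∩ ⋃₀ K, y = D.v i := by
    intro y hy
    obtain ⟨S, hS, hiS, hyS⟩ := hOs y hy
    have := hfour S hS (D.v_mem_Q.1 hiS)
    rw [this] at hyS
    exact Q_N hyS
  obtain ⟨h⟩ := hK.top
  have hpre : PreconnectedSpace (⋃₀ K : Set (Sp 4)) := by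
    refine ⟨?_⟩
    have h1 := (isPreconnected_univ (α := S2)).image h.symm h.symm.continuous.continuousOn
    rwa [Set.image_univ, h.symm.surjective.range_eq] at h1
  have hmemK : ∀ j, D.v j ∈ ⋃₀ K := fun j => ⟨_, hK.vert j, rfl⟩
  have hclopen : IsClopen ({⟨D.v i, hmemK i⟩} : Set (⋃₀ K : Set (Sp 4))) := by
    refine ⟨isClosed_singleton, ?_⟩
    have : ({⟨D.v i, hmemK i⟩} : Set (⋃₀ K : Set (Sp 4))) = Subtype.val ⁻¹' O := by
      ext y
      rw [Set.mem_singleton_iff, Set.mem_preimage]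
      constructor
      · rintro rfl; exact hxO
      · intro hy; exact Subtype.ext (hsub y.1 ⟨hy, y.2⟩)
    rw [this]
    exact hO.preimage continuous_subtype_val
  have huniv := hclopen.eq_univ ⟨_, rfl⟩
  have h8 : ∀ k, ∃ f, f ∈ D.N k := fun k => by
    have : (D.N k).Nonempty := by rw [← Finset.card_pos, D.card_N]; norm_num
    exact this
  -- another vertex in the same facet gives a different point
  obtain ⟨f, hf⟩ := h8 i
  have hw := D.w_not i f hf
  have hwm : (⟨D.v (D.w i f hf), hmemK _⟩ : (⋃₀ K : Set (Sp 4))) ∈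
      ({⟨D.v i, hmemK i⟩} : Set (⋃₀ K : Set (Sp 4))) := by rw [huniv]; trivial
  have hww : D.v (D.w i f hf) = D.v i := congrArg Subtype.val hwm
  apply hw
  rw [← D.eq_iff, hww, D.eq_iff]
  exact hf

lemma IsSph.mem_pent (hK : D.IsSph K) {x : Sp 4} (hx : x ∈ ⋃₀ K) :
    ∃ S ∈ D.Fs K, x ∈ D.Q S := by
  obtain ⟨S, hS, hxS⟩ := hK.mem_iff.1 hx
  have h2 := hK.two_le hS
  have h4 := D.card_le_of_J hS.1
  have h23 : S.card = 2 ∨ S.card = 3 ∨ S.card = 4 := by omega
  rcases h23 with hc | hc | hc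
  · exact ⟨S, mem_Fs.2 ⟨hc, hS⟩, hxS⟩
  · obtain ⟨f, hf⟩ : S.Nonempty := by rw [← Finset.card_pos, hc]; norm_num
    obtain ⟨g, hg, _, hgK⟩ := hK.exists_other hS hc hf
    exact ⟨_, mem_Fs.2 ⟨by rw [Finset.card_erase_of_mem hg, hc], hgK⟩,
      D.Q_mono (Finset.erase_subset _ _) hxS⟩
  · obtain ⟨i, hi⟩ := hS.1
    obtain ⟨S', hS', hi'⟩ := hK.vert_pent i
    have := eq_N_of_card hi hc.ge
    rw [this] at hxS
    rw [Q_N hxS]
    exact ⟨S', hS', D.v_mem_Q.2 hi'⟩

lemma IsSph.precon (hK : D.IsSph K) : IsPreconnected (⋃₀ K \ Set.range D.v) := by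
  obtain ⟨h⟩ := hK.top
  have hmemK : ∀ j, D.v j ∈ ⋃₀ K := fun j => ⟨_, hK.vert j, rfl⟩
  set F : Set S2 := h '' {x | x.1 ∈ Set.range D.v} with hF
  have hfin : F.Finite := by
    apply Set.Finite.image
    exact Set.Finite.preimage Subtype.val_injective.injOn (Set.finite_range D.v)
  have hne : F.Nonempty := by
    obtain ⟨i⟩ := D.ne
    exact ⟨_, ⟨D.v i, hmemK i⟩, ⟨i, rfl⟩, rfl⟩
  have h1 := preconnected_S2_diff F hfin hne
  have h2 := (h1.image h.symm h.symm.continuous.continuousOn).image Subtype.val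
    continuous_subtype_val.continuousOn
  convert h2 using 1
  ext x
  constructor
  · rintro ⟨hx1, hx2⟩
    refine ⟨⟨x, hx1⟩, ⟨h ⟨x, hx1⟩, ?_, h.symm_apply_apply _⟩, rfl⟩
    rintro ⟨y, hy, hyx⟩
    have := h.injective hyx
    subst this
    exact hx2 hy
  · rintro ⟨y, ⟨z, hz, rfl⟩, rfl⟩
    refine ⟨(h.symm z).2, fun hx => hz ⟨h.symm z, hx, h.apply_symm_apply z⟩⟩

/-- pentagons of `K` are strongly connected -/
lemma IsSph.strong (hK : D.IsSph K) (p : Finset κ → Prop) {S0 : Finset κ}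
    (hS0 : S0 ∈ D.Fs K) (hp0 : p S0)
    (hp : ∀ S ∈ D.Fs K, ∀ S' ∈ D.Fs K, ∀ e ∈ D.Es K, S ⊆ e → S' ⊆ e → p S → p S') :
    ∀ S ∈ D.Fs K, p S := by
  classical
  by_contra hcon
  push Not at hcon
  obtain ⟨S1, hS1, hp1⟩ := hcon
  have hmid : ∀ S ∈ D.Fs K, D.m S ∈ ⋃₀ K \ Set.range D.v := by
    intro S hS
    obtain ⟨hc, hKM⟩ := mem_Fs.1 hS
    refine ⟨⟨_, hKM.2, D.m_mem_self hKM.1⟩, ?_⟩
    rintro ⟨i, hi⟩
    have h1 : D.m S ∈ D.Q (D.N i) := by
      rw [← hi]; exact D.v_mem_Q.2 (D.mem_J.2 (Finset.Subset.refl _))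
    have h2 := Finset.card_le_card ((D.m_mem_iff hKM.1 _).1 h1)
    rw [D.card_N, hc] at h2
    omega
  have h := isPreconnected_closed_iff.1 hK.precon
    (⋃ S ∈ (D.Fs K).filter p, D.Q S) (⋃ S ∈ (D.Fs K).filter (fun S => ¬ p S), D.Q S)
    (Set.Finite.isClosed_biUnion (Finset.finite_toSet _) (fun S _ => D.isClosed_Q' S))
    (Set.Finite.isClosed_biUnion (Finset.finite_toSet _) (fun S _ => D.isClosed_Q' S))
    (fun x hx => by
      obtain ⟨S, hS, hxS⟩ := hK.mem_pent hx.1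
      by_cases hpS : p S
      · left
        simp only [Set.mem_iUnion]
        exact ⟨S, Finset.mem_filter.2 ⟨hS, hpS⟩, hxS⟩
      · right
        simp only [Set.mem_iUnion]
        exact ⟨S, Finset.mem_filter.2 ⟨hS, hpS⟩, hxS⟩)
    ⟨D.m S0, hmid S0 hS0, by
      simp only [Set.mem_iUnion]
      exact ⟨S0, Finset.mem_filter.2 ⟨hS0, hp0⟩, D.m_mem_self (mem_Fs.1 hS0).2.1⟩⟩
    ⟨D.m S1, hmid S1 hS1, by
      simp only [Set.mem_iUnion]
      exact ⟨S1, Finset.mem_filter.2 ⟨hS1, hp1⟩, D.m_mem_self (mem_Fs.1 hS1).2.1⟩⟩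
  obtain ⟨x, ⟨hxK, hxv⟩, hx1, hx2⟩ := h
  simp only [Set.mem_iUnion] at hx1 hx2
  obtain ⟨S, hS, hxS⟩ := hx1
  obtain ⟨S', hS', hxS'⟩ := hx2
  rw [Finset.mem_filter] at hS hS'
  obtain ⟨hc, hKM⟩ := mem_Fs.1 hS.1
  obtain ⟨hc', hKM'⟩ := mem_Fs.1 hS'.1
  have hxU : x ∈ D.Q (S ∪ S') := ⟨hxS.1, fun f hf => by
    rcases Finset.mem_union.1 hf with hf | hf
    · exact hxS.2 f hf
    · exact hxS'.2 f hf⟩
  have hJ := D.J_nonempty_of_Q hxU
  have h4 := D.card_le_of_J hJ
  have hne : S ≠ S' := fun h => hS'.2 (h ▸ hS.2)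
  have h3 : 3 ≤ (S ∪ S').card := by
    by_contra hlt
    have h5 : S = S ∪ S' := Finset.eq_of_subset_of_card_le Finset.subset_union_left (by rw [hc]; omega)
    have h6 : S' = S ∪ S' := Finset.eq_of_subset_of_card_le Finset.subset_union_right (by rw [hc']; omega)
    exact hne (h5.trans h6.symm)
  have h34 : (S ∪ S').card = 3 ∨ (S ∪ S').card = 4 := by omega
  rcases h34 with h34 | h34
  · have he : S ∪ S' ∈ D.Es K := mem_Es.2 ⟨h34, hK.sup hKM Finset.subset_union_left hJ⟩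
    exact hS'.2 (hp S hS.1 S' hS'.1 _ he Finset.subset_union_left Finset.subset_union_right hS.2)
  · obtain ⟨i, hi⟩ := hJ
    rw [eq_N_of_card hi h34.ge] at hxU
    exact hxv ⟨i, (Q_N hxU).symm⟩

end SData

end Pool.Agent.Helper486.Ham
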