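import Pool.Agent.Helper486.Shell

namespace Pool.Agent.Helper486.Ham

open Metric Set Finset

namespace SData

variable {ι κ : Type} [Fintype ι] [DecidableEq ι] [Fintype κ] [DecidableEq κ] (D : SData ι κ)

/-- the numerical data of the 120-cell -/
structure Nums : Prop where
  h1 : ∀ S : Finset κ, S.card = 1 → (D.J S).card = 20
  h2 : ∀ S : Finset κ, S.card = 2 → (D.J S).Nonempty → (D.J S).card = 5
  h3 : ∀ S : Finset κ, S.card = 3 → (D.J S).Nonempty → (D.J S).card = 2
  h12 : ∀ S : Finset κ, S.card = 1 → (D.R S).card = 12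
  hι : Fintype.card ι = 600

lemma mu_le_one (k : ℕ) : mu k ≤ 1 := by unfold mu; split_ifs <;> norm_num

lemma card_U {S : Finset κ} {L : List (Set (Sp 4))} (hJ : (D.J S).Nonempty) (hnd : L.Nodup)
    (hL : ∀ F, F ∈ L ↔ IsFacet (D.Q S) F) : ∀ j, j ≤ L.length → (D.U S L j).card = j := by
  intro j
  induction j with
  | zero => intro _; rw [D.U_zero]; rfl
  | succ j ih =>
    intro hj
    obtain ⟨g, _, hgU, _, hU⟩ := D.U_succ hJ hnd hL (Nat.lt_of_succ_le hj)
    rw [hU, Finset.card_insert_of_notMem hgU, ih (Nat.le_of_succ_le hj)]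

lemma U_mono {S : Finset κ} {L : List (Set (Sp 4))} {j k : ℕ} (h : j ≤ k) :
    D.U S L j ⊆ D.U S L k := by
  intro g hg
  rw [mem_U] at hg ⊢
  exact ⟨hg.1, (List.take_prefix_take_left h).subset hg.2⟩

/-- shellings of polygons: the number of ends of the boundary path -/
lemma level2 {S : Finset κ} (hN : D.Nums) (hS : S.card = 2) (hJ : (D.J S).Nonempty)
    {L : List (Set (Sp 4))} (hsh : IsShelling 1 (D.Q S) L) :
    ∀ s, 1 ≤ s → s < L.length → D.Sm mu S (D.U S L s) = 2 := by
  obtain ⟨⟨hnd, hL⟩, hstep⟩ := hsh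
  -- positivity before the end
  have hpos : ∀ s, 1 ≤ s → (hs : s < L.length) → 1 ≤ D.Sm mu S (D.U S L s) := by
    intro s hs1 hs
    obtain ⟨g, hgR, hgU, hgL, hU⟩ := D.U_succ hJ hnd hL hs
    obtain ⟨h, hhU, i, hi⟩ := D.exists_adj hJ hL hs hgL (hstep s hs hs1).1
    have hiN := D.mem_J.1 hi
    have hhR := D.mem_R.1 (D.mem_U.1 hhU).1
    have hgR' := D.mem_R.1 hgR
    have hhg : h ≠ g := fun h' => hgU (h' ▸ hhU)
    have hiS : i ∈ D.J S := D.J_anti ((Finset.subset_insert _ _).trans (Finset.subset_insert _ _)) hi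
    have hk : D.kc S (D.U S L s) i = 1 := by
      apply le_antisymm
      · have h1 : (D.N i \ S) ∩ D.U S L s ⊆ (D.N i \ insert g S) := by
          intro x hx
          rw [Finset.mem_inter, Finset.mem_sdiff] at hx
          rw [Finset.mem_sdiff, Finset.mem_insert, not_or]
          exact ⟨hx.1.1, fun h' => hgU (h' ▸ hx.2), hx.1.2⟩
        have h2 := Finset.card_le_card h1
        rw [Finset.card_sdiff_of_subset ((Finset.subset_insert _ _).trans hiN), D.card_N,
          Finset.card_insert_of_notMem hgR'.1, hS] at h2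
        exact h2
      · unfold kc
        rw [Nat.succ_le_iff, Finset.card_pos]
        exact ⟨h, Finset.mem_inter.2 ⟨Finset.mem_sdiff.2 ⟨hiN (Finset.mem_insert_self _ _), hhR.1⟩, hhU⟩⟩
    calc (1 : ℤ) = mu (D.kc S (D.U S L s) i) := by rw [hk]; simp [mu]
      _ ≤ D.Sm mu S (D.U S L s) :=
        Finset.single_le_sum (f := fun i => mu (D.kc S (D.U S L s) i))
          (fun i _ => mu_nonneg _) hiS
  have hval : ∀ s, 1 ≤ s → s ≤ L.length → D.Sm mu S (D.U S L s) = 0 ∨ D.Sm mu S (D.U S L s) = 2 := by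
    intro s hs1
    induction s, hs1 using Nat.le_induction with
    | base =>
      intro hs
      obtain ⟨g, hgR, hgU, hgL, hU⟩ := D.U_succ hJ hnd hL (j := 0) (by omega)
      right
      have hgR' := D.mem_R.1 hgR
      rw [zero_add] at hU
      rw [hU, D.U_zero, D.Sm_insert mu hgR'.1 (by simp), D.Sm_empty, D.Sm_empty,
        hN.h3 _ (by rw [Finset.card_insert_of_notMem hgR'.1, hS]) hgR'.2]
      simp [mu]
    | succ s hs1 ih =>
      intro hs
      have hslt : s < L.length := by omega
      obtain ⟨g, hgR, hgU, hgL, hU⟩ := D.U_succ hJ hnd hL hslt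
      obtain ⟨h, hhU, i, hi⟩ := D.exists_adj hJ hL hslt hgL (hstep s hslt hs1).1
      have hgR' := D.mem_R.1 hgR
      have hhR := D.mem_R.1 (D.mem_U.1 hhU).1
      have h2 : D.Sm mu S (D.U S L s) = 2 := by
        rcases ih hslt.le with h0 | h2
        · have := hpos s hs1 hslt
          omega
        · exact h2
      have hcard := hN.h3 _ (by rw [Finset.card_insert_of_notMem hgR'.1, hS]) hgR'.2
      rw [hU, D.Sm_insert mu hgR'.1 hgU, h2]
      -- the two vertices of the new edge
      have hkle : ∀ x ∈ D.J (insert g S), D.kc (insert g S) (D.U S L s) x ≤ 1 := by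
        intro x hx
        have h3 : (D.N x \ insert g S) ∩ D.U S L s ⊆ (D.N x \ insert g S) :=
          Finset.inter_subset_left
        have h4 := Finset.card_le_card h3
        rw [Finset.card_sdiff_of_subset (D.mem_J.1 hx), D.card_N,
          Finset.card_insert_of_notMem hgR'.1, hS] at h4
        exact h4
      have hiJ : i ∈ D.J (insert g S) := D.J_anti (Finset.subset_insert _ _) hi
      have hki : D.kc (insert g S) (D.U S L s) i = 1 := by
        apply le_antisymm (hkle i hiJ)
        unfold kc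
        rw [Nat.succ_le_iff, Finset.card_pos]
        refine ⟨h, Finset.mem_inter.2 ⟨Finset.mem_sdiff.2
          ⟨D.mem_J.1 hi (Finset.mem_insert_self _ _), ?_⟩, hhU⟩⟩
        rw [Finset.mem_insert, not_or]
        exact ⟨fun h' => hgU (h' ▸ hhU), hhR.1⟩
      obtain ⟨a, b, hab, hJab⟩ := Finset.card_eq_two.1 hcard
      have hmu : ∀ k : ℕ, k ≤ 1 → mu (k + 1) - mu k = 1 - 2 * (k : ℤ) := by
        intro k hk
        interval_cases k <;> simp [mu]
      unfold Sm
      rw [hJab, Finset.sum_pair hab]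
      beta_reduce
      rw [hmu _ (hkle a (by rw [hJab]; simp)), hmu _ (hkle b (by rw [hJab]; simp))]
      have ha := hkle a (by rw [hJab]; simp)
      have hb := hkle b (by rw [hJab]; simp)
      rw [hJab, Finset.mem_insert, Finset.mem_singleton] at hiJ
      rcases hiJ with rfl | rfl
      · rw [hki]; push_cast; omega
      · rw [hki]; push_cast; omega
  intro s hs1 hs
  rcases hval s hs1 hs.le with h | h
  · have := hpos s hs1 hs
    omega
  · exact h

/-- shellings of dodecahedra -/
lemma level1 {S : Finset κ} (hN : D.Nums) (hS : S.card = 1)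
    {L : List (Set (Sp 4))} (hsh : IsShelling 2 (D.Q S) L) :
    L.length = 12 ∧ ∀ j, 1 ≤ j → j ≤ 11 → D.Sm nu S (D.U S L j) = 3 * j + 2 := by
  have hJ : (D.J S).Nonempty := by
    rw [← Finset.card_pos, hN.h1 S hS]; norm_num
  obtain ⟨⟨hnd, hL⟩, hstep⟩ := hsh
  have hlen : L.length = 12 := by
    rw [← D.card_U hJ hnd hL L.length le_rfl, D.U_len hJ hL, hN.h12 S hS]
  refine ⟨hlen, ?_⟩
  have hΔ : ∀ g ∈ D.R S, ∀ A : Finset κ, g ∉ A → D.Sm nu S (insert g A) =
      D.Sm nu S A + 5 - D.Sm mu (insert g S) A := by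
    intro g hg A hA
    have hg' := D.mem_R.1 hg
    rw [D.Sm_insert nu hg'.1 hA]
    have h5 := hN.h2 _ (by rw [Finset.card_insert_of_notMem hg'.1, hS]) hg'.2
    have : D.Sm (fun k => nu (k + 1) - nu k) (insert g S) A = 5 - D.Sm mu (insert g S) A := by
      unfold Sm
      simp_rw [nu_succ]
      rw [Finset.sum_sub_distrib, Finset.sum_const, h5]
      norm_num
    rw [this]; ring
  -- first value
  have ha1 : D.Sm nu S (D.U S L 1) = 5 := by
    obtain ⟨g, hgR, hgU, hgL, hU⟩ := D.U_succ hJ hnd hL (j := 0) (by omega)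
    rw [zero_add] at hU
    rw [hU, D.U_zero, hΔ g hgR ∅ (by simp), D.Sm_empty, D.Sm_empty]
    simp [nu, mu]
  -- steps
  have hst : ∀ j, 1 ≤ j → j < 12 → D.Sm nu S (D.U S L j) + 3 ≤ D.Sm nu S (D.U S L (j + 1)) := by
    intro j hj1 hj
    have hj' : j < L.length := by omega
    obtain ⟨g, hgR, hgU, hgL, hU⟩ := D.U_succ hJ hnd hL hj'
    have hg' := D.mem_R.1 hgR
    obtain ⟨hne, L', hL', r, hr, hrU⟩ := hstep j hj' hj1
    rw [hU, hΔ g hgR _ hgU]
    have hL'2 : ∀ F, F ∈ L' ↔ IsFacet L[j] F := hL'.1.2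
    have hpre := D.U_prefix hJ hnd hL hj' hgR hgL hL'2 hrU
    rw [← D.Sm_inter_R mu (insert g S), ← hpre]
    have hr1 : 1 ≤ r := by
      by_contra h
      have : r = 0 := by omega
      subst this
      rw [hrU] at hne
      obtain ⟨x, hx⟩ := hne
      rw [mem_unionFirst] at hx
      simp at hx
    have hcard : (insert g S).card = 2 := by rw [Finset.card_insert_of_notMem hg'.1, hS]
    rcases lt_or_eq_of_le hr with hlt | heq
    · rw [D.level2 hN hcard hg'.2 (by rw [← hgL]; exact hL') r hr1 hlt]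
      omega
    · rw [heq, D.U_len hg'.2 (by rw [← hgL]; exact hL'2), D.Sm_full, hcard]
      simp [mu]
  -- last step
  have hlast : D.Sm nu S (D.U S L 12) = D.Sm nu S (D.U S L 11) + 5 := by
    obtain ⟨g, hgR, hgU, hgL, hU⟩ := D.U_succ hJ hnd hL (j := 11) (by omega)
    have hg' := D.mem_R.1 hgR
    have hcard : (insert g S).card = 2 := by rw [Finset.card_insert_of_notMem hg'.1, hS]
    rw [show (12 : ℕ) = 11 + 1 from rfl, hU, hΔ g hgR _ hgU]
    have hz : D.Sm mu (insert g S) (D.U S L 11) = 0 := by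
      unfold Sm
      refine Finset.sum_eq_zero fun i hi => ?_
      rw [D.kc_full hi, hcard]
      · simp [mu]
      · intro x hx
        rw [Finset.mem_sdiff, Finset.mem_insert, not_or] at hx
        have h1 : x ∈ D.R S := D.N_sub_R (D.J_anti (Finset.subset_insert _ _) hi)
          (Finset.mem_sdiff.2 ⟨hx.1, hx.2.2⟩)
        rw [← D.U_len hJ hL, hlen, show (12 : ℕ) = 11 + 1 from rfl, hU, Finset.mem_insert] at h1
        exact h1.resolve_left hx.2.1
    rw [hz]; ring
  have hfin : D.Sm nu S (D.U S L 12) = 40 := by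
    rw [← hlen, D.U_len hJ hL, D.Sm_full, hN.h1 S hS, hS]
    decide
  intro j hj1 hj2
  have e1 := hst 1 (by norm_num) (by norm_num)
  have e2 := hst 2 (by norm_num) (by norm_num)
  have e3 := hst 3 (by norm_num) (by norm_num)
  have e4 := hst 4 (by norm_num) (by norm_num)
  have e5 := hst 5 (by norm_num) (by norm_num)
  have e6 := hst 6 (by norm_num) (by norm_num)
  have e7 := hst 7 (by norm_num) (by norm_num)
  have e8 := hst 8 (by norm_num) (by norm_num)
  have e9 := hst 9 (by norm_num) (by norm_num)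
  have e10 := hst 10 (by norm_num) (by norm_num)
  norm_num at e1 e2 e3 e4 e5 e6 e7 e8 e9 e10
  interval_cases j <;> push_cast <;> omega

/-- no initial segment of a shelling of the boundary of the polytope has all vertices on its
boundary -/
lemma level0 (hN : D.Nums) {L : List (Set (Sp 4))} (hsh : IsShelling 3 D.P L) (k : ℕ)
    (hk : k ≤ L.length) (h : ∀ i, 1 ≤ D.kc ∅ (D.U ∅ L k) i ∧ D.kc ∅ (D.U ∅ L k) i ≤ 3) :
    False := by
  have hJ : (D.J ∅).Nonempty := by
    obtain ⟨i⟩ := D.ne
    exact ⟨i, D.mem_J.2 (Finset.empty_subset _)⟩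
  rw [← D.Q_empty] at hsh
  obtain ⟨⟨hnd, hL⟩, hstep⟩ := hsh
  have hk1 : 1 ≤ k := by
    by_contra hk0
    have : k = 0 := by omega
    subst this
    obtain ⟨i⟩ := D.ne
    have := (h i).1
    rw [D.U_zero] at this
    simp [kc] at this
  have hkc : ∀ j ≤ k, ∀ i, D.kc ∅ (D.U ∅ L j) i ≤ 3 := by
    intro j hj i
    refine le_trans ?_ (h i).2
    exact Finset.card_le_card (Finset.inter_subset_inter_left (D.U_mono hj))
  have hΔ : ∀ g ∈ D.R ∅, ∀ A : Finset κ, g ∉ A → D.Sm beta ∅ (insert g A) =
      D.Sm beta ∅ A + 20 - D.Sm nu {g} A := by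
    intro g hg A hA
    have hg' := D.mem_R.1 hg
    rw [D.Sm_insert beta hg'.1 hA]
    have h20 := hN.h1 {g} (Finset.card_singleton g)
    have h0 : insert g (∅ : Finset κ) = {g} := rfl
    have : D.Sm (fun k => beta (k + 1) - beta k) (insert g ∅) A = 20 - D.Sm nu {g} A := by
      rw [h0]
      unfold Sm
      simp_rw [beta_succ]
      rw [Finset.sum_sub_distrib, Finset.sum_const, h20]
      norm_num
    rw [this]; ring
  have hmod : ∀ j, 1 ≤ j → j ≤ k → (D.Sm beta ∅ (D.U ∅ L j)) % 3 = 2 := by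
    intro j hj1
    induction j, hj1 using Nat.le_induction with
    | base =>
      intro hj
      obtain ⟨g, hgR, hgU, hgL, hU⟩ := D.U_succ hJ hnd hL (j := 0) (by omega)
      rw [zero_add] at hU
      rw [hU, D.U_zero, hΔ g hgR ∅ (by simp), D.Sm_empty, D.Sm_empty]
      simp [nu, beta]
    | succ j hj1 ih =>
      intro hj
      have hj' : j < L.length := by omega
      obtain ⟨g, hgR, hgU, hgL, hU⟩ := D.U_succ hJ hnd hL hj'
      obtain ⟨hne, L', hL', r, hr, hrU⟩ := hstep j hj' hj1
      have h0 : insert g (∅ : Finset κ) = {g} := rfl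
      have hL'2 : ∀ F, F ∈ L' ↔ IsFacet L[j] F := hL'.1.2
      have hpre := D.U_prefix hJ hnd hL hj' hgR hgL hL'2 hrU
      rw [h0] at hpre hgL
      rw [hU, hΔ g hgR _ hgU, ← D.Sm_inter_R nu {g}, ← hpre]
      have hr1 : 1 ≤ r := by
        by_contra h
        have : r = 0 := by omega
        subst this
        rw [hrU] at hne
        obtain ⟨x, hx⟩ := hne
        rw [mem_unionFirst] at hx
        simp at hx
      obtain ⟨hlen, hval⟩ := D.level1 hN (Finset.card_singleton g) (by rw [← hgL]; exact hL')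
      have hr12 : r ≠ 12 := by
        intro hr12
        have hJg : (D.J {g}).Nonempty := by
          rw [← Finset.card_pos, hN.h1 _ (Finset.card_singleton g)]; norm_num
        obtain ⟨i, hi⟩ := hJg
        have h1 : D.U {g} L' r = D.R {g} := by
          rw [hr12, ← hlen]
          exact D.U_len ⟨i, hi⟩ (by rw [← hgL]; exact hL'2)
        rw [hpre] at h1
        have h2 : D.N i ⊆ insert g (D.U ∅ L j) := by
          intro x hx
          by_cases hxg : x = g
          · rw [hxg]; exact Finset.mem_insert_self _ _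
          · have : x ∈ D.R {g} := D.N_sub_R hi (Finset.mem_sdiff.2 ⟨hx, by simpa using hxg⟩)
            rw [← h1] at this
            exact Finset.mem_insert_of_mem (Finset.mem_inter.1 this).2
        have h3 := hkc (j + 1) hj i
        rw [hU, D.kc_full (D.mem_J.2 (Finset.empty_subset _)) (by simpa using h2)] at h3
        simp at h3
      rw [hval r hr1 (by omega)]
      have := ih (by omega)
      omega
  have h1 := hmod k hk1 le_rfl
  have h2 : D.Sm beta ∅ (D.U ∅ L k) = 600 := by
    unfold Sm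
    have h3 : ∀ i ∈ D.J ∅, beta (D.kc ∅ (D.U ∅ L k) i) = 1 := by
      intro i _
      have ha := (h i).1
      have hb := (h i).2
      interval_cases D.kc ∅ (D.U ∅ L k) i <;> decide
    rw [Finset.sum_congr rfl h3]
    have h4 : D.J ∅ = Finset.univ := by
      ext i; simp [mem_J]
    rw [h4]
    simp [hN.hι]
  rw [h2] at h1
  norm_num at h1

end SData

end Pool.Agent.Helper486.Ham
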