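import Pool.Agent.Helper486.CellNums

namespace Pool.Agent.Helper486.Ham

open Metric Set Finset

/-- if `sigma '' T` is full-dimensional then so is `T` -/
lemma affineSpan_of_sigma {d : ℕ} (T : Finset (EuclideanSpace ℝ (Fin d))) (hne : T.Nonempty)
    (h : affineSpan ℝ (sigma '' (T : Set (EuclideanSpace ℝ (Fin d)))) = ⊤) :
    affineSpan ℝ (T : Set (EuclideanSpace ℝ (Fin d))) = ⊤ := by
  by_contra hT
  have hneT : (T : Set (EuclideanSpace ℝ (Fin d))).Nonempty := by simpa using hne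
  have h1 : vectorSpan ℝ (T : Set (EuclideanSpace ℝ (Fin d))) < ⊤ := by
    rw [lt_top_iff_ne_top]
    intro h2
    exact hT ((AffineSubspace.affineSpan_eq_top_iff_vectorSpan_eq_top_of_nonempty ℝ _ _ hneT).2 h2)
  obtain ⟨f, hf0, hf⟩ := Submodule.exists_le_ker_of_lt_top _ h1
  obtain ⟨x0, hx0⟩ := hneT
  have hfx : ∀ x ∈ (T : Set (EuclideanSpace ℝ (Fin d))), f x = f x0 := by
    intro x hx
    have : x - x0 ∈ vectorSpan ℝ (T : Set (EuclideanSpace ℝ (Fin d))) :=
      vsub_mem_vectorSpan ℝ hx hx0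
    have h2 := hf this
    rw [LinearMap.mem_ker, map_sub, sub_eq_zero] at h2
    exact h2
  -- the linear functional on the bigger space
  let pr : EuclideanSpace ℝ (Fin (d + 1)) →ₗ[ℝ] EuclideanSpace ℝ (Fin d) :=
    { toFun := fun y => WithLp.toLp 2 (fun i => y (Fin.castSucc i))
      map_add' := fun y z => by ext i; simp
      map_smul' := fun c y => by ext i; simp }
  let la : EuclideanSpace ℝ (Fin (d + 1)) →ₗ[ℝ] ℝ :=
    { toFun := fun y => y (Fin.last d)
      map_add' := fun y z => by simp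
      map_smul' := fun c y => by simp }
  let F : EuclideanSpace ℝ (Fin (d + 1)) →ₗ[ℝ] ℝ := f.comp pr + (f x0) • la
  have hF : ∀ x ∈ (T : Set (EuclideanSpace ℝ (Fin d))), F (sigma x) = f x0 := by
    intro x hx
    have hp : (0 : ℝ) < ‖x‖ ^ 2 + 1 := by positivity
    have e1 : pr (sigma x) = (2 / (‖x‖ ^ 2 + 1)) • x := by
      ext i
      simp [pr, sigma]
      ring
    have e2 : la (sigma x) = (‖x‖ ^ 2 - 1) / (‖x‖ ^ 2 + 1) := by
      show (sigma x) (Fin.last d) = _
      simp [sigma]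
    show f (pr (sigma x)) + f x0 * la (sigma x) = f x0
    rw [e1, e2, map_smul, hfx x hx, smul_eq_mul]
    field_simp
    ring
  have hker : vectorSpan ℝ (sigma '' (T : Set (EuclideanSpace ℝ (Fin d)))) ≤ LinearMap.ker F := by
    rw [vectorSpan_def, Submodule.span_le]
    rintro _ ⟨_, ⟨x, hx, rfl⟩, _, ⟨y, hy, rfl⟩, rfl⟩
    simp only [vsub_eq_sub, SetLike.mem_coe, LinearMap.mem_ker, map_sub]
    rw [hF x hx, hF y hy, sub_self]
  have htop : vectorSpan ℝ (sigma '' (T : Set (EuclideanSpace ℝ (Fin d)))) = ⊤ :=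
    (AffineSubspace.affineSpan_eq_top_iff_vectorSpan_eq_top_of_nonempty ℝ _ _
      (Set.Nonempty.image _ ⟨x0, hx0⟩)).1 h
  rw [htop, top_le_iff, LinearMap.ker_eq_top] at hker
  apply hf0
  ext x
  have e3 := LinearMap.congr_fun hker (WithLp.toLp 2 (Fin.snoc (α := fun _ => ℝ) (fun i => x i) 0))
  have e4 : pr (WithLp.toLp 2 (Fin.snoc (α := fun _ => ℝ) (fun i => x i) 0)) = x := by
    ext i; simp [pr]
  have e5 : la (WithLp.toLp 2 (Fin.snoc (α := fun _ => ℝ) (fun i => x i) 0)) = 0 := by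
    show (Fin.snoc (α := fun _ => ℝ) (fun i => x i) 0 : Fin (d + 1) → ℝ) (Fin.last d) = 0
    simp
  have e6 : f (pr (WithLp.toLp 2 (Fin.snoc (α := fun _ => ℝ) (fun i => x i) 0))) +
      f x0 * la (WithLp.toLp 2 (Fin.snoc (α := fun _ => ℝ) (fun i => x i) 0)) = 0 := e3
  rw [e4, e5, mul_zero, add_zero] at e6
  simpa using e6

/-- stereographic projection -/
noncomputable def tau (y : EuclideanSpace ℝ (Fin 4)) : EuclideanSpace ℝ (Fin 3) :=
  WithLp.toLp 2 (fun i => y (Fin.castSucc i) / (1 - y (Fin.last 3)))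

lemma sigma_tau (y : EuclideanSpace ℝ (Fin 4)) (hy : ‖y‖ = 1) (h1 : y (Fin.last 3) ≠ 1) :
    sigma (tau y) = y := by
  have hne : 1 - y (Fin.last 3) ≠ 0 := fun h => h1 (by linarith)
  have hs : y 0 ^ 2 + y 1 ^ 2 + y 2 ^ 2 + y 3 ^ 2 = 1 := by
    have := EuclideanSpace.norm_sq_eq y
    rw [hy, Fin.sum_univ_four] at this
    simp only [Real.norm_eq_abs, sq_abs] at this
    linarith
  have hl : y (Fin.last 3) = y 3 := rfl
  rw [hl] at hne
  have hn : ‖tau y‖ ^ 2 = (1 + y 3) / (1 - y 3) := by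
    rw [EuclideanSpace.norm_sq_eq, Fin.sum_univ_three]
    simp only [tau, Real.norm_eq_abs, sq_abs]
    have c0 : y (Fin.castSucc (0 : Fin 3)) = y 0 := rfl
    have c1 : y (Fin.castSucc (1 : Fin 3)) = y 1 := rfl
    have c2 : y (Fin.castSucc (2 : Fin 3)) = y 2 := rfl
    rw [c0, c1, c2, hl]
    field_simp
    nlinarith
  have hn1 : ‖tau y‖ ^ 2 + 1 = 2 / (1 - y 3) := by
    rw [hn]; field_simp; ring
  have hn2 : (‖tau y‖ ^ 2 - 1) / (‖tau y‖ ^ 2 + 1) = y 3 := by
    rw [hn1, hn]; field_simp; ring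
  ext k
  refine Fin.lastCases ?_ (fun i => ?_) k
  · simp only [sigma, Fin.snoc_last]
    rw [hn2]; rfl
  · simp only [sigma, Fin.snoc_castSucc]
    rw [hn1]
    simp only [tau]
    rw [hl]
    field_simp

namespace SData

variable {ι κ : Type} [Fintype ι] [DecidableEq ι] [Fintype κ] [DecidableEq κ] (D : SData ι κ)

lemma affineSpan_v : affineSpan ℝ (Set.range D.v) = ⊤ := by
  obtain ⟨i⟩ := D.ne
  have : FiniteDimensional ℝ (Sp 4) := FiniteDimensional.of_finrank_pos (by rw [D.finrank_E]; norm_num)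
  have hne : (Set.range D.v).Nonempty := ⟨_, i, rfl⟩
  rw [AffineSubspace.affineSpan_eq_top_iff_vectorSpan_eq_top_of_nonempty ℝ _ _ hne,
    eq_top_iff]
  intro x _
  have h := D.coord i (x + D.v i)
  rw [add_sub_cancel_right] at h
  rw [h]
  refine Submodule.sum_mem _ fun f _ => Submodule.smul_mem _ _ ?_
  exact vsub_mem_vectorSpan ℝ ⟨_, rfl⟩ ⟨_, rfl⟩

lemma isClosed_P : IsClosed D.P := (Set.finite_range D.v).isClosed_convexHull ℝ

lemma isClosed_Q (S : Finset κ) : IsClosed (D.Q S) := by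
  have : D.Q S = D.P ∩ ⋂ f ∈ S, {x | D.l f x = D.c} := by
    ext x; simp [Q]
  rw [this]
  refine D.isClosed_P.inter (isClosed_biInter fun f _ => ?_)
  exact isClosed_eq (D.l f).continuous continuous_const

/-- the union of the first `k` facets of a shelling cannot have all vertices in its relative
boundary -/
lemma no_boundary (hN : D.Nums) {L : List (Set (Sp 4))} (hsh : IsShelling 3 D.P L) (k : ℕ)
    (hk : k ≤ L.length)
    (h : ∀ i, D.v i ∈ unionFirst L k ∩
      closure (⋃₀ {B | IsFace D.P B ∧ B ≠ D.P} \ unionFirst L k)) : False := by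
  have hJ : (D.J ∅).Nonempty := by
    obtain ⟨i⟩ := D.ne
    exact ⟨i, D.mem_J.2 (Finset.empty_subset _)⟩
  have hL : ∀ F, F ∈ L ↔ IsFacet (D.Q ∅) F := by rw [D.Q_empty]; exact hsh.1.2
  refine D.level0 hN hsh k hk fun i => ⟨?_, ?_⟩
  · obtain ⟨G, hG, hiG⟩ := mem_unionFirst.1 (h i).1
    obtain ⟨f, hf, hfJ, rfl⟩ := (D.isFacet_iff hJ _).1 ((hL G).1 (List.mem_of_mem_take hG))
    have hfN : f ∈ D.N i := D.mem_J.1 (D.v_mem_Q.1 hiG) (Finset.mem_insert_self _ _)
    unfold kc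
    rw [Nat.succ_le_iff, Finset.card_pos]
    exact ⟨f, Finset.mem_inter.2 ⟨by simpa using hfN, D.mem_U.2 ⟨D.mem_R.2 ⟨hf, hfJ⟩, hG⟩⟩⟩
  · by_contra hcon
    push Not at hcon
    have hsub : D.N i ⊆ D.U ∅ L k := by
      have h1 : (D.N i \ ∅) ∩ D.U ∅ L k = D.N i \ ∅ := by
        apply Finset.eq_of_subset_of_card_le Finset.inter_subset_left
        rw [Finset.sdiff_empty, D.card_N]
        unfold kc at hcon
        rw [Finset.sdiff_empty] at hcon
        omega
      rw [Finset.sdiff_empty] at h1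
      exact Finset.inter_eq_left.1 h1
    have hcl : closure (⋃₀ {B | IsFace D.P B ∧ B ≠ D.P} \ unionFirst L k) ⊆
        ⋃ g ∈ ((D.N i)ᶜ : Finset κ), D.Q {g} := by
      apply closure_minimal
      · rintro x ⟨⟨B, ⟨hB, hBne⟩, hxB⟩, hxU⟩
        rw [← D.Q_empty] at hB hBne
        obtain ⟨g, hg, hgJ, hBg⟩ := D.face_sub hB hBne
        have hxg : x ∈ D.Q (insert g ∅) := hBg hxB
        simp only [Set.mem_iUnion]
        refine ⟨g, ?_, hxg⟩
        rw [Finset.mem_compl]
        intro hgN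
        exact hxU (mem_unionFirst.2 ⟨_, (D.mem_U.1 (hsub hgN)).2, hxg⟩)
      · exact Set.Finite.isClosed_biUnion (Finset.finite_toSet _) (fun g _ => D.isClosed_Q {g})
    have h2 := hcl (h i).2
    simp only [Set.mem_iUnion] at h2
    obtain ⟨g, hg, hig⟩ := h2
    rw [Finset.mem_compl] at hg
    exact hg (D.mem_J.1 (D.v_mem_Q.1 hig) (Finset.mem_singleton_self g))

end SData

end Pool.Agent.Helper486.Ham

namespace Pool.Agent.Helper486.Cell

open Finset Real Ham

lemma vv_last_ne (i : Fin 600) : vv i (Fin.last 3) ≠ 1 := by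
  have h : vv i (Fin.last 3) = rv (dg (vcode i) 3) / √8 := rfl
  rw [h]
  have h1 := rv_lt _ (dg_lt (vcode i) 3)
  have h2 : rv (dg (vcode i) 3) / √8 < 1 := by
    rw [div_lt_one sqrt8_pos]; exact h1
  exact ne_of_lt h2

open Classical in
/-- the counterexample: the stereographic image of the vertices of the 120-cell -/
noncomputable def TT : Finset (EuclideanSpace ℝ (Fin 3)) :=
  Finset.univ.image (fun i : Fin 600 => tau (vv i))

lemma sigma_TT : sigma '' (TT : Set (EuclideanSpace ℝ (Fin 3))) = Set.range vv := by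
  have h : ∀ i, sigma (tau (vv i)) = vv i := fun i => sigma_tau _ (norm_vv i) (vv_last_ne i)
  ext y
  constructor
  · rintro ⟨x, hx, rfl⟩
    simp only [TT, Finset.coe_image, Finset.coe_univ, Set.image_univ, Set.mem_range] at hx
    obtain ⟨i, rfl⟩ := hx
    exact ⟨i, (h i).symm⟩
  · rintro ⟨i, rfl⟩
    refine ⟨tau (vv i), ?_, h i⟩
    simp [TT]

lemma hull_TT : hullPolytope TT = cell.P := by
  unfold hullPolytope SData.P
  rw [sigma_TT]
  rfl

lemma span_sigma_TT' : affineSpan ℝ (sigma '' (TT : Set (EuclideanSpace ℝ (Fin 3)))) = ⊤ := by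
  rw [sigma_TT]; exact cell.affineSpan_v

lemma span_TT' : affineSpan ℝ (TT : Set (EuclideanSpace ℝ (Fin 3))) = ⊤ := by
  apply affineSpan_of_sigma _ _ span_sigma_TT'
  exact ⟨tau (vv 0), by simp [TT]⟩

lemma span_sigma_TT : Spans (sigma '' (TT : Set (Sp 3))) := by
  intro y
  rw [span_sigma_TT']
  exact AffineSubspace.mem_top _ _ _

lemma span_TT : Spans (TT : Set (Sp 3)) := by
  intro y
  rw [span_TT']
  exact AffineSubspace.mem_top _ _ _

end Pool.Agent.Helper486.Cell
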