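import Pool.Agent.Helper486.HamDefs

namespace Pool.Agent.Helper486.Ham

open Metric Set Finset

/-- Vertex and facet data of a simple 4-dimensional polytope. -/
structure SData (ι κ : Type)
    [Fintype ι] [DecidableEq ι] [Fintype κ] [DecidableEq κ] where
  v : ι → (Sp 4)
  l : κ → (Sp 4) →L[ℝ] ℝ
  c : ℝ
  N : ι → Finset κ
  le : ∀ f i, l f (v i) ≤ c
  eq_iff : ∀ f i, l f (v i) = c ↔ f ∈ N i
  card_N : ∀ i, (N i).card = 4
  nb : ∀ i, ∀ f ∈ N i, ∃ j, (N i).erase f ⊆ N j ∧ f ∉ N j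
  finrank_E : Module.finrank ℝ (Sp 4) = 4
  ne : Nonempty ι

namespace SData

variable {ι κ : Type} [Fintype ι] [DecidableEq ι] [Fintype κ] [DecidableEq κ] (D : SData ι κ)

/-- the polytope -/
def P : Set (Sp 4) := convexHull ℝ (Set.range D.v)

/-- the face cut out by the facets in `S` -/
def Q (S : Finset κ) : Set (Sp 4) := {x ∈ D.P | ∀ f ∈ S, D.l f x = D.c}

/-- the vertices lying on all facets of `S` -/
def J (S : Finset κ) : Finset ι := Finset.univ.filter (fun i => S ⊆ D.N i)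

lemma mem_J {S : Finset κ} {i : ι} : i ∈ D.J S ↔ S ⊆ D.N i := by simp [J]

lemma v_mem_P (i : ι) : D.v i ∈ D.P := subset_convexHull ℝ _ ⟨i, rfl⟩

lemma v_mem_Q {S : Finset κ} {i : ι} : D.v i ∈ D.Q S ↔ i ∈ D.J S := by
  rw [mem_J]
  constructor
  · intro h f hf
    exact (D.eq_iff f i).1 (h.2 f hf)
  · intro h
    exact ⟨D.v_mem_P i, fun f hf => (D.eq_iff f i).2 (h hf)⟩

lemma Q_empty : D.Q ∅ = D.P := by
  ext x; simp [Q]

lemma Q_mono {S S' : Finset κ} (h : S ⊆ S') : D.Q S' ⊆ D.Q S := fun _ hx =>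
  ⟨hx.1, fun f hf => hx.2 f (h hf)⟩

/-- points of the polytope are convex combinations of the vertices -/
lemma mem_P_iff {x : (Sp 4)} : x ∈ D.P ↔ ∃ w : ι → ℝ, (∀ i, 0 ≤ w i) ∧ ∑ i, w i = 1 ∧
    ∑ i, w i • D.v i = x := by
  constructor
  · intro hx
    have hconv : Convex ℝ {x : (Sp 4) | ∃ w : ι → ℝ, (∀ i, 0 ≤ w i) ∧ ∑ i, w i = 1 ∧
        ∑ i, w i • D.v i = x} := by
      rintro x ⟨w, hw0, hw1, rfl⟩ y ⟨u, hu0, hu1, rfl⟩ a b ha hb hab
      refine ⟨fun i => a * w i + b * u i, fun i => by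
        have := hw0 i; have := hu0 i; positivity, ?_, ?_⟩
      · rw [Finset.sum_add_distrib, ← Finset.mul_sum, ← Finset.mul_sum, hw1, hu1]; simpa using hab
      · simp only [add_smul, Finset.sum_add_distrib, Finset.smul_sum, mul_smul]
    have hsub : Set.range D.v ⊆ {x : (Sp 4) | ∃ w : ι → ℝ, (∀ i, 0 ≤ w i) ∧ ∑ i, w i = 1 ∧
        ∑ i, w i • D.v i = x} := by
      rintro _ ⟨i, rfl⟩
      refine ⟨fun j => if j = i then 1 else 0, fun j => by dsimp only; split_ifs <;> norm_num, by simp, by simp⟩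
    exact convexHull_min hsub hconv hx
  · rintro ⟨w, hw0, hw1, rfl⟩
    exact (convex_convexHull ℝ _).sum_mem (fun i _ => hw0 i) hw1 (fun i _ => D.v_mem_P i)

lemma le_P {x : (Sp 4)} (hx : x ∈ D.P) (f : κ) : D.l f x ≤ D.c := by
  obtain ⟨w, hw0, hw1, rfl⟩ := D.mem_P_iff.1 hx
  rw [map_sum]
  calc ∑ i, D.l f (w i • D.v i) = ∑ i, w i * D.l f (D.v i) := by
        refine Finset.sum_congr rfl fun i _ => by rw [map_smul, smul_eq_mul]
    _ ≤ ∑ i, w i * D.c := Finset.sum_le_sum fun i _ => mul_le_mul_of_nonneg_left (D.le f i) (hw0 i)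
    _ = D.c := by rw [← Finset.sum_mul, hw1, one_mul]

/-- a point of a face is a convex combination of the vertices of that face -/
lemma mem_Q_weights {S : Finset κ} {x : (Sp 4)} (hx : x ∈ D.Q S) : ∃ w : ι → ℝ, (∀ i, 0 ≤ w i) ∧
    ∑ i, w i = 1 ∧ ∑ i, w i • D.v i = x ∧ ∀ i, w i ≠ 0 → i ∈ D.J S := by
  obtain ⟨w, hw0, hw1, hwx⟩ := D.mem_P_iff.1 hx.1
  refine ⟨w, hw0, hw1, hwx, fun i hi => ?_⟩
  rw [mem_J]
  intro f hf
  by_contra hfi
  have hlt : D.l f (D.v i) < D.c := lt_of_le_of_ne (D.le f i) (fun h => hfi ((D.eq_iff f i).1 h))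
  have h1 : D.l f x < D.c := by
    rw [← hwx, map_sum]
    calc ∑ i, D.l f (w i • D.v i) = ∑ i, w i * D.l f (D.v i) := by
          refine Finset.sum_congr rfl fun i _ => by rw [map_smul, smul_eq_mul]
      _ < ∑ i, w i * D.c := by
          refine Finset.sum_lt_sum (fun i _ => mul_le_mul_of_nonneg_left (D.le f i) (hw0 i)) ⟨i, Finset.mem_univ i, ?_⟩
          exact mul_lt_mul_of_pos_left hlt (lt_of_le_of_ne (hw0 i) (Ne.symm hi))
      _ = D.c := by rw [← Finset.sum_mul, hw1, one_mul]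
  exact absurd (hx.2 f hf) (ne_of_lt h1)

lemma J_nonempty_of_Q {S : Finset κ} {x : (Sp 4)} (hx : x ∈ D.Q S) : (D.J S).Nonempty := by
  obtain ⟨w, hw0, hw1, hwx, hw⟩ := D.mem_Q_weights hx
  by_contra h
  rw [Finset.not_nonempty_iff_eq_empty] at h
  have : ∀ i, w i = 0 := fun i => by
    by_contra hi
    have := hw i hi
    rw [h] at this; simp at this
  simp [this] at hw1

/-- a chosen neighbour of `i` away from facet `f` -/
noncomputable def w (i : ι) (f : κ) (hf : f ∈ D.N i) : ι := (D.nb i f hf).choose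

lemma w_sub (i : ι) (f : κ) (hf : f ∈ D.N i) : (D.N i).erase f ⊆ D.N (D.w i f hf) :=
  (D.nb i f hf).choose_spec.1

lemma w_not (i : ι) (f : κ) (hf : f ∈ D.N i) : f ∉ D.N (D.w i f hf) :=
  (D.nb i f hf).choose_spec.2

lemma l_w_of_ne (i : ι) (f g : κ) (hf : f ∈ D.N i) (hg : g ∈ D.N i) (h : g ≠ f) :
    D.l g (D.v (D.w i f hf)) = D.c :=
  (D.eq_iff _ _).2 (D.w_sub i f hf (Finset.mem_erase.2 ⟨h, hg⟩))

lemma l_w_self (i : ι) (f : κ) (hf : f ∈ D.N i) : D.l f (D.v (D.w i f hf)) < D.c :=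
  lt_of_le_of_ne (D.le _ _) (fun h => D.w_not i f hf ((D.eq_iff _ _).1 h))

/-- edge direction at `i` -/
noncomputable def e (i : ι) (f : D.N i) : (Sp 4) := D.v (D.w i f f.2) - D.v i

lemma l_e_ne (i : ι) (f g : D.N i) (h : g ≠ f) : D.l g (D.e i f) = 0 := by
  rw [e, map_sub, D.l_w_of_ne i f g f.2 g.2 (fun h' => h (Subtype.ext h')),
    (D.eq_iff _ _).2 g.2, sub_self]

lemma l_e_self (i : ι) (f : D.N i) : D.l f (D.e i f) < 0 := by
  rw [e, map_sub, (D.eq_iff _ _).2 f.2]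
  linarith [D.l_w_self i f f.2]

lemma linInd_e (i : ι) : LinearIndependent ℝ (D.e i) := by
  rw [Fintype.linearIndependent_iff]
  intro g hg f
  have h := congrArg (D.l f) hg
  rw [map_sum, map_zero, Finset.sum_eq_single f] at h
  · rw [map_smul, smul_eq_mul] at h
    exact (mul_eq_zero.1 h).resolve_right (ne_of_lt (D.l_e_self i f))
  · intro b _ hb
    rw [map_smul, D.l_e_ne i b f (Ne.symm hb), smul_zero]
  · intro h; exact absurd (Finset.mem_univ _) h

lemma card_N_type (i : ι) : Fintype.card (D.N i) = 4 := by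
  rw [Fintype.card_coe, D.card_N]

/-- coordinates at a vertex -/
lemma coord (i : ι) (x : (Sp 4)) : x - D.v i = ∑ f : D.N i,
    (D.l f (x - D.v i) / D.l f (D.e i f)) • D.e i f := by
  have : FiniteDimensional ℝ (Sp 4) := FiniteDimensional.of_finrank_pos (by rw [D.finrank_E]; norm_num)
  have : Nonempty (D.N i) := by
    rw [← Fintype.card_pos_iff, D.card_N_type]; norm_num
  have hspan : Submodule.span ℝ (Set.range (D.e i)) = ⊤ :=
    (D.linInd_e i).span_eq_top_of_card_eq_finrank (by rw [D.card_N_type, D.finrank_E])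
  have hx : x - D.v i ∈ Submodule.span ℝ (Set.range (D.e i)) := by rw [hspan]; trivial
  rw [Submodule.mem_span_range_iff_exists_fun] at hx
  obtain ⟨a, ha⟩ := hx
  have key : ∀ f : D.N i, D.l f (x - D.v i) / D.l f (D.e i f) = a f := by
    intro f
    rw [← ha, map_sum, Finset.sum_eq_single f]
    · rw [map_smul, smul_eq_mul, mul_div_assoc, div_self (ne_of_lt (D.l_e_self i f)), mul_one]
    · intro b _ hb
      rw [map_smul, D.l_e_ne i b f (Ne.symm hb), smul_zero]
    · intro h; exact absurd (Finset.mem_univ _) h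
  simp_rw [key, ha]

/-- classification of proper faces, first step -/
lemma face_sub {S : Finset κ} {B : Set (Sp 4)} (hB : IsFace (D.Q S) B) (hne : B ≠ D.Q S) :
    ∃ g, g ∉ S ∧ (D.J (insert g S)).Nonempty ∧ B ⊆ D.Q (insert g S) := by
  obtain ⟨⟨x0, hx0⟩, hexp⟩ := hB
  obtain ⟨l, hl⟩ := hexp ⟨x0, hx0⟩
  have hx0' := hx0
  rw [hl] at hx0'
  obtain ⟨hx0Q, hx0max⟩ := hx0'
  obtain ⟨w, hw0, hw1, hwx, hw⟩ := D.mem_Q_weights hx0Q
  -- some vertex attains the maximum
  obtain ⟨i, hiJ, hil⟩ : ∃ i, i ∈ D.J S ∧ l (D.v i) = l x0 := by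
    by_contra hcon
    push Not at hcon
    have hlt : ∀ j ∈ D.J S, l (D.v j) < l x0 := fun j hj =>
      lt_of_le_of_ne (hx0max _ (D.v_mem_Q.2 hj)) (hcon j hj)
    have h1 : l x0 < l x0 := by
      nth_rewrite 1 [← hwx]
      rw [map_sum]
      calc ∑ i, l (w i • D.v i) = ∑ i, w i * l (D.v i) := by
            refine Finset.sum_congr rfl fun i _ => by rw [map_smul, smul_eq_mul]
        _ < ∑ i, w i * l x0 := by
            obtain ⟨j, hj⟩ : ∃ j, w j ≠ 0 := by
              by_contra h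
              push Not at h
              simp [h] at hw1
            refine Finset.sum_lt_sum (fun k _ => ?_) ⟨j, Finset.mem_univ j, ?_⟩
            · by_cases hk : w k = 0
              · rw [hk, zero_mul, zero_mul]
              · exact mul_le_mul_of_nonneg_left (hlt k (hw k hk)).le (hw0 k)
            · exact mul_lt_mul_of_pos_left (hlt j (hw j hj))
                (lt_of_le_of_ne (hw0 j) (Ne.symm hj))
        _ = l x0 := by rw [← Finset.sum_mul, hw1, one_mul]
    exact lt_irrefl _ h1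
  have hSi : S ⊆ D.N i := D.mem_J.1 hiJ
  have hmax : ∀ y ∈ D.Q S, l y ≤ l (D.v i) := fun y hy => by rw [hil]; exact hx0max y hy
  have hwQ : ∀ f : D.N i, f.1 ∉ S → D.v (D.w i f f.2) ∈ D.Q S := by
    intro f hf
    rw [D.v_mem_Q, D.mem_J]
    intro g hg
    exact D.w_sub i f f.2 (Finset.mem_erase.2 ⟨fun h => hf (h ▸ hg), hSi hg⟩)
  have hcoef0 : ∀ x ∈ D.Q S, ∀ f : D.N i, f.1 ∈ S → D.l f (x - D.v i) = 0 := by
    intro x hx f hf
    rw [map_sub, hx.2 f hf, (D.eq_iff _ _).2 f.2, sub_self]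
  have hle0 : ∀ f : D.N i, f.1 ∉ S → l (D.e i f) ≤ 0 := by
    intro f hf
    have := hmax _ (hwQ f hf)
    rw [e, map_sub]; linarith
  obtain ⟨g, hgS, hg⟩ : ∃ g : D.N i, g.1 ∉ S ∧ l (D.e i g) ≠ 0 := by
    by_contra hcon
    push Not at hcon
    apply hne
    rw [hl]
    ext x
    constructor
    · exact fun h => h.1
    · intro hx
      refine ⟨hx, fun y hy => ?_⟩
      have : l (x - D.v i) = 0 := by
        rw [D.coord i x, map_sum]
        refine Finset.sum_eq_zero fun f _ => ?_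
        rw [map_smul]
        by_cases hf : f.1 ∈ S
        · rw [hcoef0 x hx f hf, zero_div, zero_smul]
        · rw [hcon f hf, smul_zero]
      rw [map_sub] at this
      have h2 := hmax y hy
      linarith
  have hgneg : l (D.e i g) < 0 := lt_of_le_of_ne (hle0 g hgS) hg
  refine ⟨g.1, hgS, ⟨i, D.mem_J.2 (Finset.insert_subset g.2 hSi)⟩, fun x hx => ?_⟩
  rw [hl] at hx
  obtain ⟨hxQ, hxmax⟩ := hx
  have hlx : l (x - D.v i) = 0 := by
    have h1 := hxmax (D.v i) (D.v_mem_Q.2 hiJ)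
    have h2 := hmax x hxQ
    rw [map_sub]; linarith
  have hterm : ∀ f : D.N i, (D.l f (x - D.v i) / D.l f (D.e i f)) * l (D.e i f) ≤ 0 := by
    intro f
    by_cases hf : f.1 ∈ S
    · rw [hcoef0 x hxQ f hf, zero_div, zero_mul]
    · refine mul_nonpos_of_nonneg_of_nonpos (div_nonneg_of_nonpos ?_ (D.l_e_self i f).le) (hle0 f hf)
      rw [map_sub, (D.eq_iff _ _).2 f.2]
      linarith [D.le_P hxQ.1 f.1]
  have hsum : ∑ f : D.N i, (D.l f (x - D.v i) / D.l f (D.e i f)) * l (D.e i f) = 0 := by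
    rw [← hlx]
    conv_rhs => rw [D.coord i x, map_sum]
    refine Finset.sum_congr rfl fun f _ => by rw [map_smul, smul_eq_mul]
  have hz := (Finset.sum_eq_zero_iff_of_nonpos (fun f _ => hterm f)).1 hsum g (Finset.mem_univ _)
  have hz2 : D.l g (x - D.v i) = 0 := by
    rcases mul_eq_zero.1 hz with h | h
    · rcases div_eq_zero_iff.1 h with h | h
      · exact h
      · exact absurd h (ne_of_lt (D.l_e_self i g))
    · exact absurd h hg
  refine ⟨hxQ.1, fun f hf => ?_⟩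
  rcases Finset.mem_insert.1 hf with rfl | hf
  · rw [map_sub, (D.eq_iff _ _).2 g.2] at hz2
    linarith
  · exact hxQ.2 f hf

lemma exposed_Q {S S' : Finset κ} (h : S ⊆ S') (hJ : (D.J S').Nonempty) :
    IsFace (D.Q S) (D.Q S') := by
  obtain ⟨i, hi⟩ := hJ
  refine ⟨⟨D.v i, D.v_mem_Q.2 hi⟩, fun _ => ⟨∑ f ∈ S', D.l f, ?_⟩⟩
  have hval : ∀ x, (∑ f ∈ S', D.l f) x = ∑ f ∈ S', D.l f x := fun x => by
    simp
  ext x
  constructor
  · intro hx
    refine ⟨D.Q_mono h hx, fun y hy => ?_⟩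
    rw [hval, hval]
    refine Finset.sum_le_sum fun f hf => ?_
    rw [hx.2 f hf]
    exact D.le_P hy.1 f
  · rintro ⟨hxQ, hxmax⟩
    refine ⟨hxQ.1, ?_⟩
    have h1 := hxmax (D.v i) (D.Q_mono h (D.v_mem_Q.2 hi))
    rw [hval, hval] at h1
    have h2 : ∑ f ∈ S', D.l f (D.v i) = ∑ f ∈ S', D.c :=
      Finset.sum_congr rfl fun f hf => (D.v_mem_Q.2 hi).2 f hf
    rw [h2] at h1
    have h3 : ∑ f ∈ S', (D.c - D.l f x) = 0 := by
      rw [Finset.sum_sub_distrib]
      have h4 : ∑ f ∈ S', D.l f x ≤ ∑ f ∈ S', D.c :=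
        Finset.sum_le_sum fun f _ => D.le_P hxQ.1 f
      linarith
    intro f hf
    have h5 := (Finset.sum_eq_zero_iff_of_nonneg
      (fun f _ => sub_nonneg.2 (D.le_P hxQ.1 f))).1 h3 f hf
    linarith

lemma polyDim_Q {S : Finset κ} (hJ : (D.J S).Nonempty) : polyDim (D.Q S) = 4 - S.card := by
  have : FiniteDimensional ℝ (Sp 4) := FiniteDimensional.of_finrank_pos (by rw [D.finrank_E]; norm_num)
  obtain ⟨i, hi⟩ := hJ
  have hSi : S ⊆ D.N i := D.mem_J.1 hi
  let b : {f : D.N i // f.1 ∉ S} → (Sp 4) := fun f => D.e i f.1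
  have hb : LinearIndependent ℝ b := (D.linInd_e i).comp _ Subtype.val_injective
  have hspan : vectorSpan ℝ (D.Q S) = Submodule.span ℝ (Set.range b) := by
    rw [vectorSpan_eq_span_vsub_set_right ℝ (D.v_mem_Q.2 hi)]
    apply le_antisymm
    · rw [Submodule.span_le]
      rintro _ ⟨x, hx, rfl⟩
      simp only [vsub_eq_sub, SetLike.mem_coe]
      rw [D.coord i x]
      refine Submodule.sum_mem _ fun f _ => ?_
      by_cases hf : f.1 ∈ S
      · rw [map_sub, hx.2 f hf, (D.eq_iff _ _).2 f.2, sub_self, zero_div, zero_smul]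
        exact Submodule.zero_mem _
      · exact Submodule.smul_mem _ _ (Submodule.subset_span ⟨⟨f, hf⟩, rfl⟩)
    · rw [Submodule.span_le]
      rintro _ ⟨f, rfl⟩
      refine Submodule.subset_span ⟨D.v (D.w i f.1 f.1.2), ?_, rfl⟩
      rw [D.v_mem_Q, D.mem_J]
      intro g hg
      exact D.w_sub i f.1 f.1.2 (Finset.mem_erase.2 ⟨fun h => f.2 (h ▸ hg), hSi hg⟩)
  rw [polyDim, hspan, finrank_span_eq_card hb, Fintype.card_subtype_compl, D.card_N_type]
  congr 1
  rw [Fintype.card_subtype, ← Finset.card_image_of_injective _ Subtype.val_injective]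
  congr 1
  ext f
  simp only [Finset.mem_image, Finset.mem_filter, Finset.mem_univ, true_and, Subtype.exists,
    exists_and_right, exists_eq_right]
  constructor
  · rintro ⟨_, h⟩; exact h
  · intro h; exact ⟨hSi h, h⟩

lemma card_le_of_J {S : Finset κ} (hJ : (D.J S).Nonempty) : S.card ≤ 4 := by
  obtain ⟨i, hi⟩ := hJ
  rw [← D.card_N i]
  exact Finset.card_le_card (D.mem_J.1 hi)

lemma isFacet_iff {S : Finset κ} (hJ : (D.J S).Nonempty) (B : Set (Sp 4)) :
    IsFacet (D.Q S) B ↔ ∃ g, g ∉ S ∧ (D.J (insert g S)).Nonempty ∧ B = D.Q (insert g S) := by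
  have : FiniteDimensional ℝ (Sp 4) := FiniteDimensional.of_finrank_pos (by rw [D.finrank_E]; norm_num)
  constructor
  · rintro ⟨hB, hdim⟩
    have hne : B ≠ D.Q S := by
      rintro rfl; omega
    obtain ⟨g, hg, hgJ, hBg⟩ := D.face_sub hB hne
    refine ⟨g, hg, hgJ, ?_⟩
    by_contra hne2
    have hB2 : IsFace (D.Q (insert g S)) B := by
      refine ⟨hB.1, fun h => ?_⟩
      obtain ⟨l, hl⟩ := hB.2 h
      refine ⟨l, ?_⟩
      ext x
      constructor
      · intro hx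
        refine ⟨hBg hx, fun y hy => ?_⟩
        rw [hl] at hx
        exact hx.2 y (D.Q_mono (Finset.subset_insert _ _) hy)
      · rintro ⟨hx1, hx2⟩
        obtain ⟨z, hz⟩ := h
        have hz' := hz
        rw [hl] at hz' ⊢
        refine ⟨D.Q_mono (Finset.subset_insert _ _) hx1, fun y hy => ?_⟩
        exact (hz'.2 y hy).trans (hx2 z (hBg hz))
    obtain ⟨g', hg', hgJ', hBg'⟩ := D.face_sub hB2 hne2
    have h1 : polyDim B ≤ polyDim (D.Q (insert g' (insert g S))) :=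
      Submodule.finrank_mono (vectorSpan_mono ℝ hBg')
    rw [D.polyDim_Q hgJ', Finset.card_insert_of_notMem hg', Finset.card_insert_of_notMem hg] at h1
    rw [D.polyDim_Q hJ] at hdim
    have h2 := D.card_le_of_J hgJ'
    rw [Finset.card_insert_of_notMem hg', Finset.card_insert_of_notMem hg] at h2
    omega
  · rintro ⟨g, hg, hgJ, rfl⟩
    refine ⟨D.exposed_Q (Finset.subset_insert _ _) hgJ, ?_⟩
    rw [D.polyDim_Q hJ, D.polyDim_Q hgJ, Finset.card_insert_of_notMem hg]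
    have h2 := D.card_le_of_J hgJ
    rw [Finset.card_insert_of_notMem hg] at h2
    omega

/-- the centroid of a face -/
noncomputable def m (S : Finset κ) : (Sp 4) := ∑ i ∈ D.J S, ((D.J S).card : ℝ)⁻¹ • D.v i

lemma m_mem_iff {S : Finset κ} (hJ : (D.J S).Nonempty) (S' : Finset κ) :
    D.m S ∈ D.Q S' ↔ S' ⊆ S := by
  have hc : (0 : ℝ) < (D.J S).card := by exact_mod_cast hJ.card_pos
  have hsum : ∑ i ∈ D.J S, ((D.J S).card : ℝ)⁻¹ = 1 := by
    rw [Finset.sum_const, nsmul_eq_mul, mul_inv_cancel₀ hc.ne']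
  have hval : ∀ f, D.l f (D.m S) = ∑ i ∈ D.J S, ((D.J S).card : ℝ)⁻¹ * D.l f (D.v i) := by
    intro f
    rw [m, map_sum]
    exact Finset.sum_congr rfl fun i _ => by rw [map_smul, smul_eq_mul]
  constructor
  · intro hm h hh
    by_contra hhS
    have h1 := hm.2 h hh
    rw [hval] at h1
    have h2 : ∑ i ∈ D.J S, ((D.J S).card : ℝ)⁻¹ * (D.c - D.l h (D.v i)) = 0 := by
      simp_rw [mul_sub]
      rw [Finset.sum_sub_distrib, h1, ← Finset.sum_mul, hsum, one_mul, sub_self]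
    have h3 := (Finset.sum_eq_zero_iff_of_nonneg
      (fun i _ => mul_nonneg (inv_nonneg.2 hc.le) (sub_nonneg.2 (D.le h i)))).1 h2
    have h4 : ∀ i ∈ D.J S, h ∈ D.N i := by
      intro i hi
      rw [← D.eq_iff]
      rcases mul_eq_zero.1 (h3 i hi) with h5 | h5
      · exact absurd h5 (inv_ne_zero hc.ne')
      · linarith
    obtain ⟨i, hi⟩ := hJ
    have hhi := h4 i hi
    have hwJ : D.w i h hhi ∈ D.J S := by
      rw [D.mem_J]
      intro g hg
      exact D.w_sub i h hhi (Finset.mem_erase.2 ⟨fun h' => hhS (h' ▸ hg), D.mem_J.1 hi hg⟩)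
    exact D.w_not i h hhi (h4 _ hwJ)
  · intro hS
    refine ⟨(convex_convexHull ℝ _).sum_mem (fun i _ => inv_nonneg.2 hc.le) hsum
      (fun i _ => D.v_mem_P i), fun f hf => ?_⟩
    rw [hval]
    calc ∑ i ∈ D.J S, ((D.J S).card : ℝ)⁻¹ * D.l f (D.v i)
        = ∑ i ∈ D.J S, ((D.J S).card : ℝ)⁻¹ * D.c := by
          refine Finset.sum_congr rfl fun i hi => ?_
          rw [(D.eq_iff f i).2 (D.mem_J.1 hi (hS hf))]
      _ = D.c := by rw [← Finset.sum_mul, hsum, one_mul]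

end SData

end Pool.Agent.Helper486.Ham
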