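import Mathlib

namespace Pool.Agent.Helper486.Ham

open Metric Set

/-- Euclidean space `ℝ^n`. -/
abbrev Sp (n : ℕ) := EuclideanSpace ℝ (Fin n)

/-- Inverse stereographic projection from `ℝ^d` to the unit sphere of `ℝ^(d+1)`:
`x ↦ (2x, ‖x‖² - 1) / (‖x‖² + 1)`. -/
noncomputable def sigma {d : ℕ} (x : Sp d) : Sp (d + 1) :=
  WithLp.toLp 2 (Fin.snoc (α := fun _ => ℝ) (fun i => 2 * x i / (‖x‖ ^ 2 + 1))
    ((‖x‖ ^ 2 - 1) / (‖x‖ ^ 2 + 1)))

/-- The affine hull of `X` is the whole space: `X` is not contained in an affine hyperplane. -/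
def Spans {n : ℕ} (X : Set (Sp n)) : Prop := ∀ y : Sp n, y ∈ affineSpan ℝ X

/-- `B` is a nonempty face of the polytope `Q` (the set of points of `Q` at which some
linear functional attains its maximum over `Q`; `Q` itself is allowed). -/
def IsFace {n : ℕ} (Q B : Set (Sp n)) : Prop := B.Nonempty ∧ IsExposed ℝ Q B

/-- The dimension of a polytope (the dimension of its affine hull). -/
noncomputable def polyDim {n : ℕ} (Q : Set (Sp n)) : ℕ := Module.finrank ℝ (vectorSpan ℝ Q)

/-- `B` is a facet of the polytope `Q`: a face of dimension one less. -/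
def IsFacet {n : ℕ} (Q B : Set (Sp n)) : Prop := IsFace Q B ∧ polyDim B + 1 = polyDim Q

/-- The union of the first `j` members of a list of sets. -/
def unionFirst {n : ℕ} (L : List (Set (Sp n))) (j : ℕ) : Set (Sp n) := ⋃ G ∈ L.take j, G

/-- The list `L` enumerates all facets of `Q`, without repetition. -/
def ListsFacets {n : ℕ} (Q : Set (Sp n)) (L : List (Set (Sp n))) : Prop :=
  L.Nodup ∧ ∀ F, F ∈ L ↔ IsFacet Q F

/-- The recursive step in the definition of a shelling: `L` enumerates all facets of `Q`, and for
every facet in the list except the first one, its intersection with the union of the previous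
ones is nonempty and is the union of the first few members of some list which is in relation `S`
to that facet. -/
def ShellStep {n : ℕ} (S : Set (Sp n) → List (Set (Sp n)) → Prop) (Q : Set (Sp n))
    (L : List (Set (Sp n))) : Prop :=
  ListsFacets Q L ∧ ∀ (j : ℕ) (hj : j < L.length), 0 < j →
    (L[j] ∩ unionFirst L j).Nonempty ∧
      ∃ L' : List (Set (Sp n)), S L[j] L' ∧
        ∃ r ≤ L'.length, L[j] ∩ unionFirst L j = unionFirst L' r

/-- `IsShelling k Q L`: the list `L` is a shelling of the `k`-dimensional boundary complex of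
the `(k+1)`-dimensional polytope `Q`. If `k = 0` (so `Q` is a segment and its facets are its two
end points) every order of the facets is a shelling; if `k ≥ 1`, then for every facet in the
list except the first one, its intersection with the union of the previous ones is nonempty and
is the union of the first few facets in some shelling of the boundary complex of that facet. -/
def IsShelling {n : ℕ} : ℕ → Set (Sp n) → List (Set (Sp n)) → Prop
  | 0 => ListsFacets
  | k + 1 => ShellStep (IsShelling k)

/-- The polytope `H(T') = conv (sigma T)`. -/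
noncomputable def hullPolytope {d : ℕ} (T : Finset (Sp d)) : Set (Sp (d + 1)) :=
  convexHull ℝ (sigma '' (T : Set (Sp d)))

/-- The Delaunay complex `D(T)`: all nonempty proper faces of `H(T')`. -/
def delaunayComplex {d : ℕ} (T : Finset (Sp d)) : Set (Set (Sp (d + 1))) :=
  {B | IsFace (hullPolytope T) B ∧ B ≠ hullPolytope T}

/-- `X` is homeomorphic to the unit sphere `S^(m-1)` of `ℝ^m`. -/
def IsTopSphere {n : ℕ} (m : ℕ) (X : Set (Sp n)) : Prop :=
  Nonempty (X ≃ₜ sphere (0 : Sp m) 1)

/-- `X` is homeomorphic to the closed unit ball of `ℝ^m`. -/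
def IsTopBall {n : ℕ} (m : ℕ) (X : Set (Sp n)) : Prop :=
  Nonempty (X ≃ₜ closedBall (0 : Sp m) 1)

/-- `K` is a Hamiltonian sphere in `D(T)`: a subcomplex (a set of faces of `D(T)` which with
a face contains all its nonempty faces) whose underlying set is homeomorphic to the
sphere `S^(d-1)` and whose vertex set is all of `T`. -/
def IsHamiltonianSphere {d : ℕ} (T : Finset (Sp d)) (K : Set (Set (Sp (d + 1)))) : Prop :=
  K ⊆ delaunayComplex T ∧ (∀ B ∈ K, ∀ C, IsFace B C → C ∈ K) ∧
    IsTopSphere d (⋃₀ K) ∧ ∀ t ∈ T, {sigma t} ∈ K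

/-- The boundary of the subset `A` of `X`, relative to `X`. -/
def boundaryIn {n : ℕ} (X A : Set (Sp n)) : Set (Sp n) := A ∩ closure (X \ A)

/-- There are a Hamiltonian sphere `K` in `D(T)`, a shelling `L` of `D(T)` and an index `k` such
that the union of the first `k` facets is a `d`-ball with boundary `|K|`. -/
def HasShellableHamiltonianSphere {d : ℕ} (T : Finset (Sp d)) : Prop :=
  ∃ (K : Set (Set (Sp (d + 1)))) (L : List (Set (Sp (d + 1)))) (k : ℕ),
    IsHamiltonianSphere T K ∧ IsShelling d (hullPolytope T) L ∧ k ≤ L.length ∧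
      IsTopBall d (unionFirst L k) ∧ boundaryIn (⋃₀ delaunayComplex T) (unionFirst L k) = ⋃₀ K

end Pool.Agent.Helper486.Ham
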