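import Pool.Agent.Helper486.Pent

namespace Pool.Agent.Helper486.Ham

open Metric Set Finset Topology Topo

namespace SData

variable {ι κ : Type} [Fintype ι] [DecidableEq ι] [Fintype κ] [DecidableEq κ] (D : SData ι κ)

/-- bump function of the vertex `i` -/
noncomputable def bw (i : ι) (x : Sp 4) : ℝ := ∏ f ∈ (D.N i)ᶜ, (D.c - D.l f x)

noncomputable def bs (x : Sp 4) : ℝ := ∑ i, D.bw i x

noncomputable def lam (i : ι) (x : Sp 4) : ℝ := D.bw i x / D.bs x

lemma bw_nonneg (i : ι) {x : Sp 4} (hx : x ∈ D.P) : 0 ≤ D.bw i x :=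
  Finset.prod_nonneg fun f _ => sub_nonneg.2 (D.le_P hx f)

lemma bs_pos {x : Sp 4} (hx : x ∈ D.P) : 0 < D.bs x := by
  classical
  set S : Finset κ := Finset.univ.filter (fun f => D.l f x = D.c) with hS
  have hxS : x ∈ D.Q S := ⟨hx, fun f hf => (Finset.mem_filter.1 hf).2⟩
  obtain ⟨i, hi⟩ := D.J_nonempty_of_Q hxS
  have h1 : 0 < D.bw i x := by
    apply Finset.prod_pos
    intro f hf
    rw [sub_pos]
    refine lt_of_le_of_ne (D.le_P hx f) (fun h => ?_)
    rw [Finset.mem_compl] at hf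
    exact hf (D.mem_J.1 hi (Finset.mem_filter.2 ⟨Finset.mem_univ _, h⟩))
  exact Finset.sum_pos' (fun j _ => D.bw_nonneg j hx) ⟨i, Finset.mem_univ _, h1⟩

lemma lam_sum {x : Sp 4} (hx : x ∈ D.P) : ∑ i, D.lam i x = 1 := by
  unfold lam
  rw [← Finset.sum_div]
  exact div_self (D.bs_pos hx).ne'

lemma lam_supp {S : Finset κ} {x : Sp 4} (hx : x ∈ D.Q S) {i : ι} (hi : i ∉ D.J S) :
    D.lam i x = 0 := by
  rw [D.mem_J, Finset.not_subset] at hi
  obtain ⟨f, hfS, hf⟩ := hi
  unfold lam bw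
  rw [Finset.prod_eq_zero (Finset.mem_compl.2 hf) (by rw [hx.2 f hfS, sub_self]), zero_div]

lemma continuous_bw (i : ι) : Continuous (D.bw i) := by
  unfold bw
  refine continuous_finsetProd _ fun f _ => ?_
  exact continuous_const.sub (D.l f).continuous

lemma continuous_bs : Continuous D.bs := by
  unfold bs
  exact continuous_finsetSum _ fun i _ => D.continuous_bw i

/-- interpolation of vertex values -/
noncomputable def ip (u : ι → ℝ) (x : Sp 4) : ℝ := ∑ i, D.lam i x * u i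

lemma continuousOn_ip (u : ι → ℝ) : ContinuousOn (D.ip u) D.P := by
  unfold ip
  refine continuousOn_finsetSum _ fun i _ => ContinuousOn.mul ?_ continuousOn_const
  unfold lam
  exact (D.continuous_bw i).continuousOn.div D.continuous_bs.continuousOn
    (fun x hx => (D.bs_pos hx).ne')

lemma ip_const {S : Finset κ} {x : Sp 4} (hx : x ∈ D.Q S) {u : ι → ℝ} {c : ℝ}
    (h : ∀ i ∈ D.J S, u i = c) : D.ip u x = c := by
  unfold ip
  have h1 : ∀ i ∈ (Finset.univ : Finset ι), D.lam i x * u i = D.lam i x * c := by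
    intro i _
    by_cases hi : i ∈ D.J S
    · rw [h i hi]
    · rw [D.lam_supp hx hi, zero_mul, zero_mul]
  rw [Finset.sum_congr rfl h1, ← Finset.sum_mul, D.lam_sum hx.1, one_mul]

lemma ip_sub (u v : ι → ℝ) (x : Sp 4) : D.ip u x - D.ip v x = D.ip (fun i => u i - v i) x := by
  unfold ip
  rw [← Finset.sum_sub_distrib]
  exact Finset.sum_congr rfl fun i _ => by ring

variable {D}
variable {K : Set (Set (Sp 4))}

lemma ip_v (hinj : Function.Injective D.N) (u : ι → ℝ) (i : ι) : D.ip u (D.v i) = u i := by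
  apply D.ip_const (S := D.N i) (D.v_mem_Q.2 (D.mem_J.2 (Finset.Subset.refl _)))
  intro j hj
  rw [eq_of_N_sub hinj (D.mem_J.1 hj)]

/-- `H¹ = 0` over the integers -/
theorem IsSph.lift (hK : D.IsSph K) (hinj : Function.Injective D.N)
    (U : Finset κ → ι → ℤ)
    (hU : ∀ S ∈ D.Fs K, ∀ S' ∈ D.Fs K, ∀ e ∈ D.Es K, S ⊆ e → S' ⊆ e → ∀ i ∈ D.J e, ∀ j ∈ D.J e,
      U S i - U S j = U S' i - U S' j) :
    ∃ u : ι → ℤ, ∀ S ∈ D.Fs K, ∀ i ∈ D.J S, ∀ j ∈ D.J S, u i - u j = U S i - U S j := by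
  classical
  obtain ⟨h⟩ := hK.top
  let g : Finset κ → Sp 4 → ℝ := fun S => D.ip (fun i => (U S i : ℝ))
  have hgd : ∀ S ∈ D.Fs K, ∀ S' ∈ D.Fs K, ∀ x, x ∈ D.Q S → x ∈ D.Q S' →
      ∃ n : ℤ, g S x - g S' x = n := by
    intro S hS S' hS' x hx hx'
    by_cases hne : S = S'
    · exact ⟨0, by rw [hne]; simp⟩
    obtain ⟨hc, hKM⟩ := mem_Fs.1 hS
    obtain ⟨hc', hKM'⟩ := mem_Fs.1 hS'
    have hxU : x ∈ D.Q (S ∪ S') := ⟨hx.1, fun f hf => by
      rcases Finset.mem_union.1 hf with hf | hf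
      · exact hx.2 f hf
      · exact hx'.2 f hf⟩
    have hJ := D.J_nonempty_of_Q hxU
    have h4 := D.card_le_of_J hJ
    have h3 : 3 ≤ (S ∪ S').card := by
      by_contra hlt
      have h5 : S = S ∪ S' := Finset.eq_of_subset_of_card_le Finset.subset_union_left (by rw [hc]; omega)
      have h6 : S' = S ∪ S' := Finset.eq_of_subset_of_card_le Finset.subset_union_right (by rw [hc']; omega)
      exact hne (h5.trans h6.symm)
    have h34 : (S ∪ S').card = 3 ∨ (S ∪ S').card = 4 := by omega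
    obtain ⟨i0, hi0⟩ := hJ
    refine ⟨U S i0 - U S' i0, ?_⟩
    show D.ip _ x - D.ip _ x = _
    rw [D.ip_sub]
    apply D.ip_const hxU
    intro i hi
    have hkey : U S i - U S' i = U S i0 - U S' i0 := by
      rcases h34 with h34 | h34
      · have he : S ∪ S' ∈ D.Es K := mem_Es.2 ⟨h34, hK.sup hKM Finset.subset_union_left ⟨i0, hi0⟩⟩
        have := hU S hS S' hS' _ he Finset.subset_union_left Finset.subset_union_right i hi i0 hi0
        linarith
      · have e1 := eq_N_of_card hi0 h34.ge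
        have e2 : i0 = i := by
          apply eq_of_N_sub hinj
          rw [← e1]; exact D.mem_J.1 hi
        rw [e2]
    have := congrArg (fun n : ℤ => (n : ℝ)) hkey
    simpa using this
  -- the function with values in the nonzero complex numbers
  let X := (⋃₀ K : Set (Sp 4))
  have hcov : ∀ x : X, ∃ S ∈ D.Fs K, x.1 ∈ D.Q S := fun x => hK.mem_pent x.2
  choose sel hsel hselx using hcov
  let θ : X → ℂ := fun x => Complex.exp (2 * Real.pi * Complex.I * (g (sel x) x.1 : ℝ))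
  have hθ : ∀ S ∈ D.Fs K, ∀ x : X, x.1 ∈ D.Q S →
      θ x = Complex.exp (2 * Real.pi * Complex.I * (g S x.1 : ℝ)) := by
    intro S hS x hx
    obtain ⟨n, hn⟩ := hgd (sel x) (hsel x) S hS x.1 (hselx x) hx
    show Complex.exp _ = _
    rw [Complex.exp_eq_exp_iff_exists_int]
    refine ⟨n, ?_⟩
    have : (g (sel x) x.1 : ℝ) = g S x.1 + n := by linarith
    rw [this]
    push_cast
    ring
  have hθc : Continuous θ := by
    have hlf : LocallyFinite (fun S : D.Fs K => {x : X | x.1 ∈ D.Q S.1}) := locallyFinite_of_finite _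
    refine hlf.continuous ?_ ?_ ?_
    · rw [Set.iUnion_eq_univ_iff]
      exact fun x => ⟨⟨sel x, hsel x⟩, hselx x⟩
    · intro S
      exact (D.isClosed_Q' S.1).preimage continuous_subtype_val
    · intro S
      have h1 : ContinuousOn (fun x : X => Complex.exp (2 * Real.pi * Complex.I * (g S.1 x.1 : ℝ)))
          {x : X | x.1 ∈ D.Q S.1} := by
        refine Complex.continuous_exp.comp_continuousOn ?_
        refine continuousOn_const.mul ?_
        refine Complex.continuous_ofReal.comp_continuousOn ?_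
        refine (D.continuousOn_ip _).comp continuous_subtype_val.continuousOn ?_
        exact fun x hx => hx.1
      exact h1.congr fun x hx => hθ S.1 S.2 x hx
  obtain ⟨G', hG'c, hG'⟩ := hasLog_S2 (f := θ ∘ h.symm) (hθc.comp h.symm.continuous)
    (fun x => Complex.exp_ne_zero _)
  let G : X → ℂ := fun x => G' (h x)
  have hGc : Continuous G := hG'c.comp h.continuous
  have hG : ∀ x, θ x = Complex.exp (G x) := by
    intro x
    have h1 : θ (h.symm (h x)) = Complex.exp (G' (h x)) := hG' (h x)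
    rw [h.symm_apply_apply] at h1
    exact h1
  have hmemK : ∀ j, D.v j ∈ ⋃₀ K := fun j => ⟨_, hK.vert j, rfl⟩
  let y : ι → ℝ := fun i => (G ⟨D.v i, hmemK i⟩).im / (2 * Real.pi)
  refine ⟨fun i => ⌊y i⌋, ?_⟩
  intro S hS i hi j hj
  have hpre : PreconnectedSpace (D.Q S) :=
    isPreconnected_iff_preconnectedSpace.1 (D.convex_Q S).isPreconnected
  have hQK : D.Q S ⊆ ⋃₀ K := fun x hx => ⟨_, (mem_Fs.1 hS).2.2, hx⟩
  let ψ : D.Q S → ℂ := fun x => G ⟨x.1, hQK x.2⟩ - 2 * Real.pi * Complex.I * (g S x.1 : ℝ)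
  have hψc : Continuous ψ := by
    refine (hGc.comp (Continuous.subtype_mk continuous_subtype_val _)).sub ?_
    refine continuous_const.mul ?_
    refine Complex.continuous_ofReal.comp ?_
    exact (D.continuousOn_ip _).comp_continuous continuous_subtype_val (fun x => x.2.1)
  have hψe : ∀ x, Complex.exp (ψ x) = 1 := by
    intro x
    show Complex.exp (G ⟨x.1, hQK x.2⟩ - 2 * Real.pi * Complex.I * (g S x.1 : ℝ)) = 1
    rw [Complex.exp_sub, ← hG, hθ S hS ⟨x.1, hQK x.2⟩ x.2, div_self (Complex.exp_ne_zero _)]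
  have hconst := const_of_exp_const hψc hψe ⟨D.v i, D.v_mem_Q.2 hi⟩ ⟨D.v j, D.v_mem_Q.2 hj⟩
  have him := congrArg Complex.im hconst
  have e1 : ∀ k (hk : k ∈ D.J S), (ψ ⟨D.v k, D.v_mem_Q.2 hk⟩).im =
      (G ⟨D.v k, hmemK k⟩).im - 2 * Real.pi * U S k := by
    intro k hk
    show (G ⟨D.v k, _⟩ - 2 * Real.pi * Complex.I * (D.ip (fun i => (U S i : ℝ)) (D.v k) : ℝ)).im = _
    rw [ip_v hinj]
    simp
  rw [e1 i hi, e1 j hj] at him
  have hpi : (2 * Real.pi) ≠ 0 := by positivity
  have hy : y i = y j + ((U S i - U S j : ℤ) : ℝ) := by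
    simp only [y]
    field_simp
    push_cast
    linarith
  show ⌊y i⌋ - ⌊y j⌋ = _
  rw [hy, Int.floor_add_intCast]
  ring

end SData

end Pool.Agent.Helper486.Ham
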