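import Pool.Agent.Helper486.Lift

namespace Pool.Agent.Helper486.Ham

open Finset

namespace SData

variable {ι κ : Type} [Fintype ι] [DecidableEq ι] [Fintype κ] [DecidableEq κ] {D : SData ι κ}
variable {K : Set (Set (Sp 4))}

/-- every function on the edges of a pentagon but one is a coboundary -/
lemma IsSph.surj (hK : D.IsSph K) (hN : D.Nums) (hinj : Function.Injective D.N)
    (a b : D.Es K → ι) (hJe : ∀ e, D.J e.1 = {a e, b e}) {S : Finset κ} (hS : S ∈ D.Fs K)
    (e0 : D.Es K) (he0 : S ⊆ e0.1) (c : D.Es K → ℚ) :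
    ∃ u : ι → ℚ, ∀ e : D.Es K, S ⊆ e.1 → e ≠ e0 → c e = u (b e) - u (a e) := by
  classical
  obtain ⟨hc, hKM⟩ := mem_Fs.1 hS
  have ha : ∀ e, a e ∈ D.J e.1 := fun e => by rw [hJe]; simp
  have hb : ∀ e, b e ∈ D.J e.1 := fun e => by rw [hJe]; simp
  have hedge : ∀ g ∈ D.R S, insert g S ∈ D.Es K := by
    intro g hg
    have : insert g S ∈ (D.Es K).filter (fun e => S ⊆ e) := by
      rw [hK.filter_Es hS]; exact Finset.mem_image_of_mem _ hg
    exact (Finset.mem_filter.1 this).1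
  obtain ⟨g0, hg0, hge⟩ : ∃ g ∈ D.R S, insert g S = e0.1 := by
    have : e0.1 ∈ (D.Es K).filter (fun e => S ⊆ e) := Finset.mem_filter.2 ⟨e0.2, he0⟩
    rw [hK.filter_Es hS] at this
    obtain ⟨g, hg, hge⟩ := Finset.mem_image.1 this
    exact ⟨g, hg, hge⟩
  have hpair : ∀ (u : ι → ℚ) (e : D.Es K), 0 = u (b e) - u (a e) →
      ∀ i ∈ D.J e.1, ∀ j ∈ D.J e.1, u i = u j := by
    intro u e h0 i hi j hj
    rw [hJe, Finset.mem_insert, Finset.mem_singleton] at hi hj
    rcases hi with rfl | rfl <;> rcases hj with rfl | rfl <;> linarith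
  set T : Finset (D.Es K) := Finset.univ.filter (fun e => S ⊆ e.1 ∧ e ≠ e0) with hT
  have hTm : ∀ e : D.Es K, e ∈ T ↔ S ⊆ e.1 ∧ e ≠ e0 := fun e => by simp [hT]
  have haS : ∀ e : T, a e.1 ∈ D.J S := fun e => D.J_anti ((hTm e.1).1 e.2).1 (ha e.1)
  have hbS : ∀ e : T, b e.1 ∈ D.J S := fun e => D.J_anti ((hTm e.1).1 e.2).1 (hb e.1)
  let δ' : (D.J S → ℚ) →ₗ[ℚ] (T → ℚ) :=
    { toFun := fun u e => u ⟨b e.1, hbS e⟩ - u ⟨a e.1, haS e⟩
      map_add' := fun u v => by funext e; simp only [Pi.add_apply]; ring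
      map_smul' := fun t u => by
        funext e; simp only [Pi.smul_apply, smul_eq_mul, RingHom.id_apply]; ring }
  obtain ⟨i0, hi0⟩ := hKM.1
  have hker : ∀ u ∈ LinearMap.ker δ', ∀ i : D.J S, u i = u ⟨i0, hi0⟩ := by
    intro u hu
    let v : ι → ℚ := fun i => if hi : i ∈ D.J S then u ⟨i, hi⟩ else 0
    have hv : ∀ i (hi : i ∈ D.J S), v i = u ⟨i, hi⟩ := fun i hi => dif_pos hi
    have h1 : ∀ g ∈ D.R S, g ≠ g0 → ∀ i ∈ D.J (insert g S), ∀ j ∈ D.J (insert g S), v i = v j := by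
      intro g hg hne
      have h2 : (⟨insert g S, hedge g hg⟩ : D.Es K) ≠ e0 := by
        intro h
        apply hne
        have h3 : insert g S = insert g0 S := by rw [hge]; exact congrArg Subtype.val h
        have h4 : g ∈ insert g0 S := by rw [← h3]; exact Finset.mem_insert_self _ _
        rcases Finset.mem_insert.1 h4 with h5 | h5
        · exact h5
        · exact absurd h5 (D.mem_R.1 hg).1
      have hmT : (⟨insert g S, hedge g hg⟩ : D.Es K) ∈ T :=
        (hTm _).2 ⟨Finset.subset_insert _ _, h2⟩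
      have h5 : u ⟨b ⟨insert g S, hedge g hg⟩, hbS ⟨_, hmT⟩⟩ -
          u ⟨a ⟨insert g S, hedge g hg⟩, haS ⟨_, hmT⟩⟩ = 0 :=
        congrFun (LinearMap.mem_ker.1 hu) ⟨_, hmT⟩
      rw [← hv, ← hv] at h5
      exact hpair v ⟨insert g S, hedge g hg⟩ h5.symm
    have h3 := last_edge hN hc v hg0 h1
    have h4 := const_pent hN hinj hc hKM.1 v (fun g hg => by
      by_cases hgg : g = g0
      · rw [hgg]; exact h3
      · exact h1 g hg hgg)
    intro i
    have := h4 i.1 i.2 i0 hi0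
    rwa [hv _ i.2, hv _ hi0] at this
  have hker1 : Module.finrank ℚ (LinearMap.ker δ') ≤ 1 := by
    let ev : LinearMap.ker δ' →ₗ[ℚ] ℚ :=
      (LinearMap.proj (⟨i0, hi0⟩ : D.J S)).comp (LinearMap.ker δ').subtype
    have hev : Function.Injective ev := by
      intro u v huv
      apply Subtype.ext
      funext i
      have h1 : u.1 ⟨i0, hi0⟩ = v.1 ⟨i0, hi0⟩ := huv
      rw [hker u.1 u.2 i, hker v.1 v.2 i, h1]
    have := LinearMap.finrank_le_finrank_of_injective hev
    simpa using this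
  have hrk := LinearMap.finrank_range_add_finrank_ker δ'
  rw [Module.finrank_pi, Fintype.card_coe, hN.h2 S hc hKM.1] at hrk
  have hE' : Fintype.card T = 4 := by
    rw [Fintype.card_coe]
    have h1 : T.map (Function.Embedding.subtype _) =
        ((D.Es K).filter (fun e => S ⊆ e)).erase e0.1 := by
      ext x
      simp only [Finset.mem_erase, Finset.mem_filter, Finset.mem_map,
        Function.Embedding.subtype_apply]
      constructor
      · rintro ⟨y, hy, rfl⟩
        rw [hTm] at hy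
        exact ⟨fun h => hy.2 (Subtype.ext h), y.2, hy.1⟩
      · rintro ⟨h1, h2, h3⟩
        exact ⟨⟨x, h2⟩, (hTm _).2 ⟨h3, fun h => h1 (congrArg Subtype.val h)⟩, rfl⟩
    rw [← Finset.card_map (Function.Embedding.subtype _), h1,
      Finset.card_erase_of_mem (Finset.mem_filter.2 ⟨e0.2, he0⟩), hK.card_Es_filter hN hS]
  have htop : LinearMap.range δ' = ⊤ := by
    apply Submodule.eq_top_of_finrank_eq
    have h1 := Submodule.finrank_le (LinearMap.range δ')
    rw [Module.finrank_pi, hE'] at h1 ⊢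
    omega
  obtain ⟨u, hu⟩ := LinearMap.range_eq_top.1 htop (fun e => c e.1)
  let v : ι → ℚ := fun i => if hi : i ∈ D.J S then u ⟨i, hi⟩ else 0
  have hv : ∀ i (hi : i ∈ D.J S), v i = u ⟨i, hi⟩ := fun i hi => dif_pos hi
  refine ⟨v, fun e he hee => ?_⟩
  have hmT : e ∈ T := (hTm _).2 ⟨he, hee⟩
  have h1 : u ⟨b e, hbS ⟨_, hmT⟩⟩ - u ⟨a e, haS ⟨_, hmT⟩⟩ = c e := congrFun hu ⟨e, hmT⟩
  rw [← hv, ← hv] at h1
  exact h1.symm

/-- the functional of a pentagon -/
lemma IsSph.functional (hK : D.IsSph K) (hN : D.Nums) (hinj : Function.Injective D.N)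
    (a b : D.Es K → ι) (hJe : ∀ e, D.J e.1 = {a e, b e}) {S : Finset κ} (hS : S ∈ D.Fs K) :
    ∃ f : (D.Es K → ℚ) →ₗ[ℚ] ℚ,
      (∀ c, f c = 0 ↔ ∃ u : ι → ℚ, ∀ e : D.Es K, S ⊆ e.1 → c e = u (b e) - u (a e)) ∧
      (∀ e : D.Es K, S ⊆ e.1 → f (Pi.single e 1) ≠ 0) ∧
      (∀ e : D.Es K, ¬ S ⊆ e.1 → f (Pi.single e 1) = 0) := by
  classical
  obtain ⟨hc, hKM⟩ := mem_Fs.1 hS
  have ha : ∀ e, a e ∈ D.J e.1 := fun e => by rw [hJe]; simp
  have hb : ∀ e, b e ∈ D.J e.1 := fun e => by rw [hJe]; simp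
  have hedge : ∀ g ∈ D.R S, insert g S ∈ D.Es K := by
    intro g hg
    have : insert g S ∈ (D.Es K).filter (fun e => S ⊆ e) := by
      rw [hK.filter_Es hS]; exact Finset.mem_image_of_mem _ hg
    exact (Finset.mem_filter.1 this).1
  have hform : ∀ e : D.Es K, S ⊆ e.1 → ∃ g ∈ D.R S, insert g S = e.1 := by
    intro e he
    have : e.1 ∈ (D.Es K).filter (fun e => S ⊆ e) := Finset.mem_filter.2 ⟨e.2, he⟩
    rw [hK.filter_Es hS] at this
    obtain ⟨g, hg, hge⟩ := Finset.mem_image.1 this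
    exact ⟨g, hg, hge⟩
  have hpair : ∀ (u : ι → ℚ) (e : D.Es K), 0 = u (b e) - u (a e) →
      ∀ i ∈ D.J e.1, ∀ j ∈ D.J e.1, u i = u j := by
    intro u e h0 i hi j hj
    rw [hJe, Finset.mem_insert, Finset.mem_singleton] at hi hj
    rcases hi with rfl | rfl <;> rcases hj with rfl | rfl <;> linarith
  let W : Submodule ℚ (D.Es K → ℚ) :=
    { carrier := {c | ∃ u : ι → ℚ, ∀ e : D.Es K, S ⊆ e.1 → c e = u (b e) - u (a e)}
      add_mem' := by
        rintro c c' ⟨u, hu⟩ ⟨u', hu'⟩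
        refine ⟨fun i => u i + u' i, fun e he => ?_⟩
        rw [Pi.add_apply, hu e he, hu' e he]; ring
      zero_mem' := ⟨0, fun e _ => by simp⟩
      smul_mem' := by
        rintro t c ⟨u, hu⟩
        refine ⟨fun i => t * u i, fun e he => ?_⟩
        rw [Pi.smul_apply, hu e he, smul_eq_mul]; ring }
  have hWmem : ∀ c, c ∈ W ↔ ∃ u : ι → ℚ, ∀ e : D.Es K, S ⊆ e.1 → c e = u (b e) - u (a e) :=
    fun c => Iff.rfl
  -- an edge
  obtain ⟨e0', he0'⟩ : ((D.Es K).filter (fun e => S ⊆ e)).Nonempty := by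
    rw [← Finset.card_pos, hK.card_Es_filter hN hS]; norm_num
  rw [Finset.mem_filter] at he0'
  have hsingle : ∀ e0 : D.Es K, S ⊆ e0.1 → (Pi.single e0 1 : D.Es K → ℚ) ∉ W := by
    intro e0 he0 hmem
    obtain ⟨u, hu⟩ := (hWmem _).1 hmem
    obtain ⟨g0, hg0, hge⟩ := hform e0 he0
    have h1 := last_edge hN hc u hg0 (fun g hg hne => by
      have h2 : (⟨insert g S, hedge g hg⟩ : D.Es K) ≠ e0 := by
        intro h
        apply hne
        have h3 : insert g S = insert g0 S := by rw [hge]; exact congrArg Subtype.val h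
        have h4 : g ∈ insert g0 S := by rw [← h3]; exact Finset.mem_insert_self _ _
        rcases Finset.mem_insert.1 h4 with h5 | h5
        · exact h5
        · exact absurd h5 (D.mem_R.1 hg).1
      have h5 := hu ⟨insert g S, hedge g hg⟩ (Finset.subset_insert _ _)
      rw [Pi.single_eq_of_ne h2] at h5
      exact hpair u ⟨insert g S, hedge g hg⟩ h5)
    rw [hge] at h1
    have h2 := hu e0 he0
    rw [Pi.single_eq_same, h1 _ (hb e0) _ (ha e0), sub_self] at h2
    exact one_ne_zero h2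
  have hsurj : ∀ e0 : D.Es K, S ⊆ e0.1 → ∀ c : D.Es K → ℚ, ∃ t : ℚ,
      c - t • (Pi.single e0 1 : D.Es K → ℚ) ∈ W := by
    intro e0 he0 c
    obtain ⟨v, hv⟩ := hK.surj hN hinj a b hJe hS e0 he0 c
    refine ⟨c e0 - (v (b e0) - v (a e0)), (hWmem _).2 ⟨v, fun e he => ?_⟩⟩
    rw [Pi.sub_apply, Pi.smul_apply, smul_eq_mul]
    by_cases hee : e = e0
    · rw [hee, Pi.single_eq_same]; ring
    · rw [Pi.single_eq_of_ne hee, mul_zero, sub_zero]
      exact hv e he hee
  have hlt : W < ⊤ := by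
    rw [lt_top_iff_ne_top]
    intro h
    exact hsingle ⟨e0', he0'.1⟩ he0'.2 (by rw [h]; trivial)
  obtain ⟨f, hf0, hfW⟩ := Submodule.exists_le_ker_of_lt_top _ hlt
  have hf1 : ∀ e : D.Es K, S ⊆ e.1 → f (Pi.single e 1) ≠ 0 := by
    intro e he h0
    apply hf0
    refine LinearMap.ext fun c => ?_
    obtain ⟨t, ht⟩ := hsurj e he c
    have h1 := LinearMap.mem_ker.1 (hfW ht)
    rw [map_sub, map_smul, h0, smul_zero, sub_zero] at h1
    rw [h1]; rfl
  refine ⟨f, fun c => ⟨fun h => ?_, fun h => LinearMap.mem_ker.1 (hfW ((hWmem c).2 h))⟩, hf1, ?_⟩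
  · obtain ⟨t, ht⟩ := hsurj ⟨e0', he0'.1⟩ he0'.2 c
    have h1 := LinearMap.mem_ker.1 (hfW ht)
    rw [map_sub, map_smul, h, zero_sub, neg_eq_zero, smul_eq_mul] at h1
    rcases mul_eq_zero.1 h1 with h2 | h2
    · rw [h2, zero_smul, sub_zero] at ht
      exact (hWmem c).1 ht
    · exact absurd h2 (hf1 _ he0'.2)
  · intro e he
    refine LinearMap.mem_ker.1 (hfW ((hWmem _).2 ⟨0, fun e' he' => ?_⟩))
    have : e' ≠ e := fun h => he (h ▸ he')
    rw [Pi.single_eq_of_ne this]; simp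

/-- functions constant along edges are constant -/
lemma IsSph.const_all (hK : D.IsSph K) (hN : D.Nums) (hinj : Function.Injective D.N)
    (u : ι → ℚ) (h : ∀ e ∈ D.Es K, ∀ i ∈ D.J e, ∀ j ∈ D.J e, u i = u j) : ∀ i j, u i = u j := by
  have hS : ∀ S ∈ D.Fs K, ∀ i ∈ D.J S, ∀ j ∈ D.J S, u i = u j := by
    intro S hS
    obtain ⟨hc, hKM⟩ := mem_Fs.1 hS
    refine const_pent hN hinj hc hKM.1 u (fun g hg => ?_)
    have : insert g S ∈ (D.Es K).filter (fun e => S ⊆ e) := by
      rw [hK.filter_Es hS]; exact Finset.mem_image_of_mem _ hg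
    exact h _ (Finset.mem_filter.1 this).1
  intro i j
  obtain ⟨Si, hSi, hi⟩ := hK.vert_pent i
  obtain ⟨Sj, hSj, hj⟩ := hK.vert_pent j
  have := hK.strong (fun S => ∀ k ∈ D.J S, u i = u k) hSi (fun k hk => hS Si hSi i hi k hk) ?_ Sj hSj
  · exact this j hj
  · intro S hS1 S' hS' e he h1 h2 hp k hk
    obtain ⟨m, hm⟩ := (mem_Es.1 he).2.1
    rw [hp m (D.J_anti h1 hm)]
    exact hS S' hS' m (D.J_anti h2 hm) k hk

/-- `H¹ = 0` over the rationals -/
lemma IsSph.lift_rat (hK : D.IsSph K) (hinj : Function.Injective D.N)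
    (a b : D.Es K → ι) (hJe : ∀ e, D.J e.1 = {a e, b e}) (c : D.Es K → ℚ)
    (h : ∀ S ∈ D.Fs K, ∃ u : ι → ℚ, ∀ e : D.Es K, S ⊆ e.1 → c e = u (b e) - u (a e)) :
    ∃ u : ι → ℚ, ∀ e : D.Es K, c e = u (b e) - u (a e) := by
  classical
  have h' : ∀ S : D.Fs K, ∃ u : ι → ℚ, ∀ e : D.Es K, S.1 ⊆ e.1 → c e = u (b e) - u (a e) :=
    fun S => h S.1 S.2
  choose U hU using h'
  obtain ⟨N, hNz⟩ := IsLocalization.exist_integer_multiples_of_finite (nonZeroDivisors ℤ)
    (fun p : D.Fs K × ι => U p.1 p.2)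
  have hN0 : ((N : ℤ) : ℚ) ≠ 0 := by
    have := nonZeroDivisors.ne_zero N.2
    exact_mod_cast this
  have hZ : ∀ p : D.Fs K × ι, ∃ z : ℤ, (z : ℚ) = ((N : ℤ) : ℚ) * U p.1 p.2 := by
    intro p
    obtain ⟨z, hz⟩ := hNz p
    refine ⟨z, ?_⟩
    rw [zsmul_eq_mul] at hz
    simpa using hz
  choose Z hZ using hZ
  let V : Finset κ → ι → ℤ := fun S i => if hS : S ∈ D.Fs K then Z (⟨S, hS⟩, i) else 0
  have hV : ∀ S (hS : S ∈ D.Fs K) i, (V S i : ℚ) = ((N : ℤ) : ℚ) * U ⟨S, hS⟩ i := by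
    intro S hS i
    simp only [V, dif_pos hS]
    exact hZ _
  have hVe : ∀ S ∈ D.Fs K, ∀ e : D.Es K, S ⊆ e.1 →
      ((V S (b e) - V S (a e) : ℤ) : ℚ) = ((N : ℤ) : ℚ) * c e := by
    intro S hS e he
    push_cast
    rw [hV S hS, hV S hS, hU ⟨S, hS⟩ e he]; ring
  obtain ⟨u, hu⟩ := hK.lift hinj V (by
    intro S hS S' hS' e he h1 h2 i hi j hj
    have e1 := hVe S hS ⟨e, he⟩ h1
    have e2 := hVe S' hS' ⟨e, he⟩ h2
    have e3 : V S (b ⟨e, he⟩) - V S (a ⟨e, he⟩) = V S' (b ⟨e, he⟩) - V S' (a ⟨e, he⟩) := by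
      have := e1.trans e2.symm
      exact_mod_cast this
    have hJ := hJe ⟨e, he⟩
    rw [hJ, Finset.mem_insert, Finset.mem_singleton] at hi hj
    rcases hi with rfl | rfl <;> rcases hj with rfl | rfl <;> linarith)
  refine ⟨fun i => (u i : ℚ) / ((N : ℤ) : ℚ), fun e => ?_⟩
  obtain ⟨S, hS⟩ : ((D.Fs K).filter (fun S => S ⊆ e.1)).Nonempty := by
    rw [← Finset.card_pos, hK.card_Fs e.2]; norm_num
  rw [Finset.mem_filter] at hS
  have ha : a e ∈ D.J e.1 := by rw [hJe]; simp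
  have hb : b e ∈ D.J e.1 := by rw [hJe]; simp
  have h1 := hu S hS.1 (b e) (D.J_anti hS.2 hb) (a e) (D.J_anti hS.2 ha)
  have h2 := hVe S hS.1 e hS.2
  rw [← h1] at h2
  push_cast at h2
  show c e = (u (b e) : ℚ) / ((N : ℤ) : ℚ) - (u (a e) : ℚ) / ((N : ℤ) : ℚ)
  rw [← sub_div, h2, mul_div_cancel_left₀ _ hN0]

/-- there is no such `K` -/
theorem IsSph.false (hK : D.IsSph K) (hN : D.Nums) (hinj : Function.Injective D.N) : False := by
  classical
  have hends : ∀ e : D.Es K, ∃ a b : ι, a ≠ b ∧ D.J e.1 = {a, b} := by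
    intro e
    obtain ⟨hc, hKM⟩ := mem_Es.1 e.2
    exact Finset.card_eq_two.1 (hN.h3 e.1 hc hKM.1)
  choose a b hab hJe using hends
  let δ : (ι → ℚ) →ₗ[ℚ] (D.Es K → ℚ) :=
    { toFun := fun u e => u (b e) - u (a e)
      map_add' := fun u v => by funext e; simp only [Pi.add_apply]; ring
      map_smul' := fun t u => by
        funext e; simp only [Pi.smul_apply, smul_eq_mul, RingHom.id_apply]; ring }
  have hf := fun S : D.Fs K => hK.functional hN hinj a b hJe S.2
  choose f hf1 hf2 hf3 using hf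
  let Φ : (D.Es K → ℚ) →ₗ[ℚ] (D.Fs K → ℚ) := LinearMap.pi f
  have hker : LinearMap.ker Φ = LinearMap.range δ := by
    ext c
    rw [LinearMap.mem_ker, LinearMap.mem_range]
    constructor
    · intro h
      obtain ⟨u, hu⟩ := hK.lift_rat hinj a b hJe c (fun S hS => by
        have h1 : f ⟨S, hS⟩ c = 0 := congrFun h ⟨S, hS⟩
        exact (hf1 ⟨S, hS⟩ c).1 h1)
      exact ⟨u, funext fun e => (hu e).symm⟩
    · rintro ⟨u, rfl⟩
      funext S
      show f S _ = 0
      rw [hf1 S]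
      exact ⟨u, fun e _ => rfl⟩
  have hkerδ : Module.finrank ℚ (LinearMap.ker δ) = 1 := by
    have h1 : LinearMap.ker δ = Submodule.span ℚ {(fun _ => 1 : ι → ℚ)} := by
      ext u
      rw [LinearMap.mem_ker, Submodule.mem_span_singleton]
      constructor
      · intro h
        obtain ⟨i0⟩ := D.ne
        refine ⟨u i0, funext fun i => ?_⟩
        have := hK.const_all hN hinj u (fun e he => by
          have h2 : u (b ⟨e, he⟩) - u (a ⟨e, he⟩) = 0 := congrFun h ⟨e, he⟩
          intro i hi j hj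
          rw [hJe ⟨e, he⟩, Finset.mem_insert, Finset.mem_singleton] at hi hj
          rcases hi with rfl | rfl <;> rcases hj with rfl | rfl <;> linarith) i i0
        simp [this]
      · rintro ⟨t, rfl⟩
        funext e
        show t * 1 - t * 1 = 0
        ring
    rw [h1]
    apply finrank_span_singleton
    intro h
    obtain ⟨i0⟩ := D.ne
    exact one_ne_zero (congrFun h i0)
  have h1 := LinearMap.finrank_range_add_finrank_ker δ
  have h2 := LinearMap.finrank_range_add_finrank_ker Φ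
  rw [hkerδ, Module.finrank_pi, hN.hι] at h1
  rw [hker, Module.finrank_pi, Fintype.card_coe] at h2
  have h3 : Module.finrank ℚ (LinearMap.range Φ) ≤ (D.Fs K).card := by
    have := Submodule.finrank_le (LinearMap.range Φ)
    rwa [Module.finrank_pi, Fintype.card_coe] at this
  have h4 : (D.Fs K).card ≤ Module.finrank ℚ (LinearMap.range Φ) + 1 := by
    obtain ⟨i0⟩ := D.ne
    obtain ⟨S0, hS0, _⟩ := hK.vert_pent i0
    have htop : LinearMap.range Φ ⊔ Submodule.span ℚ {(Pi.single ⟨S0, hS0⟩ 1 : D.Fs K → ℚ)} = ⊤ := by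
      by_contra hne
      obtain ⟨φ, hφ0, hφ⟩ := Submodule.exists_le_ker_of_lt_top _ (lt_top_iff_ne_top.2 hne)
      have hφs : ∀ c, φ c = ∑ S, c S * φ (Pi.single S 1) := by
        intro c
        rw [LinearMap.pi_apply_eq_sum_univ φ c]
        refine Finset.sum_congr rfl fun S _ => ?_
        rw [smul_eq_mul]
        congr 2
        funext j
        rw [Pi.single_apply]
        simp only [eq_comm]
      have hφ1 : ∀ c, φ (Φ c) = 0 := fun c =>
        LinearMap.mem_ker.1 (hφ (Submodule.mem_sup_left ⟨c, rfl⟩))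
      have hφ2 : φ (Pi.single ⟨S0, hS0⟩ 1) = 0 :=
        LinearMap.mem_ker.1 (hφ (Submodule.mem_sup_right (Submodule.mem_span_singleton_self _)))
      have hall := hK.strong (fun S => ∀ hS : S ∈ D.Fs K, φ (Pi.single ⟨S, hS⟩ 1) = 0) hS0
        (fun _ => hφ2) (by
          intro S hS S' hS' e he hSe hSe' hp _
          by_cases hSS : S = S'
          · subst hSS; exact hp hS
          have h5 := hφ1 (Pi.single ⟨e, he⟩ 1)
          rw [hφs] at h5
          rw [Fintype.sum_eq_add (⟨S, hS⟩ : D.Fs K) ⟨S', hS'⟩ (fun h => hSS (congrArg Subtype.val h))] at h5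
          · rw [hp hS, mul_zero, zero_add] at h5
            rcases mul_eq_zero.1 h5 with h6 | h6
            · exact absurd h6 (hf2 ⟨S', hS'⟩ ⟨e, he⟩ hSe')
            · exact h6
          · rintro T ⟨hT1, hT2⟩
            have hT3 : ¬ T.1 ⊆ e := by
              intro hTe
              have h6 := hK.card_Fs he
              have h7 : ({S, S', T.1} : Finset (Finset κ)).card = 3 := by
                rw [Finset.card_eq_three]
                exact ⟨S, S', T.1, hSS, fun h => hT1 (Subtype.ext h.symm),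
                  fun h => hT2 (Subtype.ext h.symm), rfl⟩
              have h8 : ({S, S', T.1} : Finset (Finset κ)) ⊆ (D.Fs K).filter (fun S => S ⊆ e) := by
                intro x hx
                simp only [Finset.mem_insert, Finset.mem_singleton] at hx
                rw [Finset.mem_filter]
                rcases hx with rfl | rfl | rfl
                · exact ⟨hS, hSe⟩
                · exact ⟨hS', hSe'⟩
                · exact ⟨T.2, hTe⟩
              have h9 := Finset.card_le_card h8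
              omega
            have h10 : Φ (Pi.single ⟨e, he⟩ 1) T = 0 := hf3 T ⟨e, he⟩ hT3
            rw [h10, zero_mul])
      apply hφ0
      refine LinearMap.ext fun c => ?_
      rw [hφs c, LinearMap.zero_apply]
      exact Finset.sum_eq_zero fun S _ => by rw [hall S.1 S.2 S.2, mul_zero]
    have h5 := Submodule.finrank_add_le_finrank_add_finrank (LinearMap.range Φ)
      (Submodule.span ℚ {(Pi.single ⟨S0, hS0⟩ 1 : D.Fs K → ℚ)})
    rw [htop, finrank_top, Module.finrank_pi, Fintype.card_coe] at h5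
    have h6 : Module.finrank ℚ (Submodule.span ℚ {(Pi.single ⟨S0, hS0⟩ 1 : D.Fs K → ℚ)}) = 1 := by
      apply finrank_span_singleton
      intro h
      have := congrFun h ⟨S0, hS0⟩
      rw [Pi.single_eq_same] at this
      exact one_ne_zero this
    rw [h6] at h5
    exact h5
  have h5 := hK.count hN
  omega

end SData

end Pool.Agent.Helper486.Ham
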