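import Pool.Agent.Helper486.Comb

namespace Pool.Agent.Helper486.Ham

open Metric Set Finset

namespace SData

variable {ι κ : Type} [Fintype ι] [DecidableEq ι] [Fintype κ] [DecidableEq κ] {D : SData ι κ}

lemma sum_inter {S : Finset κ} (hS : S.card = 2) {W : Finset ι} (hW : W ⊆ D.J S) :
    ∑ g ∈ D.R S, (D.J (insert g S) ∩ W).card = W.card * 2 := by
  have h1 := Finset.sum_card_bipartiteAbove_eq_sum_card_bipartiteBelow
    (s := D.R S) (t := W) (fun g i => g ∈ D.N i)
  have h2 : ∀ g ∈ D.R S, (D.J (insert g S) ∩ W).card =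
      (Finset.bipartiteAbove (fun g i => g ∈ D.N i) W g).card := by
    intro g _
    refine congrArg Finset.card ?_
    ext i
    rw [Finset.mem_bipartiteAbove, Finset.mem_inter, D.mem_J, Finset.insert_subset_iff]
    constructor
    · rintro ⟨⟨h1, _⟩, h2⟩; exact ⟨h2, h1⟩
    · rintro ⟨h1, h2⟩; exact ⟨⟨h2, D.mem_J.1 (hW h1)⟩, h1⟩
  have h3 : ∀ i ∈ W, (Finset.bipartiteBelow (fun g i => g ∈ D.N i) (D.R S) i).card = 2 := by
    intro i hi
    have : Finset.bipartiteBelow (fun g i => g ∈ D.N i) (D.R S) i = D.N i \ S := by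
      ext g
      rw [Finset.mem_bipartiteBelow, Finset.mem_sdiff, D.mem_R]
      constructor
      · rintro ⟨⟨h1, _⟩, h3⟩; exact ⟨h3, h1⟩
      · rintro ⟨h1, h3⟩
        refine ⟨⟨h3, i, ?_⟩, h1⟩
        rw [D.mem_J, Finset.insert_subset_iff]
        exact ⟨h1, D.mem_J.1 (hW hi)⟩
    rw [this, Finset.card_sdiff_of_subset (D.mem_J.1 (hW hi)), D.card_N, hS]
  rw [Finset.sum_congr rfl h2, h1, Finset.sum_congr rfl h3, Finset.sum_const, smul_eq_mul]

lemma last_edge (hN : D.Nums) {S : Finset κ} (hS : S.card = 2) {β : Type*} (u : ι → β)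
    {g0 : κ} (hg0 : g0 ∈ D.R S)
    (h : ∀ g ∈ D.R S, g ≠ g0 → ∀ i ∈ D.J (insert g S), ∀ j ∈ D.J (insert g S), u i = u j) :
    ∀ i ∈ D.J (insert g0 S), ∀ j ∈ D.J (insert g0 S), u i = u j := by
  classical
  intro i hi j hj
  by_contra hne
  have hij : i ≠ j := fun h => hne (by rw [h])
  have hsubJ : ∀ g, D.J (insert g S) ⊆ D.J S := fun g => D.J_anti (Finset.subset_insert _ _)
  set W := (D.J S).filter (fun k => u k = u i) with hW
  have h1 := sum_inter (D := D) hS (W := W) (Finset.filter_subset _ _)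
  rw [← Finset.add_sum_erase _ _ hg0] at h1
  have h2 : (D.J (insert g0 S) ∩ W).card = 1 := by
    rw [Finset.card_eq_one]
    refine ⟨i, ?_⟩
    have hJ2 := hN.h3 (insert g0 S)
      (by rw [Finset.card_insert_of_notMem (D.mem_R.1 hg0).1, hS]) (D.mem_R.1 hg0).2
    have hJe : D.J (insert g0 S) = {i, j} := by
      symm
      apply Finset.eq_of_subset_of_card_le
      · intro k hk
        rcases Finset.mem_insert.1 hk with rfl | hk
        · exact hi
        · rw [Finset.mem_singleton] at hk; rw [hk]; exact hj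
      · rw [hJ2, Finset.card_pair hij]
    ext k
    rw [Finset.mem_inter, hJe, Finset.mem_insert, Finset.mem_singleton, Finset.mem_singleton, hW,
      Finset.mem_filter]
    constructor
    · rintro ⟨rfl | rfl, _, h4⟩
      · rfl
      · exact absurd h4.symm hne
    · rintro rfl
      exact ⟨Or.inl rfl, hsubJ _ hi, rfl⟩
  have h3 : Even (∑ g ∈ (D.R S).erase g0, (D.J (insert g S) ∩ W).card) := by
    apply Finset.even_sum
    intro g hg
    rw [Finset.mem_erase] at hg
    by_cases hem : (D.J (insert g S) ∩ W).Nonempty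
    · obtain ⟨k, hk⟩ := hem
      rw [Finset.mem_inter, hW, Finset.mem_filter] at hk
      have h5 : D.J (insert g S) ∩ W = D.J (insert g S) := by
        rw [Finset.inter_eq_left]
        intro k' hk'
        rw [hW, Finset.mem_filter]
        exact ⟨hsubJ _ hk', (h g hg.2 hg.1 k' hk' k hk.1).trans hk.2.2⟩
      rw [h5, hN.h3 (insert g S)
        (by rw [Finset.card_insert_of_notMem (D.mem_R.1 hg.2).1, hS]) (D.mem_R.1 hg.2).2]
      exact even_two
    · rw [Finset.not_nonempty_iff_eq_empty.1 hem, Finset.card_empty]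
      exact Even.zero
  rw [h2] at h1
  obtain ⟨t, ht⟩ := h3
  omega

lemma const_pent (hN : D.Nums) (hinj : Function.Injective D.N) {S : Finset κ} (hS : S.card = 2)
    (hJ : (D.J S).Nonempty) {β : Type*} (u : ι → β)
    (h : ∀ g ∈ D.R S, ∀ i ∈ D.J (insert g S), ∀ j ∈ D.J (insert g S), u i = u j) :
    ∀ i ∈ D.J S, ∀ j ∈ D.J S, u i = u j := by
  classical
  intro i hi j hj
  by_contra hne
  have hsubJ : ∀ g, D.J (insert g S) ⊆ D.J S := fun g => D.J_anti (Finset.subset_insert _ _)
  have key : ∀ k ∈ D.J S, 3 ≤ ((D.J S).filter (fun k' => u k' = u k)).card := by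
    intro k hk
    have hkN := D.mem_J.1 hk
    have h1 : (D.N k \ S).card = 2 := by rw [Finset.card_sdiff_of_subset hkN, D.card_N, hS]
    obtain ⟨g, g', hgg, heq⟩ := Finset.card_eq_two.1 h1
    have hg : g ∈ D.N k \ S := by rw [heq]; simp
    have hg' : g' ∈ D.N k \ S := by rw [heq]; simp
    have hgR := D.N_sub_R hk hg
    have hgR' := D.N_sub_R hk hg'
    rw [Finset.mem_sdiff] at hg hg'
    have hkg : k ∈ D.J (insert g S) := D.mem_J.2 (Finset.insert_subset hg.1 hkN)
    have hkg' : k ∈ D.J (insert g' S) := D.mem_J.2 (Finset.insert_subset hg'.1 hkN)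
    have c1 := hN.h3 (insert g S) (by rw [Finset.card_insert_of_notMem hg.2, hS]) ⟨k, hkg⟩
    have c2 := hN.h3 (insert g' S) (by rw [Finset.card_insert_of_notMem hg'.2, hS]) ⟨k, hkg'⟩
    obtain ⟨a, ha, hak⟩ := Finset.exists_mem_ne (by rw [c1]; norm_num) k
    obtain ⟨b, hb, hbk⟩ := Finset.exists_mem_ne (by rw [c2]; norm_num) k
    have hab : a ≠ b := by
      rintro rfl
      apply hak
      symm
      apply eq_of_N_sub hinj
      intro f hf
      by_cases hfS : f ∈ S
      · exact D.mem_J.1 ha (Finset.mem_insert_of_mem hfS)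
      · have : f ∈ D.N k \ S := Finset.mem_sdiff.2 ⟨hf, hfS⟩
        rw [heq, Finset.mem_insert, Finset.mem_singleton] at this
        rcases this with rfl | rfl
        · exact D.mem_J.1 ha (Finset.mem_insert_self _ _)
        · exact D.mem_J.1 hb (Finset.mem_insert_self _ _)
    have h3 : ({k, a, b} : Finset ι).card = 3 := by
      rw [Finset.card_eq_three]
      exact ⟨k, a, b, hak.symm, hbk.symm, hab, rfl⟩
    rw [← h3]
    apply Finset.card_le_card
    intro x hx
    simp only [Finset.mem_insert, Finset.mem_singleton] at hx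
    rw [Finset.mem_filter]
    rcases hx with rfl | rfl | rfl
    · exact ⟨hk, rfl⟩
    · exact ⟨hsubJ _ ha, h g hgR _ ha _ hkg⟩
    · exact ⟨hsubJ _ hb, h g' hgR' _ hb _ hkg'⟩
  have h1 := key i hi
  have h2 := key j hj
  have hdis : Disjoint ((D.J S).filter (fun k' => u k' = u i)) ((D.J S).filter (fun k' => u k' = u j)) := by
    rw [Finset.disjoint_left]
    intro x hx hx'
    rw [Finset.mem_filter] at hx hx'
    exact hne (hx.2.symm.trans hx'.2)
  have h3 := Finset.card_union_of_disjoint hdis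
  have h4 : ((D.J S).filter (fun k' => u k' = u i) ∪ (D.J S).filter (fun k' => u k' = u j)).card ≤ 5 := by
    rw [← hN.h2 S hS hJ]
    exact Finset.card_le_card (Finset.union_subset (Finset.filter_subset _ _) (Finset.filter_subset _ _))
  omega

end SData

end Pool.Agent.Helper486.Ham
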