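import Pool.Agent.Helper486.Geom

namespace Pool.Agent.Helper486.Ham

open Metric Set Finset

lemma mem_unionFirst {L : List (Set (Sp 4))} {j : ℕ} {x : (Sp 4)} :
    x ∈ unionFirst L j ↔ ∃ G ∈ L.take j, x ∈ G := by
  simp [unionFirst]

/-- counting functions -/
def mu (k : ℕ) : ℤ := if k = 1 then 1 else 0
def nu (k : ℕ) : ℤ := ∑ m ∈ Finset.range k, (1 - mu m)
def beta (k : ℕ) : ℤ := ∑ m ∈ Finset.range k, (1 - nu m)

lemma nu_succ (k : ℕ) : nu (k + 1) - nu k = 1 - mu k := by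
  rw [nu, nu, Finset.sum_range_succ]; ring

lemma beta_succ (k : ℕ) : beta (k + 1) - beta k = 1 - nu k := by
  rw [beta, beta, Finset.sum_range_succ]; ring

lemma mu_nonneg (k : ℕ) : 0 ≤ mu k := by unfold mu; split_ifs <;> norm_num

namespace SData

variable {ι κ : Type} [Fintype ι] [DecidableEq ι] [Fintype κ] [DecidableEq κ] (D : SData ι κ)

/-- facets adjacent to the face `S` -/
def R (S : Finset κ) : Finset κ :=
  Finset.univ.filter (fun g => g ∉ S ∧ (D.J (insert g S)).Nonempty)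

lemma mem_R {S : Finset κ} {g : κ} : g ∈ D.R S ↔ g ∉ S ∧ (D.J (insert g S)).Nonempty := by
  simp [R]

open Classical in
/-- the set of facets used by the first `j` members of a list of facets of `Q S` -/
noncomputable def U (S : Finset κ) (L : List (Set (Sp 4))) (j : ℕ) : Finset κ :=
  (D.R S).filter (fun g => D.Q (insert g S) ∈ L.take j)

lemma mem_U {S : Finset κ} {L : List (Set (Sp 4))} {j : ℕ} {g : κ} :
    g ∈ D.U S L j ↔ g ∈ D.R S ∧ D.Q (insert g S) ∈ L.take j := by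
  simp [U]

lemma Q_inj {S : Finset κ} {g g' : κ} (hJ : (D.J (insert g S)).Nonempty)
    (hg' : g' ∉ S) (h : D.m (insert g S) ∈ D.Q (insert g' S)) : g' = g := by
  have h1 := (D.m_mem_iff hJ _).1 h
  have h2 := h1 (Finset.mem_insert_self g' S)
  rcases Finset.mem_insert.1 h2 with h3 | h3
  · exact h3
  · exact absurd h3 hg'

lemma m_mem_self {S : Finset κ} (hJ : (D.J S).Nonempty) : D.m S ∈ D.Q S :=
  (D.m_mem_iff hJ S).2 (Finset.Subset.refl _)

lemma J_anti {S S' : Finset κ} (h : S ⊆ S') : D.J S' ⊆ D.J S := fun i hi =>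
  D.mem_J.2 (h.trans (D.mem_J.1 hi))

lemma U_zero (S : Finset κ) (L : List (Set (Sp 4))) : D.U S L 0 = ∅ := by
  ext g; simp [mem_U]

lemma U_len {S : Finset κ} {L : List (Set (Sp 4))} (hJ : (D.J S).Nonempty)
    (hL : ∀ F, F ∈ L ↔ IsFacet (D.Q S) F) : D.U S L L.length = D.R S := by
  ext g
  rw [mem_U, List.take_length, hL, D.isFacet_iff hJ]
  constructor
  · exact fun h => h.1
  · intro h
    exact ⟨h, g, (D.mem_R.1 h).1, (D.mem_R.1 h).2, rfl⟩

lemma getElem_not_mem_take {L : List (Set (Sp 4))} (hnd : L.Nodup) {j : ℕ} (hj : j < L.length) :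
    L[j] ∉ L.take j := by
  intro h
  have h1 : (L.take j ++ L.drop j).Nodup := by rw [List.take_append_drop]; exact hnd
  rw [List.nodup_append] at h1
  have h2 : L[j] ∈ L.drop j := by
    rw [List.drop_eq_getElem_cons hj]; exact List.mem_cons_self
  exact h1.2.2 _ h _ h2 rfl

lemma U_succ {S : Finset κ} {L : List (Set (Sp 4))} (hJ : (D.J S).Nonempty) (hnd : L.Nodup)
    (hL : ∀ F, F ∈ L ↔ IsFacet (D.Q S) F) {j : ℕ} (hj : j < L.length) :
    ∃ g, g ∈ D.R S ∧ g ∉ D.U S L j ∧ L[j] = D.Q (insert g S) ∧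
      D.U S L (j + 1) = insert g (D.U S L j) := by
  obtain ⟨g, hg, hgJ, hgL⟩ := (D.isFacet_iff hJ _).1 ((hL L[j]).1 (List.getElem_mem hj))
  refine ⟨g, D.mem_R.2 ⟨hg, hgJ⟩, ?_, hgL, ?_⟩
  · rw [mem_U, ← hgL]
    exact fun h => getElem_not_mem_take hnd hj h.2
  · ext g'
    rw [mem_U, Finset.mem_insert, mem_U, ← List.take_append_getElem hj, List.mem_append,
      List.mem_singleton, hgL]
    constructor
    · rintro ⟨h1, h2 | h2⟩
      · exact Or.inr ⟨h1, h2⟩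
      · left
        refine (D.Q_inj (S := S) (g := g) hgJ (D.mem_R.1 h1).1 ?_)
        rw [h2]; exact D.m_mem_self hgJ
    · rintro (rfl | ⟨h1, h2⟩)
      · exact ⟨D.mem_R.2 ⟨hg, hgJ⟩, Or.inr rfl⟩
      · exact ⟨h1, Or.inl h2⟩

/-- the intersection with the earlier facets, combinatorially -/
lemma U_prefix {S : Finset κ} {L L' : List (Set (Sp 4))} (hJ : (D.J S).Nonempty) (hnd : L.Nodup)
    (hL : ∀ F, F ∈ L ↔ IsFacet (D.Q S) F) {j : ℕ} (hj : j < L.length) {g : κ}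
    (hg : g ∈ D.R S) (hgL : L[j] = D.Q (insert g S))
    (hL' : ∀ F, F ∈ L' ↔ IsFacet L[j] F) {r : ℕ}
    (hr : L[j] ∩ unionFirst L j = unionFirst L' r) :
    D.U (insert g S) L' r = D.R (insert g S) ∩ D.U S L j := by
  have hgJ := (D.mem_R.1 hg).2
  have hgS := (D.mem_R.1 hg).1
  ext h
  rw [mem_U, Finset.mem_inter]
  constructor
  · rintro ⟨h1, h2⟩
    refine ⟨h1, ?_⟩
    obtain ⟨h3, h4⟩ := D.mem_R.1 h1
    have h5 : D.m (insert h (insert g S)) ∈ unionFirst L' r :=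
      mem_unionFirst.2 ⟨_, h2, D.m_mem_self h4⟩
    rw [← hr] at h5
    obtain ⟨G, hG, hmG⟩ := mem_unionFirst.1 h5.2
    obtain ⟨g', hg', hg'J, rfl⟩ := (D.isFacet_iff hJ _).1 ((hL G).1 (List.mem_of_mem_take hG))
    have h6 := (D.m_mem_iff h4 _).1 hmG (Finset.mem_insert_self g' S)
    rw [Finset.mem_insert, Finset.mem_insert] at h6
    rcases h6 with h6 | h6 | h6
    · subst h6
      exact D.mem_U.2 ⟨D.mem_R.2 ⟨hg', hg'J⟩, hG⟩
    · subst h6
      exact absurd hG (by rw [← hgL]; exact getElem_not_mem_take hnd hj)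
    · exact absurd h6 hg'
  · rintro ⟨h1, h2⟩
    refine ⟨h1, ?_⟩
    obtain ⟨h3, h4⟩ := D.mem_R.1 h1
    have hm1 : D.m (insert h (insert g S)) ∈ L[j] := by
      rw [hgL]
      exact D.Q_mono (Finset.subset_insert _ _) (D.m_mem_self h4)
    have hm2 : D.m (insert h (insert g S)) ∈ unionFirst L j := by
      refine mem_unionFirst.2 ⟨_, (D.mem_U.1 h2).2, ?_⟩
      refine D.Q_mono ?_ (D.m_mem_self h4)
      exact Finset.insert_subset_insert _ (Finset.subset_insert _ _)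
    have hm3 : D.m (insert h (insert g S)) ∈ unionFirst L' r := by
      rw [← hr]; exact ⟨hm1, hm2⟩
    obtain ⟨G, hG, hmG⟩ := mem_unionFirst.1 hm3
    have hGf := (hL' G).1 (List.mem_of_mem_take hG)
    rw [hgL] at hGf
    obtain ⟨h', hh', hh'J, rfl⟩ := (D.isFacet_iff hgJ _).1 hGf
    have := D.Q_inj h4 hh' hmG
    subst this
    exact hG

/-- nonempty intersection with the earlier facets, combinatorially -/
lemma exists_adj {S : Finset κ} {L : List (Set (Sp 4))} (hJ : (D.J S).Nonempty)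
    (hL : ∀ F, F ∈ L ↔ IsFacet (D.Q S) F) {j : ℕ} (hj : j < L.length) {g : κ}
    (hgL : L[j] = D.Q (insert g S)) (hne : (L[j] ∩ unionFirst L j).Nonempty) :
    ∃ h ∈ D.U S L j, (D.J (insert h (insert g S))).Nonempty := by
  obtain ⟨x, hx1, hx2⟩ := hne
  obtain ⟨G, hG, hxG⟩ := mem_unionFirst.1 hx2
  obtain ⟨h, hh, hhJ, rfl⟩ := (D.isFacet_iff hJ _).1 ((hL G).1 (List.mem_of_mem_take hG))
  refine ⟨h, D.mem_U.2 ⟨D.mem_R.2 ⟨hh, hhJ⟩, hG⟩, ?_⟩
  refine D.J_nonempty_of_Q (x := x) ⟨hxG.1, fun f hf => ?_⟩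
  rcases Finset.mem_insert.1 hf with rfl | hf
  · exact hxG.2 f (Finset.mem_insert_self _ _)
  · rw [hgL] at hx1
    exact hx1.2 f hf

/-- number of facets at `i`, not in `S`, which belong to `A` -/
def kc (S A : Finset κ) (i : ι) : ℕ := ((D.N i \ S) ∩ A).card

/-- counting sums -/
def Sm (φ : ℕ → ℤ) (S A : Finset κ) : ℤ := ∑ i ∈ D.J S, φ (D.kc S A i)

lemma kc_insert_of_mem {S A : Finset κ} {i : ι} {g : κ} (hg : g ∈ D.N i \ S) (hA : g ∉ A) :
    D.kc S (insert g A) i = D.kc S A i + 1 := by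
  unfold kc
  rw [Finset.inter_insert_of_mem hg, Finset.card_insert_of_notMem]
  simp [hA]

lemma kc_insert_of_notMem {S A : Finset κ} {i : ι} {g : κ} (hg : g ∉ D.N i \ S) :
    D.kc S (insert g A) i = D.kc S A i := by
  unfold kc
  rw [Finset.inter_insert_of_notMem hg]

lemma kc_insert_left {S A : Finset κ} {i : ι} {g : κ} (hA : g ∉ A) :
    D.kc (insert g S) A i = D.kc S A i := by
  unfold kc
  congr 1
  ext x
  simp only [Finset.mem_inter, Finset.mem_sdiff, Finset.mem_insert, not_or]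
  constructor
  · rintro ⟨⟨h1, _, h3⟩, h4⟩; exact ⟨⟨h1, h3⟩, h4⟩
  · rintro ⟨⟨h1, h3⟩, h4⟩
    exact ⟨⟨h1, fun h => hA (h ▸ h4), h3⟩, h4⟩

lemma J_insert (S : Finset κ) (g : κ) :
    D.J (insert g S) = (D.J S).filter (fun i => g ∈ D.N i) := by
  ext i
  simp only [mem_J, Finset.mem_filter, Finset.insert_subset_iff]
  tauto

lemma Sm_insert (φ : ℕ → ℤ) {S A : Finset κ} {g : κ} (hS : g ∉ S) (hA : g ∉ A) :
    D.Sm φ S (insert g A) = D.Sm φ S A + D.Sm (fun k => φ (k + 1) - φ k) (insert g S) A := by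
  unfold Sm
  rw [D.J_insert, Finset.sum_filter, ← Finset.sum_add_distrib]
  refine Finset.sum_congr rfl fun i hi => ?_
  by_cases h : g ∈ D.N i
  · rw [if_pos h, D.kc_insert_left hA, D.kc_insert_of_mem (Finset.mem_sdiff.2 ⟨h, hS⟩) hA]
    ring
  · rw [if_neg h, D.kc_insert_of_notMem (fun h' => h (Finset.mem_sdiff.1 h').1), add_zero]

lemma N_sub_R {S : Finset κ} {i : ι} (hi : i ∈ D.J S) : D.N i \ S ⊆ D.R S := by
  intro g hg
  rw [Finset.mem_sdiff] at hg
  exact D.mem_R.2 ⟨hg.2, i, D.mem_J.2 (Finset.insert_subset hg.1 (D.mem_J.1 hi))⟩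

lemma Sm_inter_R (φ : ℕ → ℤ) (S A : Finset κ) : D.Sm φ S (D.R S ∩ A) = D.Sm φ S A := by
  unfold Sm
  refine Finset.sum_congr rfl fun i hi => ?_
  congr 1
  unfold kc
  rw [← Finset.inter_assoc, Finset.inter_eq_left.2 (D.N_sub_R hi)]

lemma kc_full {S A : Finset κ} {i : ι} (hi : i ∈ D.J S) (hA : D.N i \ S ⊆ A) :
    D.kc S A i = 4 - S.card := by
  unfold kc
  rw [Finset.inter_eq_left.2 hA, Finset.card_sdiff_of_subset (D.mem_J.1 hi), D.card_N]

lemma Sm_full (φ : ℕ → ℤ) (S : Finset κ) :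
    D.Sm φ S (D.R S) = (D.J S).card * φ (4 - S.card) := by
  unfold Sm
  rw [Finset.sum_congr rfl (fun i hi => by rw [D.kc_full hi (D.N_sub_R hi)]), Finset.sum_const,
    nsmul_eq_mul]

lemma Sm_empty (φ : ℕ → ℤ) (S : Finset κ) : D.Sm φ S ∅ = (D.J S).card * φ 0 := by
  simp [Sm, kc]

end SData

end Pool.Agent.Helper486.Ham
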