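import Mathlib

namespace Pool.Agent.Helper486.Topo

open Metric Set Topology

/-- `f` has a continuous logarithm -/
def HasLog {X : Type*} [TopologicalSpace X] (f : X → ℂ) : Prop :=
  ∃ g : X → ℂ, Continuous g ∧ ∀ x, f x = Complex.exp (g x)

lemma hasLog_iff_of_close {X : Type*} [TopologicalSpace X] {f g : X → ℂ} (hf : Continuous f)
    (hg : Continuous g) (h : ∀ x, ‖f x - g x‖ < ‖g x‖) : HasLog f ↔ HasLog g := by
  have hg0 : ∀ x, g x ≠ 0 := fun x h0 => by
    have := h x; rw [h0, norm_zero] at this; exact absurd this (not_lt.2 (norm_nonneg _))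
  have hr : ∀ x, f x / g x ∈ Complex.slitPlane := by
    intro x
    have h1 : f x / g x = 1 + (f x - g x) / g x := by
      field_simp [hg0 x]; ring
    rw [h1]
    apply Complex.mem_slitPlane_of_norm_lt_one
    rw [norm_div, div_lt_one (norm_pos_iff.2 (hg0 x))]
    exact h x
  have hrc : Continuous (fun x => Complex.log (f x / g x)) :=
    (hf.div hg hg0).clog hr
  have hr0 : ∀ x, f x / g x ≠ 0 := fun x => Complex.slitPlane_ne_zero (hr x)
  constructor
  · rintro ⟨u, hu, hfu⟩
    refine ⟨fun x => u x - Complex.log (f x / g x), hu.sub hrc, fun x => ?_⟩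
    rw [Complex.exp_sub, ← hfu, Complex.exp_log (hr0 x)]
    have hf0 : f x ≠ 0 := fun h0 => hr0 x (by rw [h0, zero_div])
    field_simp [hf0, hg0 x]
  · rintro ⟨u, hu, hgu⟩
    refine ⟨fun x => u x + Complex.log (f x / g x), hu.add hrc, fun x => ?_⟩
    rw [Complex.exp_add, ← hgu, Complex.exp_log (hr0 x), mul_div_cancel₀ _ (hg0 x)]

lemma hasLog_homotopy {X : Type*} [TopologicalSpace X] [CompactSpace X]
    {H : unitInterval × X → ℂ} (hH : Continuous H) (h0 : ∀ p, H p ≠ 0)
    (hl : HasLog (fun x => H (0, x))) : HasLog (fun x => H (1, x)) := by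
  have hcont : ∀ t, Continuous (fun x => H (t, x)) := fun t => hH.comp (by fun_prop)
  have hloc : IsLocallyConstant (fun t : unitInterval => HasLog (fun x => H (t, x))) := by
    rw [IsLocallyConstant.iff_eventually_eq]
    intro t0
    have hP : ∀ x ∈ (Set.univ : Set X), ∀ᶠ z : unitInterval × X in 𝓝 (t0, x),
        ‖H (z.1, z.2) - H (t0, z.2)‖ < ‖H (t0, z.2)‖ := by
      intro x _
      have hc1 : Continuous (fun z : unitInterval × X => ‖H (z.1, z.2) - H (t0, z.2)‖) := by
        have : Continuous (fun z : unitInterval × X => H (t0, z.2)) := (hcont t0).comp continuous_snd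
        exact (hH.sub this).norm
      have hc2 : Continuous (fun z : unitInterval × X => ‖H (t0, z.2)‖) :=
        ((hcont t0).comp continuous_snd).norm
      refine (hc1.tendsto (t0, x)).eventually_lt (hc2.tendsto (t0, x)) ?_
      simp [h0]
    have h1 := isCompact_univ.eventually_forall_of_forall_eventually
      (P := fun t x => ‖H (t, x) - H (t0, x)‖ < ‖H (t0, x)‖) hP
    filter_upwards [h1] with t ht
    exact propext (hasLog_iff_of_close (hcont t) (hcont t0) (fun x => ht x (Set.mem_univ x)))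
  have := hloc.apply_eq_of_preconnectedSpace 0 1
  rw [← this]
  exact hl

lemma hasLog_const {X : Type*} [TopologicalSpace X] {c : ℂ} (hc : c ≠ 0) :
    HasLog (fun _ : X => c) := ⟨fun _ => Complex.log c, continuous_const, fun _ =>
      (Complex.exp_log hc).symm⟩

/-- a continuous function with `exp = 1` on a preconnected space is constant -/
lemma const_of_exp_const {X : Type*} [TopologicalSpace X] [PreconnectedSpace X] {g : X → ℂ}
    (hg : Continuous g) {c : ℂ} (h : ∀ x, Complex.exp (g x) = c) (x y : X) : g x = g y := by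
  have hd : ∀ x y, ∃ n : ℤ, g x = g y + n * (2 * Real.pi * Complex.I) := fun x y =>
    Complex.exp_eq_exp_iff_exists_int.1 (by rw [h x, h y])
  have hloc : IsLocallyConstant g := by
    rw [IsLocallyConstant.iff_eventually_eq]
    intro x0
    have hb : ∀ᶠ x in 𝓝 x0, dist (g x) (g x0) < 2 * Real.pi :=
      (hg.tendsto x0).eventually (Metric.ball_mem_nhds _ Real.two_pi_pos)
    filter_upwards [hb] with x hx
    obtain ⟨n, hn⟩ := hd x x0
    have h1 : dist (g x) (g x0) = |(n : ℝ)| * (2 * Real.pi) := by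
      rw [hn, dist_eq_norm, add_sub_cancel_left, norm_mul, norm_mul, norm_mul, Complex.norm_I,
        mul_one, Complex.norm_real, Real.norm_of_nonneg Real.pi_pos.le]
      simp
    rw [h1] at hx
    have h2 : |(n : ℝ)| < 1 := by
      by_contra hcon
      push Not at hcon
      have := mul_le_mul_of_nonneg_right hcon Real.two_pi_pos.le
      linarith
    have h3 : n = 0 := by
      have : |n| < 1 := by exact_mod_cast h2
      exact Int.abs_lt_one_iff.1 this
    rw [hn, h3]; simp
  exact hloc.apply_eq_of_preconnectedSpace x y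

/-- invariance of domain in the plane, local form -/
theorem iod {F : ℂ → ℂ} {r : ℝ} (hr : 0 < r) (hc : ContinuousOn F (closedBall 0 r))
    (hi : InjOn F (closedBall 0 r)) : ∃ m > 0, ball (F 0) m ⊆ F '' closedBall 0 r := by
  have hrank : 1 < Module.rank ℝ ℂ := by rw [Complex.rank_real_complex]; norm_num
  have hsub : sphere (0 : ℂ) r ⊆ closedBall 0 r := sphere_subset_closedBall
  have hconn : PreconnectedSpace (sphere (0 : ℂ) r) :=
    isPreconnected_iff_preconnectedSpace.1 (isPreconnected_sphere hrank 0 r)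
  have hcomp : CompactSpace (sphere (0 : ℂ) r) := isCompact_iff_compactSpace.1 (isCompact_sphere 0 r)
  have h0mem : (0 : ℂ) ∈ closedBall (0 : ℂ) r := by simp [hr.le]
  have hnorm : ∀ z : sphere (0 : ℂ) r, ‖z.1‖ = r := fun z => by simp
  have hscal : ∀ (z : sphere (0 : ℂ) r) (a : ℝ), |a| ≤ 1 → (a : ℂ) * z.1 ∈ closedBall (0 : ℂ) r := by
    intro z a ha
    rw [mem_closedBall_zero_iff, norm_mul, hnorm, Complex.norm_real, Real.norm_eq_abs]
    nlinarith
  -- `F z - F 0` has no logarithm on the circle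
  have hno : ¬ HasLog (fun z : sphere (0 : ℂ) r => F z - F 0) := by
    intro hl
    let a : unitInterval → ℝ := fun t => 1 / (1 + (t : ℝ))
    let b : unitInterval → ℝ := fun t => -(t : ℝ) / (1 + (t : ℝ))
    have ht0 : ∀ t : unitInterval, (0 : ℝ) ≤ t := fun t => t.2.1
    have ht1 : ∀ t : unitInterval, (t : ℝ) ≤ 1 := fun t => t.2.2
    have hpos : ∀ t : unitInterval, (0 : ℝ) < 1 + (t : ℝ) := fun t => by linarith [ht0 t]
    have ha : ∀ t, |a t| ≤ 1 := fun t => by
      rw [abs_le]; simp only [a]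
      constructor
      · rw [le_div_iff₀ (hpos t)]; linarith [ht0 t]
      · rw [div_le_iff₀ (hpos t)]; linarith [ht0 t]
    have hb : ∀ t, |b t| ≤ 1 := fun t => by
      rw [abs_le]; simp only [b]
      constructor
      · rw [le_div_iff₀ (hpos t)]; linarith [ht0 t]
      · rw [div_le_iff₀ (hpos t)]; linarith [ht0 t]
    have hac : Continuous a := by
      refine Continuous.div continuous_const (by fun_prop) (fun t => (hpos t).ne')
    have hbc : Continuous b := by
      refine Continuous.div (by fun_prop) (by fun_prop) (fun t => (hpos t).ne')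
    let H : unitInterval × sphere (0 : ℂ) r → ℂ :=
      fun p => F ((a p.1 : ℂ) * p.2.1) - F ((b p.1 : ℂ) * p.2.1)
    have hHc : Continuous H := by
      refine Continuous.sub ?_ ?_
      · refine hc.comp_continuous (by fun_prop) (fun p => hscal _ _ (ha _))
      · refine hc.comp_continuous (by fun_prop) (fun p => hscal _ _ (hb _))
    have hH0 : ∀ p, H p ≠ 0 := by
      rintro ⟨t, z⟩ h
      have h1 : (a t : ℂ) * z.1 = (b t : ℂ) * z.1 :=
        hi (hscal _ _ (ha _)) (hscal _ _ (hb _)) (sub_eq_zero.1 h)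
      have hz : z.1 ≠ 0 := by
        rw [← norm_pos_iff, hnorm]; exact hr
      have h2 : (a t : ℂ) = b t := mul_right_cancel₀ hz h1
      have h3 : a t = b t := by exact_mod_cast h2
      simp only [a, b] at h3
      rw [div_left_inj' (hpos t).ne'] at h3
      linarith [ht0 t]
    have hl0 : HasLog (fun z : sphere (0 : ℂ) r => H (0, z)) := by
      have : (fun z : sphere (0 : ℂ) r => H (0, z)) = fun z : sphere (0 : ℂ) r => F z - F 0 := by
        funext z; simp [H, a, b]
      rw [this]; exact hl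
    obtain ⟨g, hg, hHg⟩ := hasLog_homotopy hHc hH0 hl0
    have ha1 : a 1 = 1 / 2 := by simp [a]; norm_num
    have hb1 : b 1 = -(1 / 2) := by simp [b]; norm_num
    have hodd : ∀ z : sphere (0 : ℂ) r, H (1, -z) = - H (1, z) := by
      intro z
      show F ((a 1 : ℂ) * (-z : sphere (0 : ℂ) r).1) - F ((b 1 : ℂ) * (-z : sphere (0 : ℂ) r).1) =
        -(F ((a 1 : ℂ) * z.1) - F ((b 1 : ℂ) * z.1))
      have e0 : (-z : sphere (0 : ℂ) r).1 = - z.1 := rfl
      rw [ha1, hb1, e0]
      have e1 : ((1 / 2 : ℝ) : ℂ) * (-z.1) = ((-(1 / 2) : ℝ) : ℂ) * z.1 := by push_cast; ring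
      have e2 : ((-(1 / 2) : ℝ) : ℂ) * (-z.1) = ((1 / 2 : ℝ) : ℂ) * z.1 := by push_cast; ring
      rw [e1, e2]; ring
    have hneg : Continuous (fun z : sphere (0 : ℂ) r => -z) := by
      refine Continuous.subtype_mk (by fun_prop) _
    have hk : ∀ z : sphere (0 : ℂ) r, Complex.exp (g (-z) - g z) = -1 := by
      intro z
      rw [Complex.exp_sub, ← hHg, ← hHg]
      show H (1, -z) / H (1, z) = -1
      rw [hodd, neg_div, div_self (hH0 _)]
    have hgc : Continuous (fun z : sphere (0 : ℂ) r => g (-z) - g z) := (hg.comp hneg).sub hg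
    have hconst := const_of_exp_const hgc hk
    have hne : (sphere (0 : ℂ) r).Nonempty := NormedSpace.sphere_nonempty.2 hr.le
    obtain ⟨z, hz⟩ := hne
    have h1 : g (-⟨z, hz⟩) - g ⟨z, hz⟩ = g (- -⟨z, hz⟩) - g (-⟨z, hz⟩) := hconst ⟨z, hz⟩ (-⟨z, hz⟩)
    rw [neg_neg] at h1
    have h2 := hk ⟨z, hz⟩
    have h3 : g (-⟨z, hz⟩) - g ⟨z, hz⟩ = 0 := by
      have : 2 * (g (-⟨z, hz⟩) - g ⟨z, hz⟩) = 0 := by linear_combination h1
      exact (mul_eq_zero.1 this).resolve_left two_ne_zero
    rw [h3, Complex.exp_zero] at h2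
    norm_num at h2
  -- minimum distance
  have hcs : Continuous (fun z : sphere (0 : ℂ) r => F z) :=
    hc.comp_continuous continuous_subtype_val (fun z => hsub z.2)
  have hcn : ContinuousOn (fun z => ‖F z - F 0‖) (sphere 0 r) :=
    ((hc.mono hsub).sub continuousOn_const).norm
  obtain ⟨z0, hz0, hmin⟩ := (isCompact_sphere (0 : ℂ) r).exists_isMinOn
    (NormedSpace.sphere_nonempty.2 hr.le) hcn
  have hpos : 0 < ‖F z0 - F 0‖ := by
    rw [norm_pos_iff, sub_ne_zero]
    intro h
    have h1 := hi (hsub hz0) h0mem h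
    rw [mem_sphere_zero_iff_norm, h1, norm_zero] at hz0
    exact hr.ne hz0
  refine ⟨‖F z0 - F 0‖, hpos, fun w hw => ?_⟩
  by_contra hwF
  apply hno
  have hne : ∀ z ∈ closedBall (0 : ℂ) r, F z - w ≠ 0 := fun z hz h =>
    hwF ⟨z, hz, sub_eq_zero.1 h⟩
  have hlw : HasLog (fun z : sphere (0 : ℂ) r => F z - w) := by
    let H : unitInterval × sphere (0 : ℂ) r → ℂ := fun p => F (((p.1 : ℝ) : ℂ) * p.2.1) - w
    have habs : ∀ t : unitInterval, |(t : ℝ)| ≤ 1 := fun t => by
      rw [abs_le]; exact ⟨by linarith [t.2.1], t.2.2⟩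
    have hHc : Continuous H := by
      refine Continuous.sub ?_ continuous_const
      exact hc.comp_continuous (by fun_prop) (fun p => hscal _ _ (habs _))
    have hH0 : ∀ p, H p ≠ 0 := fun p => hne _ (hscal _ _ (habs _))
    have h0 : HasLog (fun z : sphere (0 : ℂ) r => H (0, z)) := by
      have : (fun z : sphere (0 : ℂ) r => H (0, z)) = fun _ => F 0 - w := by
        funext z; simp [H]
      rw [this]
      exact hasLog_const (hne 0 h0mem)
    have h1 := hasLog_homotopy hHc hH0 h0
    have : (fun z : sphere (0 : ℂ) r => H (1, z)) = fun z : sphere (0 : ℂ) r => F z - w := by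
      funext z; simp [H]
    rw [this] at h1
    exact h1
  have hclose : ∀ z : sphere (0 : ℂ) r, ‖(F z - w) - (F z - F 0)‖ < ‖F z - F 0‖ := by
    intro z
    have e : (F z - w) - (F z - F 0) = -(w - F 0) := by ring
    rw [e, norm_neg]
    have h1 : ‖w - F 0‖ < ‖F z0 - F 0‖ := by simpa [dist_eq_norm] using hw
    exact lt_of_lt_of_le h1 (hmin z.2)
  exact (hasLog_iff_of_close (hcs.sub continuous_const) (hcs.sub continuous_const) hclose).1 hlw

end Pool.Agent.Helper486.Topo
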